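import Pool.Agent.H68.TK.Cyc

/-!
ROW Sgb (adjoining `√-3`, one extension; about 140 lines).  PROOF.
`C = L(s)`, `s^2 = -3`, `-3` not a square in `L`: the minimal polynomial of `s` over `L` is `X^2 + 3` (`X_pow_sub_C_irreducible_of_prime` or as `H68QS.quad_of_adjoin` in `Pool/Agent/H68/QS/Gal.lean`).
`finrank_s`: `IntermediateField.adjoin.finrank` (or `H68QS.quad_of_adjoin`).
`galois_s`: `C` is the splitting field over `K` of `f * (X^2 + 3)` for `f` with splitting field `L/K` (as `galois_up` in `Pool/Agent/H68/QS/Gal.lean`); or: `K(s)/K` and the image of `L` are Galois intermediate fields of `C/K` with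
join `⊤` (`normal_sup`-type instance, `IsGalois.sup_right`). (`s` may lie in `L` here.)
`gen_s`: two automorphisms of `C` over `L` with the same value at `s` are equal (`IntermediateField.algHom_ext_of_eq_adjoin` or `H68IM.gen_mem`, `Pool/Agent/H68/IM/Sub.lean`).
`neg_s`: `IntermediateField.adjoin.powerBasis` lift to the root `-s` of `X^2 + 3`, an algebra map `C → C` over `L`, bijective by dimension.
`card_s`: the automorphisms fixing `s` form a subgroup of `C ≃ₐ[K] C`, whose order is `[C : K] = [L : K] [C : L] = 2 [L : K]` (`IsGalois.card_aut_eq_finrank`), not divisible by three; Lagrange.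
-/

set_option autoImplicit false
open scoped Classical

open IsDedekindDomain NumberField Finset

namespace H68TK

/-- The minimal polynomial of `s`. -/
theorem Sgb_min {L C : Type} [Field L] [NumberField L] [Field C] [NumberField C] [Algebra L C]
    {s : C} (hs : s ^ 2 = -3) (h0 : ∀ z : L, z ^ 2 ≠ -3) :
    minpoly L s = Polynomial.X ^ 2 - Polynomial.C (-3) := by
  have hirr : Irreducible (Polynomial.X ^ 2 - Polynomial.C (-3) : Polynomial L) :=
    X_pow_sub_C_irreducible_of_prime Nat.prime_two h0
  symm
  apply minpoly.eq_of_irreducible_of_monic hirr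
  · rw [map_sub, map_pow, Polynomial.aeval_X, Polynomial.aeval_C, hs, map_neg, map_ofNat,
      sub_self]
  · exact Polynomial.monic_X_pow_sub_C _ two_ne_zero

/-- The compositum of a Galois extension and `K(√-3)` is normal. -/
theorem Sgb_normal {K L C : Type} [Field K] [NumberField K] [Field L] [NumberField L] [Field C]
    [NumberField C] [Algebra K L] [Algebra L C] [Algebra K C] [IsScalarTower K L C]
    [IsGalois K L] {s : C} (hs : s ^ 2 = -3)
    (hgen : IntermediateField.adjoin L {s} = ⊤) : Normal K C := by
  have hfd : FiniteDimensional K L := Module.Finite.of_restrictScalars_finite ℚ K L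
  have hfd2 : FiniteDimensional K C := Module.Finite.of_restrictScalars_finite ℚ K C
  obtain ⟨T, hT₁, hT₂⟩ := IsGalois.is_separable_splitting_field K L
  have hT0 : T ≠ 0 := hT₁.ne_zero
  have hq0 : (Polynomial.X ^ 2 - Polynomial.C (-3) : Polynomial K) ≠ 0 :=
    (Polynomial.monic_X_pow_sub_C _ two_ne_zero).ne_zero
  have h0 : T * (Polynomial.X ^ 2 - Polynomial.C (-3)) ≠ 0 := mul_ne_zero hT0 hq0
  have h0' : (T * (Polynomial.X ^ 2 - Polynomial.C (-3))).map (algebraMap K C) ≠ 0 :=
    (Polynomial.map_ne_zero_iff (algebraMap K C).injective).mpr h0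
  have hsp : (T * (Polynomial.X ^ 2 - Polynomial.C (-3))).IsSplittingField K C := by
    rw [isSplittingField_iff_intermediateField] at hT₂ ⊢
    refine ⟨?_, ?_⟩
    · rw [Polynomial.map_mul]
      refine Polynomial.Splits.mul ?_ ?_
      · exact Polynomial.Splits.of_algHom hT₂.1 (IsScalarTower.toAlgHom K L C)
      · have h1 : (Polynomial.X ^ 2 - Polynomial.C (-3) : Polynomial K).map (algebraMap K C) =
            (Polynomial.X - Polynomial.C s) * (Polynomial.X - Polynomial.C (-s)) := by
          have h2 : (Polynomial.C s * Polynomial.C s : Polynomial C) = Polynomial.C (-3) := by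
            rw [← Polynomial.C_mul, ← hs, sq]
          rw [Polynomial.map_sub, Polynomial.map_pow, Polynomial.map_X, Polynomial.map_C, map_neg,
            map_ofNat, ← h2, Polynomial.C_neg]
          ring
        rw [h1]
        exact (Polynomial.Splits.X_sub_C _).mul (Polynomial.Splits.X_sub_C _)
    · rw [eq_top_iff]
      have hL : ∀ x : L, algebraMap L C x ∈ IntermediateField.adjoin K
          ((T * (Polynomial.X ^ 2 - Polynomial.C (-3))).rootSet C) := by
        intro x
        have hx : x ∈ IntermediateField.adjoin K (T.rootSet L) := by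
          rw [hT₂.2]
          trivial
        induction hx using IntermediateField.adjoin_induction with
        | mem x hx =>
          apply IntermediateField.subset_adjoin
          rw [Polynomial.mem_rootSet'] at hx ⊢
          refine ⟨h0', ?_⟩
          rw [map_mul, Polynomial.aeval_algebraMap_apply, hx.2, map_zero, zero_mul]
        | algebraMap x =>
          rw [← IsScalarTower.algebraMap_apply]
          exact IntermediateField.algebraMap_mem _ _
        | add x y _ _ hx hy => rw [map_add]; exact add_mem hx hy
        | inv x _ hx => rw [map_inv₀]; exact inv_mem hx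
        | mul x y _ _ hx hy => rw [map_mul]; exact mul_mem hx hy
      have hsm : s ∈ IntermediateField.adjoin K
          ((T * (Polynomial.X ^ 2 - Polynomial.C (-3))).rootSet C) := by
        apply IntermediateField.subset_adjoin
        rw [Polynomial.mem_rootSet']
        refine ⟨h0', ?_⟩
        rw [map_mul, map_sub, map_pow, Polynomial.aeval_X, Polynomial.aeval_C, hs, map_neg,
          map_ofNat, sub_self, mul_zero]
      intro y _
      have hy : y ∈ IntermediateField.adjoin L {s} := by
        rw [hgen]
        trivial
      induction hy using IntermediateField.adjoin_induction with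
      | mem x hx =>
        rw [Set.mem_singleton_iff.1 hx]
        exact hsm
      | algebraMap x => exact hL x
      | add x y _ _ hx hy => exact add_mem (hx trivial) (hy trivial)
      | inv x _ hx => exact inv_mem (hx trivial)
      | mul x y _ _ hx hy => exact mul_mem (hx trivial) (hy trivial)
  exact Normal.of_isSplittingField (T * (Polynomial.X ^ 2 - Polynomial.C (-3)))

section one

variable {K L C : Type} [Field K] [NumberField K] [Field L] [NumberField L] [Field C]
  [NumberField C] [Algebra K L] [Algebra L C] [Algebra K C] [IsScalarTower K L C]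

theorem finrank_s {s : C} (hs : s ^ 2 = -3) (hgen : IntermediateField.adjoin L {s} = ⊤)
    (h0 : ∀ z : L, z ^ 2 ≠ -3) : Module.finrank L C = 2 := by
  have hfd : FiniteDimensional L C := Module.Finite.of_restrictScalars_finite ℚ L C
  have h2 : Module.finrank L (IntermediateField.adjoin L {s}) = 2 := by
    rw [IntermediateField.adjoin.finrank (IsIntegral.of_finite L s), Sgb_min hs h0,
      Polynomial.natDegree_X_pow_sub_C]
  rw [hgen, IntermediateField.finrank_top'] at h2
  exact h2

theorem galois_s [IsGalois K L] {s : C} (hs : s ^ 2 = -3)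
    (hgen : IntermediateField.adjoin L {s} = ⊤) : IsGalois K C := by
  have hfd : FiniteDimensional K C := Module.Finite.of_restrictScalars_finite ℚ K C
  exact isGalois_iff.2 ⟨inferInstance, Sgb_normal hs hgen⟩

theorem gen_s {s : C} (hgen : IntermediateField.adjoin L {s} = ⊤) (g : C ≃ₐ[L] C) (hg : g s = s) :
    g = 1 := by
  refine AlgEquiv.ext fun y => ?_
  rw [AlgEquiv.one_apply]
  have hy : y ∈ IntermediateField.adjoin L {s} := by
    rw [hgen]
    trivial
  induction hy using IntermediateField.adjoin_induction with
  | mem x hx => rw [Set.mem_singleton_iff.1 hx, hg]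
  | algebraMap x => exact g.commutes x
  | add x y _ _ hx hy => rw [map_add, hx, hy]
  | inv x _ hx => rw [map_inv₀, hx]
  | mul x y _ _ hx hy => rw [map_mul, hx, hy]

theorem neg_s {s : C} (hs : s ^ 2 = -3) (hgen : IntermediateField.adjoin L {s} = ⊤)
    (h0 : ∀ z : L, z ^ 2 ≠ -3) : ∃ g : C ≃ₐ[L] C, g s = -s := by
  have hfd : FiniteDimensional L C := Module.Finite.of_restrictScalars_finite ℚ L C
  have hn : Normal L C := Sgb_normal (K := L) (L := L) hs hgen
  refine minpoly.exists_algEquiv_of_root' (Algebra.IsAlgebraic.isAlgebraic s) ?_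
  rw [Sgb_min hs h0, map_sub, map_pow, Polynomial.aeval_X, Polynomial.aeval_C, neg_sq, hs,
    map_neg, map_ofNat, sub_self]

theorem card_s [IsGalois K L] {s : C} (hs : s ^ 2 = -3)
    (hgen : IntermediateField.adjoin L {s} = ⊤) (h0 : ∀ z : L, z ^ 2 ≠ -3)
    (h3 : ¬ 3 ∣ Module.finrank K L) :
    ¬ 3 ∣ (univ.filter (fun g : C ≃ₐ[K] C => g s = s)).card := by
  have hfd : FiniteDimensional K L := Module.Finite.of_restrictScalars_finite ℚ K L
  have hfd1 : FiniteDimensional L C := Module.Finite.of_restrictScalars_finite ℚ L C
  have hfd2 : FiniteDimensional K C := Module.Finite.of_restrictScalars_finite ℚ K C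
  have hgal : IsGalois K C := galois_s hs hgen
  intro h
  have h1 : (univ.filter (fun g : C ≃ₐ[K] C => g s = s)).card =
      Nat.card (MulAction.stabilizer (C ≃ₐ[K] C) s) := by
    rw [Nat.card_eq_fintype_card, ← Fintype.card_subtype]
    exact Fintype.card_congr (Equiv.refl _)
  have h2 : Nat.card (MulAction.stabilizer (C ≃ₐ[K] C) s) ∣ Nat.card (C ≃ₐ[K] C) :=
    Subgroup.card_subgroup_dvd_card _
  rw [h1] at h
  have h4 := h.trans h2
  rw [IsGalois.card_aut_eq_finrank, ← Module.finrank_mul_finrank K L C,
    finrank_s hs hgen h0] at h4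
  rcases (Nat.Prime.dvd_mul Nat.prime_three).1 h4 with h5 | h5
  · exact h3 h5
  · omega

end one

end H68TK
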