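import Pool.Agent.H68.TK.Df

/-!
ROW Real (real fields; about 90 lines).  PROOF.
`ThreePower.real`: `F/ℚ` is Galois of odd degree, so it is unramified at the infinite place (`IsUnramifiedAtInfinitePlaces` of odd degree: `NumberField.isUnramifiedAtInfinitePlaces_of_odd_finrank` or `..of_odd_card_aut`), so all
places of `F` are real and `F` is totally real; or: for an embedding `φ : F → ℂ` complex conjugation restricts to an automorphism of `F` of order dividing two, and the group has odd order, so it is trivial; `k` embeds in `F`
(`IsTotallyReal.of_algebra` with the algebra structure of the embedding).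
`real_gen`: an embedding `φ : L → ℂ` is real: the set of `x` with `conj (φ x) = φ x` is a subfield of `L` which contains the image of `k` (`φ ∘ algebraMap` is a real embedding) and the image of `h`; `H68IM.gen_mem`
(`Pool/Agent/H68/IM/Sub.lean`).
`no_mu3`, `no_sqrt`: a totally real number field has a ring homomorphism to the reals (see `H68IM.exists_real`-like lemmas or `Pool/Agent/H68/IM/Base.lean`), and in the reals `z^3 = 1` gives `z = 1`, `z^2 ≠ -3`.
-/

set_option autoImplicit false

open IsDedekindDomain NumberField

namespace H68TK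

theorem ThreePower.real {k : Type} [Field k] [NumberField k] (h : ThreePower k) :
    IsTotallyReal k := by
  obtain ⟨F, _, _, hgal, ⟨r, hr⟩, ⟨φ⟩⟩ := h
  have := hgal
  have hun : IsUnramifiedAtInfinitePlaces ℚ F :=
    IsUnramifiedAtInfinitePlaces_of_odd_finrank (by rw [hr]; exact Odd.pow (by decide))
  have hF : IsTotallyReal F := by
    refine ⟨fun w => ?_⟩
    rcases InfinitePlace.isUnramified_iff.mp (hun.isUnramified w) with h | h
    · exact h
    · exact absurd (IsTotallyReal.isReal (w.comap (algebraMap ℚ F)))
        (InfinitePlace.not_isReal_iff_isComplex.mpr h)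
  have h1 : IsTotallyReal φ.fieldRange := inferInstance
  exact IsTotallyReal.ofRingEquiv (φ.rangeRestrictFieldEquiv).symm

theorem real_gen {k L L' : Type} [Field k] [NumberField k] [Field L] [NumberField L] [Field L']
    [NumberField L'] [Algebra k L] (hk : IsTotallyReal k) (hL' : IsTotallyReal L') (h : L' →+* L)
    (hgen : IntermediateField.adjoin k (Set.range h) = ⊤) : IsTotallyReal L := by
  have h1 : IsTotallyReal (algebraMap k L).fieldRange :=
    IsTotallyReal.ofRingEquiv ((algebraMap k L).rangeRestrictFieldEquiv)
  have h2 : IsTotallyReal h.fieldRange :=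
    IsTotallyReal.ofRingEquiv (h.rangeRestrictFieldEquiv)
  have h3 : IsTotallyReal (((algebraMap k L).fieldRange ⊔ h.fieldRange : Subfield L)) :=
    inferInstance
  have h4 : (((algebraMap k L).fieldRange ⊔ h.fieldRange : Subfield L)) = ⊤ := by
    rw [eq_top_iff]
    intro x _
    refine H68IM.gen_mem hgen _ ?_ ?_ x
    · intro b
      exact (le_sup_left (a := (algebraMap k L).fieldRange) (b := h.fieldRange)) ⟨b, rfl⟩
    · rintro _ ⟨y, rfl⟩
      exact (le_sup_right (a := (algebraMap k L).fieldRange) (b := h.fieldRange)) ⟨y, rfl⟩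
  rw [h4] at h3
  exact isTotallyReal_top_iff.mp h3

private theorem Real_exists {L : Type} [Field L] [NumberField L] (h : IsTotallyReal L) :
    Nonempty (L →+* ℝ) := by
  obtain ⟨φ⟩ : Nonempty (L →+* ℂ) := inferInstance
  exact ⟨(h.complexEmbedding_isReal φ).embedding⟩

theorem no_mu3 {L : Type} [Field L] [NumberField L] (h : IsTotallyReal L) (z : L)
    (hz : z ^ 3 = 1) : z = 1 := by
  obtain ⟨φ⟩ := Real_exists h
  have h1 : (φ z) ^ 3 = 1 := by rw [← map_pow, hz, map_one]
  have h2 : φ z = 1 := by
    have h3 : (φ z - 1) * ((φ z) ^ 2 + φ z + 1) = 0 := by linear_combination h1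
    rcases mul_eq_zero.mp h3 with h4 | h4
    · linarith
    · exfalso
      nlinarith [sq_nonneg (φ z + 1 / 2)]
  apply φ.injective
  rw [h2, map_one]

theorem no_sqrt {L : Type} [Field L] [NumberField L] (h : IsTotallyReal L) (z : L) :
    z ^ 2 ≠ -3 := by
  intro hz
  obtain ⟨φ⟩ := Real_exists h
  have h1 : (φ z) ^ 2 = -3 := by rw [← map_pow, hz, map_neg, map_ofNat]
  nlinarith [sq_nonneg (φ z)]

end H68TK
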