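import Pool.Agent.H68.TK.Bm
import Pool.Agent.H68.TK.Real
import Pool.Agent.H55.T3.Un
import Pool.Agent.H55.T3.Fin
import Pool.Agent.H68.QS.Base

/-!
# MP_78d38b: three torsion, the layers over the rationals
-/

set_option autoImplicit false
set_option linter.style.haveILetI false
open scoped Classical

open IsDedekindDomain NumberField WithZero Finset Pool.Agent.H10 H5SW H55T3 H68QS

namespace H68TK

theorem Base_surj {k K' K : Type} [Field k] [NumberField k] [Field K'] [NumberField K']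
    [Field K] [NumberField K] (f : k →+* K) (g : K' →+* K) (hk : Module.finrank ℚ k = 1)
    (s : Set K) (hs : s ⊆ Set.range f)
    (h : IntermediateField.adjoin ℚ (s ∪ Set.range g) = ⊤) : Function.Surjective g := by
  intro y
  have h1 : IntermediateField.adjoin ℚ (s ∪ Set.range g) ≤ (g.toRatAlgHom).fieldRange := by
    rw [IntermediateField.adjoin_le_iff]
    rintro z (hz | ⟨x, rfl⟩)
    · obtain ⟨x, rfl⟩ := hs hz
      have hb : (⊥ : Subalgebra ℚ k) = ⊤ := Subalgebra.bot_eq_top_of_finrank_eq_one hk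
      have hx : x ∈ (⊥ : Subalgebra ℚ k) := by
        rw [hb]
        exact Algebra.mem_top
      obtain ⟨r, rfl⟩ := Algebra.mem_bot.1 hx
      refine ⟨algebraMap ℚ K' r, ?_⟩
      change g (algebraMap ℚ K' r) = f (algebraMap ℚ k r)
      rw [RingHom.map_rat_algebraMap, RingHom.map_rat_algebraMap]
    · exact ⟨x, rfl⟩
  have h2 : y ∈ IntermediateField.adjoin ℚ (s ∪ Set.range g) := by
    rw [h]
    exact IntermediateField.mem_top
  obtain ⟨x, hx⟩ := h1 h2
  exact ⟨x, hx⟩

/-- A layer over the rationals, with explicit levels. -/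
theorem goodT_rat {p k0 T : ℕ} [Fact p.Prime] (hp : 5 ≤ p)
    (HR : ∀ {m n : ℕ} {K L M F : Type} [Field K] [NumberField K] [Field L] [NumberField L] [Field M]
      [NumberField M] [Field F] [NumberField F] [Algebra K L] [Algebra M F] [Algebra K M]
      [Algebra L F], k0 ≤ m + 1 → Tw p m n K L M F → NoNewCube K L)
    (HM : ∀ {m n : ℕ} (hmn : m ≤ n) {C : Type} [Field C] [NumberField C]
      [IsCyclotomicExtension {3 * p ^ (n + 1)} ℚ C], k0 ≤ m + 1 → NoNewC p m n hmn C)
    {M : ℤ} (hM : M ≠ 0)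
    (hT : ∀ q : ℕ, q.Prime → q ∣ M.natAbs → q ≠ p → ¬ p ^ (T + 1) ∣ q ^ (p - 1) - 1)
    (K L : Type) [Field K] [NumberField K] [Field L] [NumberField L] [Algebra K L]
    (hL : IsR p L) {i : ℕ} (hi : Module.finrank K L = p ^ i)
    (hk : k0 ≤ padicValNat p (Module.finrank ℚ K) + 1)
    (hTk : T ≤ padicValNat p (Module.finrank ℚ K) + 1) : GoodT M K L := by
  have hpp := (Fact.out : p.Prime)
  have hp2 : p ≠ 2 := by omega
  obtain ⟨n, M, F, _, _, _, _, _, _, _, ⟨Tw⟩⟩ := exists_tower (p := p) hp2 hL hi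
  have : IsGalois K L := galois_KL hp2 Tw
  have hodd : Odd (Module.finrank K L) := by
    rw [hi]
    exact (hpp.odd_of_ne_two hp2).pow
  have h3n : ¬ 3 ∣ Module.finrank K L := by
    rw [hi]
    intro h
    have := (Nat.prime_dvd_prime_iff_eq Nat.prime_three hpp).mp (Nat.prime_three.dvd_of_dvd_pow h)
    omega
  have R : NoNewCube K L := HR hk Tw
  refine ⟨this, hodd, h3n, R, ?_, ?_⟩
  · intro C _ _ _ _ _ s hs hgen
    obtain ⟨C', _, _, _, _, _, _, X⟩ := exists_C hp Tw
    exact base_minus X (HM Tw.rp.hmn hk) hs hgen (no_sqrt hL.1) h3n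
  · intro v hv
    obtain ⟨q, hq, hqD, hqv⟩ := exists_prime_mem hM v hv
    exact unique_tower hp2 Tw hq (fun hqp => hT q hq hqD hqp) hTk v hqv

theorem goodT_base {k K' L' K L : Type} [Field k] [NumberField k] [Field K'] [NumberField K']
    [Field L'] [NumberField L'] [Field K] [NumberField K] [Field L] [NumberField L]
    [Algebra K' L'] [Algebra K L] (C : Comp k K' L' K L) (hk : Module.finrank ℚ k = 1)
    {p k0 T : ℕ} [Fact p.Prime] (hp : 5 ≤ p)
    (HR : ∀ {m n : ℕ} {K L M F : Type} [Field K] [NumberField K] [Field L] [NumberField L] [Field M]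
      [NumberField M] [Field F] [NumberField F] [Algebra K L] [Algebra M F] [Algebra K M]
      [Algebra L F], k0 ≤ m + 1 → Tw p m n K L M F → NoNewCube K L)
    (HM : ∀ {m n : ℕ} (hmn : m ≤ n) {C : Type} [Field C] [NumberField C]
      [IsCyclotomicExtension {3 * p ^ (n + 1)} ℚ C], k0 ≤ m + 1 → NoNewC p m n hmn C)
    {M : ℤ} (hM : M ≠ 0)
    (hT : ∀ q : ℕ, q.Prime → q ∣ M.natAbs → q ≠ p → ¬ p ^ (T + 1) ∣ q ^ (p - 1) - 1)
    (hL : IsR p L') {i : ℕ} (hi : Module.finrank K' L' = p ^ i)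
    (hN : p ^ (k0 + T + 1) ∣ Module.finrank ℚ K') : GoodT M K L := by
  have hpp := (Fact.out : p.Prime)
  have hg : Function.Surjective C.g := Base_surj C.f C.g hk _ subset_rfl C.genK
  have hh : Function.Surjective C.h := by
    refine Base_surj ((algebraMap K L).comp C.f) C.h hk _ ?_ C.genL
    rintro z ⟨x, rfl⟩
    exact ⟨x, rfl⟩
  let eg : K' ≃+* K := RingEquiv.ofBijective C.g ⟨C.g.injective, hg⟩
  let eh : L' ≃+* L := RingEquiv.ofBijective C.h ⟨C.h.injective, hh⟩
  have dK : Module.finrank ℚ K = Module.finrank ℚ K' := by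
    have := LinearEquiv.finrank_eq (RingEquiv.toRatAlgEquiv eg).toLinearEquiv
    exact this.symm
  have dL : Module.finrank ℚ L = Module.finrank ℚ L' := by
    have := LinearEquiv.finrank_eq (RingEquiv.toRatAlgEquiv eh).toLinearEquiv
    exact this.symm
  have hi' : Module.finrank K L = p ^ i := by
    have h1 := Module.finrank_mul_finrank ℚ K' L'
    have h2 := Module.finrank_mul_finrank ℚ K L
    rw [dK, dL, ← h1, hi] at h2
    exact Nat.eq_of_mul_eq_mul_left Module.finrank_pos h2
  have hLL : IsR p L := by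
    obtain ⟨h1, n, ⟨e⟩⟩ := hL
    have := h1
    exact ⟨IsTotallyReal.ofRingEquiv eh, n, ⟨e.comp (eh.symm : L →+* L')⟩⟩
  have hpos : Module.finrank ℚ K ≠ 0 := Module.finrank_pos.ne'
  have hv : k0 + T + 1 ≤ padicValNat p (Module.finrank ℚ K) := by
    rw [← padicValNat_dvd_iff_le hpos, dK]
    exact hN
  exact goodT_rat hp HR HM hM hT K L hLL hi' (by omega) (by omega)

end H68TK
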