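import Pool.Agent.H68.TK.Df

/-!
ROW Del (an integral generator, and abelian groups; about 130 lines).  PROOF.
`exists_delta3`: `θ` a primitive element of `k/F` (`Field.exists_primitive_element F k`); an integer multiple `δ = n θ`, `n ≠ 0`, is integral (`exists_integral_multiple`/`IsIntegral.exists_multiple_integral_of_isLocalization` over `ℤ`), and
`F(δ) = F(θ)`. For `τ ≠ 1` in `Gal(k/F)`: `τ δ ≠ δ` (otherwise `τ` fixes `F(δ) = k`), `x_τ = τ δ - δ ∈ 𝓞 k` is nonzero and divides the nonzero integer `n_τ = absNorm (span {x_τ})` (`Ideal.absNorm_mem`, see the use in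
`H68QS.layer_lay`). Take `m = ∏_{τ ≠ 1} n_τ`.
`comm_gal`: `L` is generated over `K` by the image of `h` (`hgen`, and `k ⊆ K`), `L'/ℚ` is abelian (`H68IM.Dec_gal` in `Pool/Agent/H68/IM/Dec.lean`, or `IsAbelianGalois.of_algHom` from `hR.2`), `g ∈ Gal(L/K)` maps the image of `L'` to
itself (`L'/ℚ` normal) and the induced automorphisms of `L'` commute. So `g g'` and `g' g` agree on the image of `L'` and on `K`.
`comm_pair`: `g g'` and `g' g` agree on `L` (`L/K` is normal and `Gal(L/K)` is commutative) and on `s` (`g s = ± s`), and `C = L(s)`.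
-/

set_option autoImplicit false

open IsDedekindDomain NumberField H5SW

namespace H68TK

theorem Del_ext {A E : Type} [Field A] [Field E] [Algebra A E] (s : Set E)
    (hs : IntermediateField.adjoin A s = ⊤) (u v : E →+* E)
    (h1 : ∀ r, u (algebraMap A E r) = v (algebraMap A E r)) (h2 : ∀ x ∈ s, u x = v x) :
    ∀ x, u x = v x := by
  intro x
  have hx : x ∈ IntermediateField.adjoin A s := by
    rw [hs]
    exact IntermediateField.mem_top
  induction hx using IntermediateField.adjoin_induction with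
  | mem y hy => exact h2 y hy
  | algebraMap r => exact h1 r
  | add y z _ _ hy hz => rw [map_add, map_add, hy, hz]
  | inv y _ hy => rw [map_inv₀, map_inv₀, hy]
  | mul y z _ _ hy hz => rw [map_mul, map_mul, hy, hz]

theorem exists_delta3 {F k : Type} [Field F] [NumberField F] [Field k] [NumberField k]
    [Algebra F k] : ∃ (δ : 𝓞 k) (m : ℤ), m ≠ 0 ∧ IntermediateField.adjoin F {(δ : k)} = ⊤ ∧
      Dlt F k δ m := by
  classical
  have hfd : FiniteDimensional F k := FiniteDimensional.right ℚ F k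
  obtain ⟨θ, hθ⟩ := Field.exists_primitive_element F k
  have hal : IsAlgebraic ℤ θ := by
    rw [IsFractionRing.isAlgebraic_iff ℤ ℚ k]
    exact Algebra.IsAlgebraic.isAlgebraic θ
  obtain ⟨y, hy0, hy⟩ := hal.exists_integral_multiple
  obtain ⟨δ, hδ⟩ : ∃ δ : 𝓞 k, (δ : k) = y • θ := ⟨⟨y • θ, hy⟩, rfl⟩
  have hyF : (y : F) ≠ 0 := Int.cast_ne_zero.2 hy0
  have hyk : (y : k) ≠ 0 := Int.cast_ne_zero.2 hy0
  have htop : IntermediateField.adjoin F {(δ : k)} = ⊤ := by
    rw [eq_top_iff, ← hθ, IntermediateField.adjoin_le_iff]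
    intro x hx
    rw [Set.mem_singleton_iff] at hx
    have h1 : (δ : k) ∈ IntermediateField.adjoin F {(δ : k)} :=
      IntermediateField.mem_adjoin_simple_self F _
    have h2 : x = ((y : F)⁻¹) • (δ : k) := by
      rw [hδ, hx, zsmul_eq_mul, Algebra.smul_def, map_inv₀, map_intCast, ← mul_assoc,
        inv_mul_cancel₀ hyk, one_mul]
    rw [h2]
    exact (IntermediateField.adjoin F {(δ : k)}).smul_mem h1
  have hne : ∀ τ : k ≃ₐ[F] k, τ ≠ 1 → τ (δ : k) - δ ≠ 0 := by
    intro τ hτ h0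
    apply hτ
    ext x
    have h1 := Del_ext {(δ : k)} htop (τ : k →+* k) (RingHom.id k) (fun r => by simp)
      (fun z hz => by
        rw [Set.mem_singleton_iff] at hz
        rw [hz]
        exact sub_eq_zero.1 h0) x
    exact h1
  have hint : ∀ τ : k ≃ₐ[F] k, IsIntegral ℤ (τ (δ : k) - δ) := by
    intro τ
    exact (map_isIntegral_int τ (RingOfIntegers.isIntegral_coe δ)).sub
      (RingOfIntegers.isIntegral_coe δ)
  obtain ⟨X, hX⟩ : ∃ X : (k ≃ₐ[F] k) → 𝓞 k, ∀ τ, (X τ : k) = τ (δ : k) - δ :=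
    ⟨fun τ => ⟨τ (δ : k) - δ, hint τ⟩, fun τ => rfl⟩
  have hX0 : ∀ τ, τ ≠ 1 → X τ ≠ 0 := by
    intro τ hτ h0
    apply hne τ hτ
    rw [← hX, h0]
    simp
  have hdv : ∀ τ, X τ ∣ ((Ideal.absNorm (Ideal.span {X τ}) : ℕ) : 𝓞 k) := by
    intro τ
    rw [← Ideal.mem_span_singleton]
    exact Ideal.absNorm_mem _
  have hn0 : ∀ τ, τ ≠ 1 → Ideal.absNorm (Ideal.span {X τ}) ≠ 0 := by
    intro τ hτ
    rw [Ne, Ideal.absNorm_eq_zero_iff, Ideal.span_singleton_eq_bot]
    exact hX0 τ hτ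
  have : Fintype (k ≃ₐ[F] k) := Fintype.ofFinite _
  refine ⟨δ, ((∏ τ ∈ Finset.univ.erase (1 : k ≃ₐ[F] k), Ideal.absNorm (Ideal.span {X τ}) : ℕ) : ℤ),
    ?_, htop, ?_⟩
  · rw [Int.natCast_ne_zero, Finset.prod_ne_zero_iff]
    intro τ hτ
    exact hn0 τ (Finset.mem_erase.1 hτ).1
  · intro τ hτ
    have h1 : Ideal.absNorm (Ideal.span {X τ}) ∣
        ∏ τ ∈ Finset.univ.erase (1 : k ≃ₐ[F] k), Ideal.absNorm (Ideal.span {X τ}) :=
      Finset.dvd_prod_of_mem (fun τ : k ≃ₐ[F] k => Ideal.absNorm (Ideal.span {X τ}))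
        (Finset.mem_erase.2 ⟨hτ, Finset.mem_univ _⟩)
    obtain ⟨c, hc⟩ := (hdv τ).trans (Nat.cast_dvd_cast (α := 𝓞 k) h1)
    refine ⟨c, ?_⟩
    rw [← hX]
    have h2 := congrArg (fun z : 𝓞 k => (z : k)) hc
    simp only [map_natCast, map_mul] at h2
    rw [Int.cast_natCast]
    exact h2.symm

theorem comm_gal {k K L L' : Type} [Field k] [NumberField k] [Field K] [NumberField K]
    [Field L] [NumberField L] [Field L'] [NumberField L'] [Algebra k K] [Algebra k L] [Algebra K L]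
    [IsScalarTower k K L] {p : ℕ} [Fact p.Prime] (h : L' →+* L) (hR : IsR p L')
    (hgen : IntermediateField.adjoin k (Set.range h) = ⊤) (g g' : L ≃ₐ[K] L) :
    g * g' = g' * g := by
  have hab : IsAbelianGalois ℚ L' := by
    have hp : p.Prime := Fact.out
    obtain ⟨-, n, ⟨j⟩⟩ := hR
    have hne : NeZero (p ^ (n + 1)) := ⟨pow_ne_zero _ hp.ne_zero⟩
    have hcyc : IsCyclotomicExtension {p ^ (n + 1)} ℚ (CyclotomicField (p ^ (n + 1)) ℚ) :=
      CyclotomicField.isCyclotomicExtension _ _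
    have h1 : IsAbelianGalois ℚ (CyclotomicField (p ^ (n + 1)) ℚ) :=
      IsCyclotomicExtension.isAbelianGalois {p ^ (n + 1)} ℚ _
    exact IsAbelianGalois.of_algHom j.toRatAlgHom
  let _ : Algebra L' L := h.toAlgebra
  have hm : ∀ z, algebraMap L' L z = h z := fun _ => rfl
  have hex : ∀ g : L ≃ₐ[K] L, ∃ σ : L' ≃ₐ[ℚ] L', ∀ z, g (h z) = h (σ z) := by
    intro g
    refine ⟨(g.restrictScalars ℚ).restrictNormal L', fun z => ?_⟩
    have h1 := AlgEquiv.restrictNormal_commutes (g.restrictScalars ℚ) L' z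
    exact h1.symm
  obtain ⟨σ, hσ⟩ := hex g
  obtain ⟨σ', hσ'⟩ := hex g'
  have hc : σ * σ' = σ' * σ := IsMulCommutative.is_comm.comm _ _
  ext x
  refine Del_ext (Set.range h) hgen ((g * g' : L ≃ₐ[K] L) : L →+* L)
    ((g' * g : L ≃ₐ[K] L) : L →+* L) (fun r => ?_) ?_ x
  · rw [IsScalarTower.algebraMap_apply k K L]
    simp
  · rintro _ ⟨z, rfl⟩
    change g (g' (h z)) = g' (g (h z))
    rw [hσ, hσ', hσ, hσ']
    have h1 : σ (σ' z) = (σ * σ') z := rfl
    rw [h1, hc]
    rfl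

theorem comm_pair {K L C : Type} [Field K] [NumberField K] [Field L] [NumberField L] [Field C]
    [NumberField C] [Algebra K L] [Algebra L C] [Algebra K C] [IsScalarTower K L C] [IsGalois K L]
    (hab : ∀ g g' : L ≃ₐ[K] L, g * g' = g' * g) {s : C} (hs : s ^ 2 = -3)
    (hgen : IntermediateField.adjoin L {s} = ⊤) (g g' : C ≃ₐ[K] C) : g * g' = g' * g := by
  have hex : ∀ g : C ≃ₐ[K] C, ∃ σ : L ≃ₐ[K] L, ∀ z, g (algebraMap L C z) = algebraMap L C (σ z) := by
    intro g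
    refine ⟨g.restrictNormal L, fun z => ?_⟩
    exact (AlgEquiv.restrictNormal_commutes g L z).symm
  have hpm : ∀ g : C ≃ₐ[K] C, g s = s ∨ g s = -s := by
    intro g
    rw [← sq_eq_sq_iff_eq_or_eq_neg, ← map_pow, hs, map_neg, map_ofNat]
  obtain ⟨σ, hσ⟩ := hex g
  obtain ⟨σ', hσ'⟩ := hex g'
  have hc : σ * σ' = σ' * σ := hab _ _
  ext x
  refine Del_ext {s} hgen ((g * g' : C ≃ₐ[K] C) : C →+* C)
    ((g' * g : C ≃ₐ[K] C) : C →+* C) (fun r => ?_) ?_ x
  · change g (g' (algebraMap L C r)) = g' (g (algebraMap L C r))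
    rw [hσ, hσ', hσ, hσ']
    have h1 : σ (σ' r) = (σ * σ') r := rfl
    rw [h1, hc]
    rfl
  · intro z hz
    rw [Set.mem_singleton_iff] at hz
    subst hz
    change g (g' z) = g' (g z)
    rcases hpm g with h1 | h1 <;> rcases hpm g' with h2 | h2 <;>
      simp only [h1, h2, map_neg]

end H68TK
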