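import Pool.Agent.H68.TK.Df

/-!
ROW Idx3 (a subfield of index three; about 110 lines).  PROOF.
Copy `Pool/Agent/H68/QS/Idx.lean` (`exists_index_two`, `TwoPower.of_hom`, `TwoPower.finrank`) with `3` for `2`; new: `IsGalois F k`.
Notation of that file: `H ≤ H'` subgroups of `G = F ≃ₐ[ℚ] F`, `Nat.card H = 3 ^ s`, `Nat.card H' = 3 ^ (s+1)`, `E' = fixedField H' ≤ E = fixedField H`. `H` has index three in the `3`-group `H'`, so it is normal in `H'`
(`H.subgroupOf H'` is normal: `Subgroup.normal_of_index_eq_minFac_card`, the smallest prime factor of `3 ^ (s+1)` is `3`; or `IsPGroup` normalizer condition, `Sylow.exists_subgroup_card_pow_succ` gives `H'` inside the normalizer: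
`Sylow.exists_subgroup_card_pow_succ` has only `H ≤ H'`). So `E/E'` is Galois: `F/E'` is Galois with group `H'` (`IsGalois.of_fixedField...`, `IntermediateField.fixingSubgroup_fixedField`), and for `g ∈ H'` and `x ∈ E`:
`g x ∈ E` (as `h (g x) = g (g⁻¹ h g x) = g x` for `h ∈ H`), so all conjugates over `E'` of `x ∈ E` lie in `E`: `E/E'` is normal (`IsGalois.of_fixedField_normal_subgroup` for the Galois extension `F/E'`, or `Normal` by the
minimal polynomials: `minpoly E' x = ∏ (X - conjugates)`, or `Normal` iff every `E'`-embedding `E → F` has image in `E`: such an embedding extends to an element of `Gal(F/E') = H'`). Transport to `k`: `φ : k ≃ E` maps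
`F' = E'.comap φ` onto `E'` (`IsGalois.of_equiv_equiv`-type transport, or do the normality argument directly for `k` and `F'`: for `x ∈ k`, `minpoly F' x` splits in `k`).
-/

set_option autoImplicit false

open IsDedekindDomain NumberField

namespace H68TK

theorem Idx3_gal {F : Type} [Field F] [NumberField F] [IsGalois ℚ F] (E' E : IntermediateField ℚ F)
    (hle : E' ≤ E) {s : ℕ} (h1 : Module.finrank E F = 3 ^ s) (h2 : Module.finrank E' F = 3 ^ (s + 1)) :
    IsGalois E' (IntermediateField.extendScalars hle) := by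
  obtain ⟨E2, hE2⟩ : ∃ E2 : IntermediateField E' F, E2 = IntermediateField.extendScalars hle := ⟨_, rfl⟩
  rw [← hE2]
  have h3 : Module.finrank E2 F = 3 ^ s := by
    rw [hE2, ← h1]
    rfl
  have hgal : IsGalois E' F := inferInstance
  have hc1 : Nat.card E2.fixingSubgroup = 3 ^ s := by
    rw [IsGalois.card_fixingSubgroup_eq_finrank, h3]
  have hc2 : Nat.card (F ≃ₐ[E'] F) = 3 ^ (s + 1) := by
    rw [IsGalois.card_aut_eq_finrank, h2]
  have hidx : E2.fixingSubgroup.index = 3 := by
    have h4 := E2.fixingSubgroup.card_mul_index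
    rw [hc1, hc2, pow_succ] at h4
    exact Nat.eq_of_mul_eq_mul_left (pow_pos (by norm_num) s) h4
  have hn : E2.fixingSubgroup.Normal := by
    apply Subgroup.normal_of_index_eq_minFac_card
    rw [hidx, hc2]
    rw [Nat.Prime.pow_minFac Nat.prime_three (Nat.succ_ne_zero s)]
  have h5 : IsGalois E' (IntermediateField.fixedField E2.fixingSubgroup) :=
    IsGalois.of_fixedField_normal_subgroup _
  rwa [IsGalois.fixedField_fixingSubgroup] at h5

theorem Idx3_trans {k F : Type} [Field k] [NumberField k] [Field F] [NumberField F] (φ : k →ₐ[ℚ] F)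
    (E' : IntermediateField ℚ F) (hle : E' ≤ φ.fieldRange)
    (h : IsGalois E' (IntermediateField.extendScalars hle)) :
    IsGalois (IntermediateField.comap φ E') k := by
  obtain ⟨f0, hf0⟩ : ∃ f0 : (IntermediateField.comap φ E') ≃+* E', ∀ x, ((f0 x : E') : F) = φ (x : k) := by
    refine ⟨RingEquiv.ofBijective
      (⟨⟨⟨fun x => (⟨φ (x : k), x.2⟩ : E'), Subtype.ext (map_one φ)⟩, fun x y => Subtype.ext (map_mul φ _ _)⟩,
        Subtype.ext (map_zero φ), fun x y => Subtype.ext (map_add φ _ _)⟩ :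
        (IntermediateField.comap φ E') →+* E') ⟨?_, ?_⟩, fun x => rfl⟩
    · exact RingHom.injective _
    · intro y
      obtain ⟨x, hx⟩ := AlgHom.mem_fieldRange.1 (hle y.2)
      refine ⟨⟨x, ?_⟩, ?_⟩
      · show φ x ∈ E'
        rw [hx]
        exact y.2
      · apply Subtype.ext
        exact hx
  obtain ⟨g0, hg0⟩ : ∃ g0 : k ≃+* (IntermediateField.extendScalars hle), ∀ x,
      ((g0 x : IntermediateField.extendScalars hle) : F) = φ x := by
    refine ⟨RingEquiv.ofBijective
      (⟨⟨⟨fun x => (⟨φ x, AlgHom.mem_fieldRange.2 ⟨x, rfl⟩⟩ : IntermediateField.extendScalars hle),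
        Subtype.ext (map_one φ)⟩, fun x y => Subtype.ext (map_mul φ _ _)⟩,
        Subtype.ext (map_zero φ), fun x y => Subtype.ext (map_add φ _ _)⟩ :
        k →+* (IntermediateField.extendScalars hle)) ⟨?_, ?_⟩, fun x => rfl⟩
    · exact RingHom.injective _
    · intro y
      obtain ⟨x, hx⟩ := AlgHom.mem_fieldRange.1 y.2
      exact ⟨x, Subtype.ext hx⟩
  refine IsGalois.of_equiv_equiv (F := E') (E := IntermediateField.extendScalars hle)
    (f := f0.symm) (g := g0.symm) ?_
  apply RingHom.ext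
  intro x
  show ((f0.symm x : IntermediateField.comap φ E') : k) =
    g0.symm (algebraMap E' (IntermediateField.extendScalars hle) x)
  rw [RingEquiv.eq_symm_apply]
  apply Subtype.ext
  rw [hg0, ← hf0, RingEquiv.apply_symm_apply]
  rfl

theorem exists_index_three {k : Type} [Field k] [NumberField k] (h : ThreePower k)
    (hk : Module.finrank ℚ k ≠ 1) :
    ∃ F : IntermediateField ℚ k, Module.finrank F k = 3 ∧ IsGalois F k := by
  obtain ⟨F, _, _, hG, ⟨r, hr⟩, ⟨e⟩⟩ := h
  obtain ⟨φ, _⟩ : ∃ φ : k →ₐ[ℚ] F, φ = e.toRatAlgHom := ⟨_, rfl⟩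
  obtain ⟨E, hE⟩ : ∃ E : IntermediateField ℚ F, E = φ.fieldRange := ⟨_, rfl⟩
  have hkE : Module.finrank ℚ k = Module.finrank ℚ E := by
    rw [hE]
    exact LinearEquiv.finrank_eq (AlgHom.equivFieldRange φ).toLinearEquiv
  have hmul : Module.finrank ℚ E * Module.finrank E F = 3 ^ r := by
    rw [Module.finrank_mul_finrank, hr]
  obtain ⟨s, hsr, hs⟩ := (Nat.dvd_prime_pow Nat.prime_three).1 (Dvd.intro_left _ hmul)
  have hs' : s < r := by
    rcases hsr.lt_or_eq with h1 | h1
    · exact h1
    · exfalso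
      apply hk
      rw [hkE]
      rw [hs, h1] at hmul
      exact Nat.eq_of_mul_eq_mul_right (pow_pos (show 0 < 3 by norm_num) r) (by rw [hmul, one_mul])
  have hcard : Nat.card E.fixingSubgroup = 3 ^ s := by
    rw [IsGalois.card_fixingSubgroup_eq_finrank, hs]
  have hcardG : Nat.card (F ≃ₐ[ℚ] F) = 3 ^ r := by
    rw [IsGalois.card_aut_eq_finrank, hr]
  have hfact : Fact (Nat.Prime 3) := ⟨Nat.prime_three⟩
  have hfinG : Finite (F ≃ₐ[ℚ] F) := Nat.finite_of_card_ne_zero (by
    rw [hcardG]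
    exact (pow_pos (by norm_num) r).ne')
  obtain ⟨H', hH', hle⟩ := Sylow.exists_subgroup_card_pow_succ (p := 3) (n := s)
    (G := F ≃ₐ[ℚ] F) (by
      rw [hcardG]
      exact pow_dvd_pow 3 hs') hcard
  obtain ⟨E', hE'⟩ : ∃ E' : IntermediateField ℚ F, E' = IntermediateField.fixedField H' :=
    ⟨_, rfl⟩
  have hfin' : Module.finrank E' F = 3 ^ (s + 1) := by
    rw [hE', IntermediateField.finrank_fixedField_eq_card, hH']
  have hEE : E' ≤ E := by
    rw [hE', ← IsGalois.fixedField_fixingSubgroup E]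
    exact IntermediateField.fixedField_antitone hle
  refine ⟨IntermediateField.comap φ E', ?_, ?_⟩
  · rw [IntermediateField.finrank_comap, ← hE]
    have h2 := IntermediateField.relfinrank_mul_finrank_top hEE
    rw [hs, hfin', pow_succ, mul_comm (3 ^ s)] at h2
    exact Nat.eq_of_mul_eq_mul_right (pow_pos (show 0 < 3 by norm_num) s) h2
  · have h3 := Idx3_gal E' E hEE hs hfin'
    subst hE
    exact Idx3_trans φ E' hEE h3

theorem ThreePower.of_hom {k₁ k : Type} [Field k₁] [NumberField k₁] [Field k] [NumberField k]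
    (h : ThreePower k) (e : k₁ →+* k) : ThreePower k₁ := by
  obtain ⟨F, i1, i2, hG, hr, ⟨e'⟩⟩ := h
  exact ⟨F, i1, i2, hG, hr, ⟨e'.comp e⟩⟩

theorem ThreePower.finrank {k : Type} [Field k] [NumberField k] (h : ThreePower k) :
    ∃ r : ℕ, Module.finrank ℚ k = 3 ^ r := by
  obtain ⟨F, _, _, hG, ⟨r, hr⟩, ⟨e⟩⟩ := h
  obtain ⟨φ, _⟩ : ∃ φ : k →ₐ[ℚ] F, φ = e.toRatAlgHom := ⟨_, rfl⟩
  have hkE : Module.finrank ℚ k = Module.finrank ℚ φ.fieldRange :=
    LinearEquiv.finrank_eq (AlgHom.equivFieldRange φ).toLinearEquiv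
  have hmul : Module.finrank ℚ φ.fieldRange * Module.finrank φ.fieldRange F = 3 ^ r := by
    rw [Module.finrank_mul_finrank, hr]
  obtain ⟨s, _, hs⟩ := (Nat.dvd_prime_pow Nat.prime_three).1 (Dvd.intro _ hmul)
  exact ⟨s, by rw [hkE, hs]⟩

end H68TK
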