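import Pool.Agent.H68.TK.Asm
import Pool.Agent.H68.TK.Base
import Pool.Agent.H68.TK.Idx3
import Pool.Agent.H68.TK.Unr
import Pool.Agent.H68.TK.Dec
import Pool.Agent.H68.TK.Del

/-!
# MP_78d38b: three torsion, towers over a field of three-power type
-/

set_option autoImplicit false
set_option linter.style.haveILetI false
open scoped Classical

open IsDedekindDomain NumberField WithZero Finset Pool.Agent.H10 H5SW H55T3 H68QS H68IM

namespace H68TK

/-- The chain of cubic steps. -/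
theorem chain3 {p k0 : ℕ} [Fact p.Prime] (hp : 5 ≤ p)
    (HR : ∀ {m n : ℕ} {K L M F : Type} [Field K] [NumberField K] [Field L] [NumberField L] [Field M]
      [NumberField M] [Field F] [NumberField F] [Algebra K L] [Algebra M F] [Algebra K M]
      [Algebra L F], k0 ≤ m + 1 → Tw p m n K L M F → NoNewCube K L)
    (HM : ∀ {m n : ℕ} (hmn : m ≤ n) {C : Type} [Field C] [NumberField C]
      [IsCyclotomicExtension {3 * p ^ (n + 1)} ℚ C], k0 ≤ m + 1 → NoNewC p m n hmn C) :
    ∀ (n : ℕ) (k : Type) [Field k] [NumberField k], Module.finrank ℚ k = n → ThreePower k →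
    ∀ M : ℤ, M ≠ 0 → ∃ N : ℕ,
    ∀ (K' L' K L : Type) [Field K'] [NumberField K'] [Field L'] [NumberField L'] [Field K]
      [NumberField K] [Field L] [NumberField L] [Algebra K' L'] [Algebra K L],
      Comp k K' L' K L → IsR p L' → (∃ i : ℕ, Module.finrank K' L' = p ^ i) →
      p ^ N ∣ Module.finrank ℚ K' → IsTotallyReal L → Unr3 L → GoodT M K L := by
  intro n
  induction n using Nat.strong_induction_on with
  | _ n ih =>
    intro k _ _ hn h3p M hM
    by_cases h1 : n = 1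
    · obtain ⟨T, hT⟩ := exists_val_bound (p := p) (D := M.natAbs) (Int.natAbs_ne_zero.mpr hM)
      refine ⟨k0 + T + 1, ?_⟩
      intro K' L' K L _ _ _ _ _ _ _ _ _ _ C hL ⟨i, hi⟩ hN _ _
      exact goodT_base C (hn.trans h1) hp HR HM hM hT hL hi hN
    · obtain ⟨F, hF, hFG⟩ := exists_index_three h3p (by rw [hn]; exact h1)
      obtain ⟨δ, m, hm0, hadj, hd⟩ := exists_delta3 (F := F) (k := k)
      have hlt : Module.finrank ℚ F < n := by
        have h3 := Module.finrank_mul_finrank ℚ F k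
        have h4 : 0 < Module.finrank ℚ F := Module.finrank_pos
        rw [hF, hn] at h3
        omega
      have h3p₁ : ThreePower F := h3p.of_hom F.val.toRingHom
      obtain ⟨N, hN⟩ := ih _ hlt F rfl h3p₁ (m * M) (mul_ne_zero hm0 hM)
      refine ⟨N, ?_⟩
      intro K' L' K L _ _ _ _ _ _ _ _ _ _ C hL hi hKN hreal hunr
      have hMM : M ∣ m * M := dvd_mul_left _ _
      have hmM : m ∣ m * M := dvd_mul_right _ _
      rcases sub_pair' C F (δ : k) hadj with ⟨C₁, hC₁⟩ | ⟨K0, L0, _, _, _, _, _, _, _, _, _, _,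
        C₁, hf, hne, hgK, hgL, hgen⟩
      · exact (hN K' L' K L C₁ hL hi hKN hreal hunr).weaken hMM
      · have G := hN K' L' K0 L0 C₁ hL hi hKN (IsTotallyReal.of_algebra L0 L)
          (unr3_down (L := L) hunr)
        obtain ⟨hG, h3, hd'⟩ := cubic_push (F := F) (k := k) (K0 := K0) (K := K) hF C.f C₁.f
          (fun x => hf x) hne hgK hd
        haveI := hG
        exact goodT_step h3 hgen hreal hunr hd' hMM hmM G

/-- The layers `K ⊆ L = k L'` of the cyclotomic tower over a field `k` of three-power type. -/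
theorem layer3_of {p k0 : ℕ} [Fact p.Prime] (hp : 5 ≤ p)
    (HR : ∀ {m n : ℕ} {K L M F : Type} [Field K] [NumberField K] [Field L] [NumberField L] [Field M]
      [NumberField M] [Field F] [NumberField F] [Algebra K L] [Algebra M F] [Algebra K M]
      [Algebra L F], k0 ≤ m + 1 → Tw p m n K L M F → NoNewCube K L)
    (HM : ∀ {m n : ℕ} (hmn : m ≤ n) {C : Type} [Field C] [NumberField C]
      [IsCyclotomicExtension {3 * p ^ (n + 1)} ℚ C], k0 ≤ m + 1 → NoNewC p m n hmn C)
    {k : Type} [Field k] [NumberField k] (h3p : ThreePower k) (hk : Unr3 k) {D : 𝓞 k}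
    (hD : D ≠ 0) : ∃ N : ℕ,
    ∀ (K L L' : Type) [Field K] [NumberField K] [Field L] [NumberField L] [Field L']
      [NumberField L'] [Algebra k K] [Algebra k L] [Algebra K L] [IsScalarTower k K L]
      (h : L' →+* L), IsR p L' → IntermediateField.adjoin k (Set.range h) = ⊤ →
      (∃ i : ℕ, Module.finrank K L = p ^ i) → p ^ N ∣ Module.finrank ℚ K →
      IsTotallyReal L ∧ IsGalois K L ∧ Odd (Module.finrank K L) ∧ ¬ 3 ∣ Module.finrank K L ∧
      NoNewCube K L ∧
      (∀ (C : Type) [Field C] [NumberField C] [Algebra L C] [Algebra K C] [IsScalarTower K L C]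
        (s : C), s ^ 2 = -3 → IntermediateField.adjoin L {s} = ⊤ →
        NoNewMinus K L C s ∧ IsGalois K C ∧ IsGalois L C ∧
        (∀ g : C ≃ₐ[L] C, g s = s → g = 1) ∧ (∃ g : C ≃ₐ[L] C, g s = -s) ∧
        (∀ g g' : C ≃ₐ[K] C, g * g' = g' * g)) ∧
      (∀ v : HeightOneSpectrum (𝓞 K), algebraMap (𝓞 k) (𝓞 K) D ∈ v.asIdeal →
        UniqueOver K L v.asIdeal) ∧
      (∀ w : HeightOneSpectrum (𝓞 L), (3 : 𝓞 L) ∈ w.asIdeal →
        w.valuation L 3 = exp (-1 : ℤ)) := by
  set nD : ℕ := Ideal.absNorm (Ideal.span {D}) with hnD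
  have hnD0 : (nD : ℤ) ≠ 0 := by
    rw [Ne, Nat.cast_eq_zero, hnD, Ideal.absNorm_eq_zero_iff, Ideal.span_singleton_eq_bot]
    exact hD
  obtain ⟨c, hc⟩ : D ∣ (nD : 𝓞 k) := by
    rw [← Ideal.mem_span_singleton]
    exact Ideal.absNorm_mem _
  obtain ⟨N, hN⟩ := chain3 hp HR HM _ k rfl h3p nD hnD0
  refine ⟨N, ?_⟩
  intro K L L' _ _ _ _ _ _ _ _ _ _ h hR hgen ⟨i, hi⟩ hKN
  have hp3 : p ≠ 3 := by omega
  have hreal : IsTotallyReal L := real_gen h3p.real hR.1 h hgen
  have hunr : Unr3 L := unr3_gen hp3 hk h hR hgen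
  obtain ⟨K', _, _, _, ⟨C, hC⟩, hfr, hdiv⟩ := decompose3 (K := K) hp3 h hR hgen h3p.finrank
  have G := hN K' L' K L C hR ⟨i, by rw [hfr, hi]⟩ (hdiv N hKN) hreal hunr
  haveI := G.gal
  refine ⟨hreal, G.gal, G.odd, G.three, G.RC, ?_, ?_, fun w hw => val_three_of_unram hw (hunr w hw)⟩
  · intro C _ _ _ _ _ s hs hs2
    haveI hG1 : IsGalois K C := galois_s (K := K) (L := L) hs hs2
    exact ⟨G.RM C s hs hs2, hG1, IsGalois.tower_top_of_isGalois K L C, fun g hg => gen_s hs2 g hg,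
      neg_s hs hs2 (no_sqrt hreal), comm_pair (comm_gal (k := k) h hR hgen) hs hs2⟩
  · intro v hv
    apply G.bad v
    rw [Int.cast_natCast]
    have : (nD : 𝓞 K) = algebraMap (𝓞 k) (𝓞 K) D * algebraMap (𝓞 k) (𝓞 K) c := by
      rw [← map_mul, ← hc, map_natCast]
    rw [this]
    exact Ideal.mul_mem_right _ _ hv

end H68TK
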