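import Pool.Agent.H68.IM.Sub
import Pool.Agent.H55.T3.Df3

/-!
# MP_78d38b: three torsion, towers over a field of three-power type, definitions
-/

set_option autoImplicit false

open IsDedekindDomain NumberField WithZero Pool.Agent.H10 H5SW H55T3

namespace H68TK

/-- `k` is contained in a Galois extension of the rationals of three-power degree. -/
def ThreePower (k : Type) [Field k] [NumberField k] : Prop :=
  ∃ (F : Type) (_ : Field F) (_ : NumberField F), IsGalois ℚ F ∧
    (∃ r : ℕ, Module.finrank ℚ F = 3 ^ r) ∧ Nonempty (k →+* F)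

/-- Three is unramified in `k`. -/
def Unr3 (k : Type) [Field k] [NumberField k] : Prop :=
  ∀ w : HeightOneSpectrum (𝓞 k), (3 : 𝓞 k) ∈ w.asIdeal → (3 : 𝓞 k) ∉ w.asIdeal ^ 2

/-- The properties of a layer which are needed in the descent. -/
structure GoodT (M : ℤ) (K L : Type) [Field K] [NumberField K] [Field L] [NumberField L]
    [Algebra K L] : Prop where
  gal : IsGalois K L
  odd : Odd (Module.finrank K L)
  three : ¬ 3 ∣ Module.finrank K L
  RC : NoNewCube K L
  RM : ∀ (C : Type) [Field C] [NumberField C] [Algebra L C] [Algebra K C] [IsScalarTower K L C]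
    (s : C), s ^ 2 = -3 → IntermediateField.adjoin L {s} = ⊤ → NoNewMinus K L C s
  bad : ∀ v : HeightOneSpectrum (𝓞 K), (M : 𝓞 K) ∈ v.asIdeal → UniqueOver K L v.asIdeal

/-- The element `δ` of `K2` and the integer `m`: `m` is divisible by the differences `τ δ - δ`. -/
def Dlt (K K2 : Type) [Field K] [Field K2] [Algebra K K2] (δ : 𝓞 K2) (m : ℤ) : Prop :=
  ∀ τ : K2 ≃ₐ[K] K2, τ ≠ 1 → ∃ c : 𝓞 K2, (τ (δ : K2) - (δ : K2)) * (c : K2) = (m : K2)

end H68TK
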