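import Pool.Agent.H68.TK.Df

/-!
ROW Loc (the local condition at three descends through an extension in which three is unramified; about 140 lines).  PROOF.
Compare `exists_sqrt_mod` and `descend_two` in `Pool/Agent/H68/QS/Val.lean`, same structure.
(0) `val_three_of_unram`: as `Pool.Agent.H10.val_two_of_unram`, or the end of `Pool/Agent/H55/T3/Un.lean`.
(1) `e(W/w) = 1` (`HeightOneSpectrum.valuation_liesOver` for the element `3`: `exp (-1) = (w 3) ^ e`), so `W (algebraMap x) = w x` for `x : L`, and `w 3 = exp (-1)`, `W 9 = exp (-2)`.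
(2) `3 ∣ log (w y)`: choose `r₀ : L` with `w (y r₀^3) = 1` (`w.valuation_surjective`). Put `u = y r₀^3`, a unit at `w`.
(3) The residue field of `w` is finite of characteristic three, so cubing is bijective on it: there is `r₁ : L`, `w r₁ = 1`, with `w (u r₁^3 - 1) < 1` (cube root of `1/u` modulo `w`; `frobenius` is bijective, `bijective_frobenius`, `PerfectRing`),
so `W (u r₁^3 - 1) ≤ exp (-1)`. Put `r = r₀ r₁`.
(4) Let `W (y t^3 - 1) ≤ W 9`, so `W (y t^3) = 1`; with `q = t / r`: `y t^3 = (y r^3) q^3`, so `W q = 1` and `W (q^3 - 1) ≤ exp (-1)`. As `(q - 1)^3 = q^3 - 1 - 3 (q^2 - q)`, `W ((q-1)^3) ≤ exp (-1)`, so `W (q - 1) < 1`,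
`W (q - 1) ≤ exp (-1)`, and `q^3 - 1 = (q-1)^3 + 3 (q - 1) q` has `W (q^3 - 1) ≤ exp (-2) = W 9`. So `W (y r^3 - 1)`: `y r^3 - 1 = (y t^3 - 1) + y r^3 (1 - q^3)`, `W ≤ W 9`. As `y r^3 - 1 ∈ L`: `w (y r^3 - 1) ≤ w 9`.
-/

set_option autoImplicit false
set_option linter.style.haveILetI false

open IsDedekindDomain NumberField WithZero Pool.Agent.H10

namespace H68TK

theorem val_three_of_unram {L : Type} [Field L] [NumberField L] {w : HeightOneSpectrum (𝓞 L)}
    (h : (3 : 𝓞 L) ∈ w.asIdeal) (h' : (3 : 𝓞 L) ∉ w.asIdeal ^ 2) :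
    w.valuation L 3 = exp (-1 : ℤ) := by
  have e2 : algebraMap (𝓞 L) L 3 = 3 := map_ofNat (algebraMap (𝓞 L) L) 3
  rw [← e2, w.valuation_of_algebraMap]
  apply le_antisymm
  · have h1 := (w.intValuation_le_pow_iff_mem 3 1).mpr (by rw [pow_one]; exact h)
    exact_mod_cast h1
  · have h1 := mt (w.intValuation_le_pow_iff_mem 3 2).mp h'
    rw [not_le] at h1
    have h0 : w.intValuation (3 : 𝓞 L) ≠ 0 := fun h0 => by
      rw [h0] at h1
      exact absurd h1 not_lt_zero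
    rw [← exp_log h0, exp_lt_exp] at h1
    rw [← exp_log h0, exp_le_exp]
    push_cast at h1
    omega

/-- Cube roots modulo a prime above three. -/
theorem Loc_cbrt {L : Type} [Field L] [NumberField L] {w : HeightOneSpectrum (𝓞 L)}
    (h3 : (3 : 𝓞 L) ∈ w.asIdeal) {u : L} (hu : w.valuation L u = 1) :
    ∃ m : L, w.valuation L m = 1 ∧ w.valuation L (u * m ^ 3 - 1) < 1 := by
  obtain ⟨n, ⟨d, hd⟩, hnd⟩ := HeightOneSpectrum.exists_primeCompl_mul_eq_of_integer w u hu.le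
  change d ∉ w.asIdeal at hd
  change u * algebraMap (𝓞 L) L d = algebraMap (𝓞 L) L n at hnd
  have hd1 : w.valuation L (algebraMap (𝓞 L) L d) = 1 :=
    (w.valuation_eq_one_iff_notMem (K := L)).mpr hd
  have hn1 : w.valuation L (algebraMap (𝓞 L) L n) = 1 := by
    rw [← hnd, map_mul, hu, hd1, one_mul]
  have hn : n ∉ w.asIdeal := (w.valuation_eq_one_iff_notMem (K := L)).mp hn1
  have hmax : w.asIdeal.IsMaximal := w.isMaximal
  letI : Field (𝓞 L ⧸ w.asIdeal) := Ideal.Quotient.field _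
  haveI : Finite (𝓞 L ⧸ w.asIdeal) := Ideal.finiteQuotientOfFreeOfNeBot _ w.ne_bot
  haveI : Fact (Nat.Prime 3) := ⟨Nat.prime_three⟩
  haveI : CharP (𝓞 L ⧸ w.asIdeal) 3 := by
    have h4 : ((3 : ℕ) : 𝓞 L ⧸ w.asIdeal) = 0 := by
      have := (Ideal.Quotient.eq_zero_iff_mem (I := w.asIdeal)).mpr h3
      rw [map_ofNat] at this
      exact_mod_cast this
    exact (CharP.charP_iff_prime_eq_zero Nat.prime_three).mpr h4
  have hsurj : Function.Surjective (frobenius (𝓞 L ⧸ w.asIdeal) 3) :=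
    Finite.injective_iff_surjective.1 (frobenius (𝓞 L ⧸ w.asIdeal) 3).injective
  obtain ⟨r, hr⟩ := hsurj (Ideal.Quotient.mk w.asIdeal d / Ideal.Quotient.mk w.asIdeal n)
  rw [frobenius_def] at hr
  obtain ⟨m, rfl⟩ := Ideal.Quotient.mk_surjective r
  have hn0 : Ideal.Quotient.mk w.asIdeal n ≠ 0 := by
    rw [Ne, Ideal.Quotient.eq_zero_iff_mem]; exact hn
  have hd0 : Ideal.Quotient.mk w.asIdeal d ≠ 0 := by
    rw [Ne, Ideal.Quotient.eq_zero_iff_mem]; exact hd
  have hm : m ∉ w.asIdeal := by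
    intro h0
    rw [← Ideal.Quotient.eq_zero_iff_mem] at h0
    rw [h0, zero_pow (by norm_num)] at hr
    exact div_ne_zero hd0 hn0 hr.symm
  have h4 : n * m ^ 3 - d ∈ w.asIdeal := by
    rw [← Ideal.Quotient.eq_zero_iff_mem, map_sub, map_mul, map_pow, hr,
      mul_div_cancel₀ _ hn0, sub_self]
  have h5 : w.valuation L (algebraMap (𝓞 L) L (n * m ^ 3 - d)) < 1 :=
    (w.valuation_lt_one_iff_mem _).mpr h4
  refine ⟨algebraMap (𝓞 L) L m, (w.valuation_eq_one_iff_notMem (K := L)).mpr hm, ?_⟩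
  have e : algebraMap (𝓞 L) L (n * m ^ 3 - d) =
      (u * (algebraMap (𝓞 L) L m) ^ 3 - 1) * algebraMap (𝓞 L) L d := by
    rw [map_sub, map_mul, map_pow, ← hnd]; ring
  rw [e, map_mul, hd1, mul_one] at h5
  exact h5

theorem descend_three {L L2 : Type} [Field L] [NumberField L] [Field L2] [NumberField L2]
    [Algebra L L2] {w : HeightOneSpectrum (𝓞 L)} {W : HeightOneSpectrum (𝓞 L2)}
    [W.asIdeal.LiesOver w.asIdeal] (h3 : W.valuation L2 3 = exp (-1 : ℤ)) {y : L} (hy : y ≠ 0)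
    (hl : (3 : ℤ) ∣ log (w.valuation L y))
    (h : ∃ t : L2, W.valuation L2 (algebraMap L L2 y * t ^ 3 - 1) ≤ W.valuation L2 9) :
    ∃ t : L, w.valuation L (y * t ^ 3 - 1) ≤ w.valuation L 9 := by
  obtain ⟨t, h⟩ := h
  set V := W.valuation L2 with hV
  -- the ramification index is one
  have e3 : algebraMap L L2 3 = 3 := map_ofNat _ 3
  have he : w.asIdeal.ramificationIdx' W.asIdeal = 1 := by
    have h1 := HeightOneSpectrum.valuation_liesOver (K := L) L2 w W (3 : L)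
    rw [e3, h3] at h1
    have h3 := congrArg log h1
    rw [log_pow, log_exp, nsmul_eq_mul] at h3
    have h4 : ((w.asIdeal.ramificationIdx' W.asIdeal : ℕ) : ℤ) ∣ 1 := by
      rw [← dvd_neg]
      exact ⟨_, h3.symm⟩
    have h5 := Int.natCast_dvd_natCast.mp (by exact_mod_cast h4 : ((w.asIdeal.ramificationIdx' W.asIdeal : ℕ) : ℤ) ∣ ((1 : ℕ) : ℤ))
    exact Nat.dvd_one.mp h5
  have hVv : ∀ x : L, V (algebraMap L L2 x) = w.valuation L x := by
    intro x
    rw [hV, ← HeightOneSpectrum.valuation_liesOver (K := L) L2 w W, he, pow_one]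
  have hv3 : w.valuation L 3 = exp (-1 : ℤ) := by
    rw [← hVv, e3, h3]
  have h3mem : (3 : 𝓞 L) ∈ w.asIdeal := by
    have h3 : w.valuation L (algebraMap (𝓞 L) L 3) < 1 := by
      have e : algebraMap (𝓞 L) L 3 = 3 := map_ofNat _ 3
      rw [e, hv3, ← exp_zero, exp_lt_exp]; norm_num
    exact (w.valuation_lt_one_iff_mem _).mp h3
  have hV9 : V 9 = exp (-1 : ℤ) * exp (-1 : ℤ) := by
    have : (9 : L2) = 3 * 3 := by norm_num
    rw [this, map_mul, h3]
  obtain ⟨k, hk⟩ := hl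
  obtain ⟨t₀, ht₀⟩ := w.valuation_surjective L (exp (-k))
  have ht₀0 : t₀ ≠ 0 := by
    rintro rfl
    rw [map_zero] at ht₀
    exact exp_ne_zero ht₀.symm
  have vy := (Valuation.ne_zero_iff (w.valuation L)).mpr hy
  have hu : w.valuation L (y * t₀ ^ 3) = 1 := by
    rw [map_mul, map_pow, ht₀, ← exp_log vy, hk, pow_succ, pow_two, ← exp_add, ← exp_add,
      ← exp_add, ← exp_zero]
    congr 1
    ring
  obtain ⟨m₀, hm₀, hum⟩ := Loc_cbrt h3mem hu
  have hm₀0 : m₀ ≠ 0 := by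
    rintro rfl
    rw [map_zero] at hm₀
    exact zero_ne_one hm₀
  -- values below one are at most the value of three
  have hstep : ∀ x : L2, V x < 1 → V x ≤ exp (-1 : ℤ) := by
    intro x hx
    by_cases hx0 : x = 0
    · rw [hx0, map_zero]; exact zero_le
    · have vx := (Valuation.ne_zero_iff V).mpr hx0
      rw [← exp_log vx] at hx ⊢
      rw [← exp_zero, exp_lt_exp] at hx
      rw [exp_le_exp]
      omega
  have hlt1 : exp (-1 : ℤ) < (1 : WithZero (Multiplicative ℤ)) := by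
    rw [← exp_zero, exp_lt_exp]; norm_num
  have hle9 : exp (-1 : ℤ) * exp (-1 : ℤ) ≤ (exp (-1 : ℤ) : WithZero (Multiplicative ℤ)) := by
    calc exp (-1 : ℤ) * exp (-1 : ℤ) ≤ exp (-1 : ℤ) * 1 := mul_le_mul_right hlt1.le _
      _ = _ := mul_one _
  have h91 : V 9 < 1 := by
    rw [hV9]
    exact hle9.trans_lt hlt1
  set y' := algebraMap L L2 y with hy'
  set r : L := t₀ * m₀ with hrdef
  have hr0 : r ≠ 0 := mul_ne_zero ht₀0 hm₀0
  set r' := algebraMap L L2 r with hr'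
  have hr'0 : r' ≠ 0 := by rw [hr', Ne, map_eq_zero]; exact hr0
  have hyr : y * r ^ 3 - 1 = y * t₀ ^ 3 * m₀ ^ 3 - 1 := by rw [hrdef]; ring
  have hyr1 : V (y' * r' ^ 3 - 1) < 1 := by
    have e : y' * r' ^ 3 - 1 = algebraMap L L2 (y * r ^ 3 - 1) := by
      rw [map_sub, map_mul, map_pow, map_one]
    rw [e, hVv, hyr]
    exact hum
  have hyrV : V (y' * r' ^ 3) = 1 := by
    have e : y' * r' ^ 3 = (y' * r' ^ 3 - 1) + 1 := by ring
    rw [e, Valuation.map_add_eq_of_lt_right, map_one]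
    rw [map_one]
    exact hyr1
  have hyrL := hstep _ hyr1
  have hytV : V (y' * t ^ 3) = 1 := by
    have e : y' * t ^ 3 = (y' * t ^ 3 - 1) + 1 := by ring
    rw [e, Valuation.map_add_eq_of_lt_right, map_one]
    rw [map_one]
    exact h.trans_lt h91
  set q := t / r' with hq
  have hyt : y' * t ^ 3 = y' * r' ^ 3 * q ^ 3 := by
    rw [hq]
    field_simp
  have hVq : V q = 1 := by
    rw [hyt, map_mul, hyrV, one_mul, map_pow] at hytV
    exact (pow_eq_one_iff_of_nonneg (zero_le) three_ne_zero).mp hytV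
  have h9L : V 9 ≤ exp (-1 : ℤ) := hstep _ h91
  have hq3 : V (q ^ 3 - 1) ≤ exp (-1 : ℤ) := by
    have e : y' * r' ^ 3 * (q ^ 3 - 1) = (y' * t ^ 3 - 1) - (y' * r' ^ 3 - 1) := by
      rw [hyt]
      ring
    have e1 : V (q ^ 3 - 1) = V (y' * r' ^ 3 * (q ^ 3 - 1)) := by
      rw [map_mul, hyrV, one_mul]
    rw [e1, e]
    exact (Valuation.map_sub _ _ _).trans (max_le (h.trans h9L) hyrL)
  have hq1' : V (q - 1) ≤ 1 :=
    (Valuation.map_sub _ _ _).trans (max_le hVq.le (by rw [map_one]))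
  have hq13 : V ((q - 1) ^ 3) ≤ exp (-1 : ℤ) := by
    have e : (q - 1) ^ 3 = (q ^ 3 - 1) - 3 * (q * (q - 1)) := by ring
    rw [e]
    refine (Valuation.map_sub _ _ _).trans (max_le hq3 ?_)
    rw [map_mul, map_mul, h3, hVq, one_mul]
    calc exp (-1 : ℤ) * V (q - 1) ≤ exp (-1 : ℤ) * 1 := mul_le_mul_right hq1' _
      _ = _ := mul_one _
  have hq1 : V (q - 1) ≤ exp (-1 : ℤ) := by
    apply hstep
    by_contra hcon
    have h1 : V (q - 1) = 1 := le_antisymm hq1' (not_lt.mp hcon)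
    rw [map_pow, h1, one_pow] at hq13
    exact absurd hq13 (not_le.mpr hlt1)
  have hq39 : V (q ^ 3 - 1) ≤ V 9 := by
    have e : q ^ 3 - 1 = (q - 1) * ((q - 1) * (q - 1)) + 3 * ((q - 1) * q) := by ring
    rw [e, hV9]
    refine (Valuation.map_add _ _ _).trans (max_le ?_ ?_)
    · rw [map_mul, map_mul]
      exact mul_le_mul' hq1 ((mul_le_mul' hq1 hq1).trans hle9)
    · rw [map_mul, map_mul, h3, hVq, mul_one]
      exact mul_le_mul' le_rfl hq1
  have hfin : V (y' * r' ^ 3 - 1) ≤ V 9 := by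
    have e : y' * r' ^ 3 - 1 = (y' * t ^ 3 - 1) - y' * r' ^ 3 * (q ^ 3 - 1) := by
      rw [hyt]
      ring
    rw [e]
    refine (Valuation.map_sub _ _ _).trans (max_le h ?_)
    rw [map_mul, hyrV, one_mul]
    exact hq39
  refine ⟨r, ?_⟩
  have e9 : algebraMap L L2 9 = 9 := map_ofNat _ 9
  rw [← hVv, ← hVv, e9, map_sub, map_mul, map_pow, map_one]
  exact hfin

end H68TK
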