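import Pool.Agent.H68.TK.Df
import Pool.Agent.H68.QS.Gal

/-!
ROW GalC (cubic extensions in diagrams; about 150 lines).  PROOF.
Use `H68QS.galois_up` (`Pool/Agent/H68/QS/Gal.lean`) and `H68IM.gen_mem`, `H68IM.adj_top` (`Pool/Agent/H68/IM/Sub.lean`).
`gen_symm`: both sides say that a subfield of `M2` which contains the images of `K2` and of `M` is everything.
`cubic_up`: `gen_symm`; `M2/M` is Galois by `galois_up` (with `K, L, K2, L2` there = `K, K2, M, M2` here). Restriction `Gal(M2/M) → Gal(K2/K)` (`AlgEquiv.restrictNormalHom` after restriction of scalars) is injective by `gen_symm`,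
so `[M2 : M]` divides `3` (`Subgroup.card_dvd_of_injective`, `IsGalois.card_aut_eq_finrank`). `[M2 : M] [M : K] = [M2 : K2] * 3`, so `3 ∣ [M2 : M]` as `3 ∤ [M : K]`. So `[M2 : M] = 3` and `[M2 : K2] = [M : K]`.
`cubic_push`: make `K0`, `K` algebras over `F` and `k` by `f0`, `f` and the composites (`RingHom.toAlgebra`); `galois_up` for `F ⊆ k`, `K0 ⊆ K` gives `K/K0` Galois (`adjoin K0 (range f) = ⊤` as it contains `f δ`, `hgK`). Restriction
`ρ : Gal(K/K0) → Gal(k/F)`, `f (ρ τ x) = τ (f x)`, is injective (`hgK`: `τ` is determined by `τ (f δ) = f (ρ τ δ)`), so `[K : K0]` divides `3`, and it is not one by `hne`. `Dlt`: `τ ≠ 1`, so `ρ τ ≠ 1`, and `c` for `ρ τ` is mapped to `𝓞 K`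
by `RingOfIntegers.mapRingHom f`.
-/

set_option autoImplicit false

open IsDedekindDomain NumberField H68QS H68IM

namespace H68TK

theorem gen_symm {K M K2 M2 : Type} [Field K] [Field M] [Field K2] [Field M2]
    [Algebra K M] [Algebra K K2] [Algebra K M2] [Algebra M M2] [Algebra K2 M2]
    [IsScalarTower K M M2] [IsScalarTower K K2 M2]
    (hgen : IntermediateField.adjoin K2 (Set.range (algebraMap M M2)) = ⊤) :
    IntermediateField.adjoin M (Set.range (algebraMap K2 M2)) = ⊤ := by
  refine adj_top fun N hB hM x => ?_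
  exact gen_mem hgen N (fun b => hM ⟨b, rfl⟩) (by rintro _ ⟨m, rfl⟩; exact hB m) x

/-- The subfield of fixed elements. -/
private def GalC_fix {F : Type} [Field F] (τ : F →+* F) : Subfield F := τ.eqLocusField (RingHom.id F)

private theorem GalC_mem {F : Type} [Field F] (τ : F →+* F) (x : F) : x ∈ GalC_fix τ ↔ τ x = x :=
  Iff.rfl

private theorem GalC_rho {K M K2 M2 : Type} [Field K] [Field M] [Field K2] [Field M2]
    [Algebra K M] [Algebra K K2] [Algebra K M2] [Algebra M M2] [Algebra K2 M2]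
    [IsScalarTower K M M2] [IsScalarTower K K2 M2] [Normal K K2]
    (hgen : IntermediateField.adjoin M (Set.range (algebraMap K2 M2)) = ⊤) :
    ∃ ρ : (M2 ≃ₐ[M] M2) →* (K2 ≃ₐ[K] K2), Function.Injective ρ ∧
      ∀ τ x, algebraMap K2 M2 (ρ τ x) = τ (algebraMap K2 M2 x) := by
  let ρ : (M2 ≃ₐ[M] M2) →* (K2 ≃ₐ[K] K2) :=
    (AlgEquiv.restrictNormalHom K2).comp (AlgEquiv.restrictScalarsHom K)
  have hc : ∀ τ x, algebraMap K2 M2 (ρ τ x) = τ (algebraMap K2 M2 x) := fun τ x =>
    AlgEquiv.restrictNormal_commutes (τ.restrictScalars K) K2 x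
  refine ⟨ρ, ?_, hc⟩
  rw [injective_iff_map_eq_one]
  intro τ hτ
  have h1 : ∀ x, x ∈ GalC_fix (τ : M2 →+* M2) := by
    refine gen_mem hgen _ (fun b => ?_) ?_
    · exact τ.commutes b
    · rintro _ ⟨x, rfl⟩
      have h2 := hc τ x
      rw [hτ] at h2
      exact h2.symm
  ext x
  exact h1 x

theorem cubic_up {K M K2 M2 : Type} [Field K] [NumberField K] [Field M] [NumberField M]
    [Field K2] [NumberField K2] [Field M2] [NumberField M2]
    [Algebra K M] [Algebra K K2] [Algebra K M2] [Algebra M M2] [Algebra K2 M2]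
    [IsScalarTower K M M2] [IsScalarTower K K2 M2] [IsGalois K K2]
    (h3 : Module.finrank K K2 = 3) (h : ¬ 3 ∣ Module.finrank K M)
    (hgen : IntermediateField.adjoin K2 (Set.range (algebraMap M M2)) = ⊤) :
    IsGalois M M2 ∧ Module.finrank M M2 = 3 ∧ Module.finrank K2 M2 = Module.finrank K M := by
  have hg := gen_symm (K := K) hgen
  have hG : IsGalois M M2 := galois_up (K := K) (L := K2) (K2 := M) (L2 := M2) hg
  have f1 : FiniteDimensional K K2 := Module.Finite.of_restrictScalars_finite ℚ K K2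
  have f2 : FiniteDimensional M M2 := Module.Finite.of_restrictScalars_finite ℚ M M2
  have f3 : FiniteDimensional K M := Module.Finite.of_restrictScalars_finite ℚ K M
  have f4 : FiniteDimensional K2 M2 := Module.Finite.of_restrictScalars_finite ℚ K2 M2
  obtain ⟨ρ, hρ, -⟩ := GalC_rho (K := K) (M := M) (K2 := K2) (M2 := M2) hg
  have hd : Module.finrank M M2 ∣ 3 := by
    have h1 := Subgroup.card_dvd_of_injective ρ hρ
    rw [IsGalois.card_aut_eq_finrank, IsGalois.card_aut_eq_finrank, h3] at h1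
    exact h1
  have ht : Module.finrank K M * Module.finrank M M2 = 3 * Module.finrank K2 M2 := by
    rw [Module.finrank_mul_finrank, ← h3, Module.finrank_mul_finrank]
  have h4 : 3 ∣ Module.finrank M M2 := by
    have h5 : 3 ∣ Module.finrank K M * Module.finrank M M2 := ⟨_, ht⟩
    exact (Nat.prime_three.dvd_mul.1 h5).resolve_left h
  have h6 : Module.finrank M M2 = 3 := Nat.dvd_antisymm hd h4
  refine ⟨hG, h6, ?_⟩
  rw [h6] at ht
  omega

theorem cubic_push {F k K0 K : Type} [Field F] [NumberField F] [Field k] [NumberField k]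
    [Field K0] [NumberField K0] [Field K] [NumberField K] [Algebra F k] [Algebra K0 K]
    [IsGalois F k] (h3 : Module.finrank F k = 3) (f : k →+* K) (f0 : F →+* K0)
    (hf : ∀ x, algebraMap K0 K (f0 x) = f (algebraMap F k x)) {δ : 𝓞 k}
    (hne : ∀ r : K0, algebraMap K0 K r ≠ f (δ : k))
    (hgK : IntermediateField.adjoin K0 {f (δ : k)} = ⊤) {m : ℤ} (hd : Dlt F k δ m) :
    IsGalois K0 K ∧ Module.finrank K0 K = 3 ∧ Dlt K0 K (RingOfIntegers.mapRingHom f δ) m := by
  let a1 : Algebra F K0 := f0.toAlgebra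
  let a2 : Algebra k K := f.toAlgebra
  let a3 : Algebra F K := (f.comp (algebraMap F k)).toAlgebra
  have t1 : IsScalarTower F k K := IsScalarTower.of_algebraMap_eq (fun x => rfl)
  have t2 : IsScalarTower F K0 K := IsScalarTower.of_algebraMap_eq (fun x => (hf x).symm)
  have hg : IntermediateField.adjoin K0 (Set.range (algebraMap k K)) = ⊤ := by
    rw [eq_top_iff, ← hgK, IntermediateField.adjoin_le_iff]
    rintro _ rfl
    exact IntermediateField.subset_adjoin _ _ ⟨(δ : k), rfl⟩
  have hG : IsGalois K0 K := galois_up (K := F) (L := k) (K2 := K0) (L2 := K) hg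
  have f1 : FiniteDimensional F k := Module.Finite.of_restrictScalars_finite ℚ F k
  have f2 : FiniteDimensional K0 K := Module.Finite.of_restrictScalars_finite ℚ K0 K
  obtain ⟨ρ, hρ, hc⟩ := GalC_rho (K := F) (M := K0) (K2 := k) (M2 := K) hg
  have hdv : Module.finrank K0 K ∣ 3 := by
    have h1 := Subgroup.card_dvd_of_injective ρ hρ
    rw [IsGalois.card_aut_eq_finrank, IsGalois.card_aut_eq_finrank, h3] at h1
    exact h1
  have hn1 : Module.finrank K0 K ≠ 1 := by
    intro h1
    have h2 : (⊥ : Subalgebra K0 K) = ⊤ := Subalgebra.bot_eq_top_iff_finrank_eq_one.2 h1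
    have h4 : f (δ : k) ∈ (⊥ : Subalgebra K0 K) := by
      rw [h2]
      exact Algebra.mem_top
    obtain ⟨r, hr⟩ := Algebra.mem_bot.1 h4
    exact hne r hr
  refine ⟨hG, ?_, ?_⟩
  · rcases (Nat.dvd_prime Nat.prime_three).1 hdv with h1 | h1
    · exact absurd h1 hn1
    · exact h1
  · intro τ hτ
    have h1 : ρ τ ≠ 1 := by
      intro h2
      exact hτ (hρ (by rw [h2, map_one]))
    obtain ⟨c, hcc⟩ := hd (ρ τ) h1
    refine ⟨RingOfIntegers.mapRingHom f c, ?_⟩
    have h5 := congrArg f hcc
    rw [map_mul, map_sub, map_intCast] at h5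
    have h6 : f (ρ τ (δ : k)) = τ (f (δ : k)) := hc τ (δ : k)
    rw [h6] at h5
    exact h5

end H68TK
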