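import Pool.Agent.H68.TK.Df

/-!
ROW UniC (primes with a unique prime above them, cubic step; about 70 lines).  PROOF.
Copy `Pool/Agent/H68/QS/Uni.lean` (`unique_quad`): there the number of primes of `L2` over `v2` is odd and at most two; here it divides `[L2 : K2]`, so it is odd and not divisible by three, and it is at most `[L2 : L] = 3`
(it is at most the number of primes of `L2` over a prime `w` of `L`, which divides `3`): so it is one.
-/

set_option autoImplicit false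

open IsDedekindDomain NumberField Pool.Agent.H10

namespace H68TK

theorem unique_cubic {K L K2 L2 : Type} [Field K] [NumberField K] [Field L] [NumberField L]
    [Field K2] [NumberField K2] [Field L2] [NumberField L2]
    [Algebra K L] [Algebra K K2] [Algebra K L2] [Algebra L L2] [Algebra K2 L2]
    [IsScalarTower K L L2] [IsScalarTower K K2 L2]
    [IsGalois L L2] (h3 : Module.finrank L L2 = 3) [IsGalois K2 L2]
    (hodd : Odd (Module.finrank K2 L2)) (hn3 : ¬ 3 ∣ Module.finrank K2 L2)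
    {v : HeightOneSpectrum (𝓞 K)} {v2 : HeightOneSpectrum (𝓞 K2)}
    (hv : v.asIdeal.map (algebraMap (𝓞 K) (𝓞 K2)) ≤ v2.asIdeal)
    (hu : UniqueOver K L v.asIdeal) : UniqueOver K2 L2 v2.asIdeal := by
  intro P Q hP hQ hPv hQv
  have lies : ∀ P : Ideal (𝓞 L2), P.IsPrime →
      v2.asIdeal.map (algebraMap (𝓞 K2) (𝓞 L2)) ≤ P → P.LiesOver v2.asIdeal := by
    intro P hP h
    have h1 : v2.asIdeal ≤ P.under (𝓞 K2) := Ideal.map_le_iff_le_comap.1 h
    exact ⟨v2.isMaximal.eq_of_le (Ideal.IsPrime.ne_top inferInstance) h1⟩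
  have hPl := lies P hP hPv
  have hQl := lies Q hQ hQv
  have hw : ∀ P : Ideal (𝓞 L2), P.LiesOver v2.asIdeal →
      v.asIdeal.map (algebraMap (𝓞 K) (𝓞 L)) ≤ P.under (𝓞 L) := by
    intro P h
    rw [Ideal.map_le_iff_le_comap]
    intro x hx
    show algebraMap (𝓞 L) (𝓞 L2) (algebraMap (𝓞 K) (𝓞 L) x) ∈ P
    have e : algebraMap (𝓞 L) (𝓞 L2) (algebraMap (𝓞 K) (𝓞 L) x) =
        algebraMap (𝓞 K2) (𝓞 L2) (algebraMap (𝓞 K) (𝓞 K2) x) := by
      rw [← IsScalarTower.algebraMap_apply, ← IsScalarTower.algebraMap_apply]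
    rw [e]
    have h2 : algebraMap (𝓞 K) (𝓞 K2) x ∈ v2.asIdeal := hv (Ideal.mem_map_of_mem _ hx)
    rw [h.over] at h2
    exact h2
  have hsub : v2.asIdeal.primesOver (𝓞 L2) ⊆ (P.under (𝓞 L)).primesOver (𝓞 L2) := by
    rintro R ⟨hR, hRl⟩
    refine ⟨hR, ⟨?_⟩⟩
    exact hu _ _ inferInstance inferInstance (hw P hPl) (hw R hRl)
  have hfin : ((P.under (𝓞 L)).primesOver (𝓞 L2)).Finite := by
    have h3 := (Algebra.QuasiFinite.finite_primesOver (S := 𝓞 L2) (P.under (𝓞 L)))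
    exact h3
  have h2 : ((P.under (𝓞 L)).primesOver (𝓞 L2)).ncard ≤ 3 := by
    have h4 := Ideal.ncard_primesOver_mul_ramificationIdxIn_mul_inertiaDegIn (P.under (𝓞 L))
      (𝓞 L2) (L2 ≃ₐ[L] L2)
    rw [IsGalois.card_aut_eq_finrank, h3] at h4
    exact Nat.le_of_dvd three_pos (Dvd.intro _ h4)
  have h1 : Odd ((v2.asIdeal).primesOver (𝓞 L2)).ncard ∧
      ¬ 3 ∣ ((v2.asIdeal).primesOver (𝓞 L2)).ncard := by
    have h4 := Ideal.ncard_primesOver_mul_ramificationIdxIn_mul_inertiaDegIn v2.asIdeal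
      (𝓞 L2) (L2 ≃ₐ[K2] L2)
    rw [IsGalois.card_aut_eq_finrank] at h4
    rw [← h4] at hodd hn3
    exact ⟨(Nat.odd_mul.1 hodd).1, fun h => hn3 (h.mul_right _)⟩
  have h5 : (v2.asIdeal.primesOver (𝓞 L2)).ncard ≤ 3 :=
    (Set.ncard_le_ncard hsub hfin).trans h2
  have h4 : (v2.asIdeal.primesOver (𝓞 L2)).ncard = 1 := by
    obtain ⟨⟨m, hm⟩, h6⟩ := h1
    omega
  obtain ⟨R, hR⟩ := Set.ncard_eq_one.1 h4
  have e1 : P ∈ v2.asIdeal.primesOver (𝓞 L2) := ⟨hP, hPl⟩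
  have e2 : Q ∈ v2.asIdeal.primesOver (𝓞 L2) := ⟨hQ, hQl⟩
  rw [hR, Set.mem_singleton_iff] at e1 e2
  rw [e1, e2]

end H68TK
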