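import Pool.Agent.H68.TK.StepM
import Pool.Agent.H68.TK.UniC
import Pool.Agent.H68.TK.GalC
import Pool.Agent.H68.TK.Real

/-!
# MP_78d38b: three torsion, the cubic step for a layer
-/

set_option autoImplicit false
set_option linter.style.haveILetI false
open scoped Classical

open IsDedekindDomain NumberField WithZero Finset Pool.Agent.H10 H55T3 H68QS H68IM

namespace H68TK

theorem GoodT.weaken {K L : Type} [Field K] [NumberField K] [Field L] [NumberField L] [Algebra K L]
    {M M' : ℤ} (hMM : M ∣ M') (G : GoodT M' K L) : GoodT M K L := by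
  refine ⟨G.gal, G.odd, G.three, G.RC, G.RM, fun v hv => G.bad v ?_⟩
  obtain ⟨c, rfl⟩ := hMM
  rw [Int.cast_mul]
  exact Ideal.mul_mem_right _ _ hv

section step

variable {K L K2 L2 : Type} [Field K] [NumberField K] [Field L] [NumberField L]
  [Field K2] [NumberField K2] [Field L2] [NumberField L2]
  [Algebra K L] [Algebra K K2] [Algebra K L2] [Algebra L L2] [Algebra K2 L2]
  [IsScalarTower K L L2] [IsScalarTower K K2 L2]

/-- The minus side of the cubic step for a layer. -/
theorem minus_step [IsGalois K L] [IsGalois K K2] [IsGalois L L2] [IsGalois K2 L2]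
    (h3K : Module.finrank K K2 = 3) (hfr : Module.finrank K2 L2 = Module.finrank K L)
    (hodd : Odd (Module.finrank K L)) (hn3 : ¬ 3 ∣ Module.finrank K L)
    (hgen : IntermediateField.adjoin K2 (Set.range (algebraMap L L2)) = ⊤)
    (hrL : IsTotallyReal L) (hrL2 : IsTotallyReal L2)
    {δ : 𝓞 K2} {m : ℤ} (hd : Dlt K K2 δ m)
    (hbad : ∀ v : HeightOneSpectrum (𝓞 K), (m : 𝓞 K) ∈ v.asIdeal → UniqueOver K L v.asIdeal)
    (RM : ∀ (C : Type) [Field C] [NumberField C] [Algebra L C] [Algebra K C] [IsScalarTower K L C]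
      (s : C), s ^ 2 = -3 → IntermediateField.adjoin L {s} = ⊤ → NoNewMinus K L C s)
    (C2 : Type) [Field C2] [NumberField C2] [Algebra L2 C2] [Algebra K2 C2]
    [IsScalarTower K2 L2 C2] (s : C2) (hs : s ^ 2 = -3)
    (hs2 : IntermediateField.adjoin L2 {s} = ⊤) : NoNewMinus K2 L2 C2 s := by
  letI : Algebra L C2 := ((algebraMap L2 C2).comp (algebraMap L L2)).toAlgebra
  haveI : IsScalarTower L L2 C2 := IsScalarTower.of_algebraMap_eq fun x => rfl
  letI : Algebra K C2 := ((algebraMap K2 C2).comp (algebraMap K K2)).toAlgebra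
  haveI : IsScalarTower K K2 C2 := IsScalarTower.of_algebraMap_eq fun x => rfl
  have hKC : ∀ x : K, algebraMap K C2 x = algebraMap L C2 (algebraMap K L x) := by
    intro x
    change algebraMap K2 C2 (algebraMap K K2 x) = algebraMap L2 C2 (algebraMap L L2 (algebraMap K L x))
    rw [← IsScalarTower.algebraMap_apply K L L2, IsScalarTower.algebraMap_apply K K2 L2,
      ← IsScalarTower.algebraMap_apply K2 L2 C2]
  let C : IntermediateField L C2 := IntermediateField.adjoin L {s}
  letI : Algebra K C := ((algebraMap L C).comp (algebraMap K L)).toAlgebra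
  haveI : IsScalarTower K L C := IsScalarTower.of_algebraMap_eq fun x => rfl
  haveI : IsScalarTower K C C2 := IsScalarTower.of_algebraMap_eq fun x => hKC x
  haveI : NumberField C := by
    haveI : FiniteDimensional L C2 := Module.Finite.of_restrictScalars_finite ℚ L C2
    haveI : FiniteDimensional ℚ C := Module.Finite.trans L C
    exact { to_charZero := inferInstance, to_finiteDimensional := inferInstance }
  obtain ⟨s', hs'⟩ : ∃ s' : C, algebraMap C C2 s' = s :=
    ⟨⟨s, IntermediateField.mem_adjoin_simple_self L s⟩, rfl⟩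
  have hsC : s' ^ 2 = -3 := by
    apply (algebraMap C C2).injective
    rw [map_pow, hs', hs, map_neg, map_ofNat]
  have hgC : IntermediateField.adjoin L {s'} = ⊤ := by
    refine adj_top fun M hB hM x => ?_
    obtain ⟨y, hy, hyx⟩ := adj_le (B := L) {s} (M.map (algebraMap C C2))
      (fun b => ⟨algebraMap L C b, hB b, rfl⟩) (by
        rintro _ rfl
        exact ⟨s', hM rfl, hs'⟩) (x : C2) x.2
    have : y = x := (algebraMap C C2).injective hyx
    rw [← this]
    exact hy
  have h0L := no_sqrt hrL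
  have h0L2 := no_sqrt hrL2
  haveI : IsGalois K C := galois_s (K := K) (L := L) hsC hgC
  haveI : IsGalois L C := IsGalois.tower_top_of_isGalois K L C
  have hs2' : IntermediateField.adjoin L2 {algebraMap C C2 s'} = ⊤ := by rw [hs']; exact hs2
  have hgenC2 : IntermediateField.adjoin K2 (Set.range (algebraMap C C2)) = ⊤ := by
    refine adj_top fun M hB hM => ?_
    have h1 : ∀ x : L2, algebraMap L2 C2 x ∈ M := by
      intro x
      refine gen_mem hgen (M.comap (algebraMap L2 C2)) (fun b => ?_) ?_ x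
      · change algebraMap L2 C2 (algebraMap K2 L2 b) ∈ M
        rw [← IsScalarTower.algebraMap_apply K2 L2 C2]
        exact hB b
      · rintro _ ⟨y, rfl⟩
        exact hM ⟨algebraMap L C y, rfl⟩
    refine gen_mem hs2 M h1 ?_
    rintro _ rfl
    exact hM ⟨s', hs'⟩
  have hn3C : ¬ 3 ∣ Module.finrank K C := by
    rw [← Module.finrank_mul_finrank K L C, finrank_s hsC hgC h0L]
    intro h
    rcases (Nat.prime_three.dvd_mul).mp h with h1 | h1
    · exact hn3 h1
    · norm_num at h1
  obtain ⟨hG, h3C, hfrC⟩ := cubic_up (K := K) (M := C) (K2 := K2) (M2 := C2) h3K hn3C hgenC2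
  haveI := hG
  haveI : IsGalois K2 C2 := galois_s (K := K2) (L := L2) hs hs2
  have hc1 := card_s (K := K) (L := L) hsC hgC h0L hn3
  have hc2 := card_s (K := K2) (L := L2) (s := s) hs hs2 h0L2 (by rw [hfr]; exact hn3)
  have hfin := noNewMinus_cubic (K := K) (L := L) (C := C) (K2 := K2) (L2 := L2) (C2 := C2) h3C
    hodd hfrC hsC hgC hs2' hc1 (by rw [hs']; exact hc2) (gen_symm (K := K) hgenC2) hgenC2 h0L2
    (no_mu3 hrL2) hd hbad (RM C s' hsC hgC)
  rwa [hs'] at hfin

/-- The cubic step for the properties of a layer. -/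
theorem goodT_step [IsGalois K K2] (h3K : Module.finrank K K2 = 3)
    (hgen : IntermediateField.adjoin K2 (Set.range (algebraMap L L2)) = ⊤)
    (hreal : IsTotallyReal L2) (hunr : Unr3 L2) {δ : 𝓞 K2} {m : ℤ} (hd : Dlt K K2 δ m)
    {M M' : ℤ} (hMM : M ∣ M') (hm : m ∣ M') (G : GoodT M' K L) : GoodT M K2 L2 := by
  haveI := G.gal
  obtain ⟨hG, h3L, hfr⟩ := cubic_up (K := K) (M := L) (K2 := K2) (M2 := L2) h3K G.three hgen
  haveI := hG
  haveI hgal : IsGalois K2 L2 := galois_up (K := K) (L := L) hgen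
  have hodd : Odd (Module.finrank K2 L2) := by rw [hfr]; exact G.odd
  have hn3 : ¬ 3 ∣ Module.finrank K2 L2 := by rw [hfr]; exact G.three
  have hrL : IsTotallyReal L := IsTotallyReal.of_algebra L L2
  have hbad : ∀ {a : ℤ}, a ∣ M' → ∀ v : HeightOneSpectrum (𝓞 K), (a : 𝓞 K) ∈ v.asIdeal →
      UniqueOver K L v.asIdeal := by
    intro a ha v hv
    refine G.bad v ?_
    obtain ⟨c, hc⟩ := ha
    rw [hc, Int.cast_mul]
    exact Ideal.mul_mem_right _ _ hv
  refine ⟨hgal, hodd, hn3, ?_, ?_, ?_⟩
  · exact noNewCube_cubic hfr h3L G.three (gen_symm (K := K) hgen) hgen (no_mu3 hreal) hd (hbad hm) hunr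
      G.RC
  · intro C2 _ _ _ _ _ s hs hs2
    exact minus_step h3K hfr G.odd G.three hgen hrL hreal hd (hbad hm) G.RM C2 s hs hs2
  · intro v2 hv2
    have hbot : v2.asIdeal.under (𝓞 K) ≠ ⊥ := Ideal.IsIntegral.comap_ne_bot _ v2.ne_bot
    let v : HeightOneSpectrum (𝓞 K) := ⟨v2.asIdeal.under (𝓞 K), inferInstance, hbot⟩
    refine unique_cubic (K := K) (L := L) h3L hodd hn3 (v := v) Ideal.map_comap_le
      (hbad hMM v ?_)
    change algebraMap (𝓞 K) (𝓞 K2) (M : 𝓞 K) ∈ v2.asIdeal
    rw [map_intCast]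
    exact hv2

end step

end H68TK
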