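import Pool.Agent.H68.TK.Bmb
import Pool.Agent.H68.QS.Val

/-!
# MP_78d38b: the minus side over the rationals
-/

set_option autoImplicit false
set_option linter.style.haveILetI false
open scoped Classical

open IsDedekindDomain NumberField WithZero Finset H5SW H55T3

namespace H68TK

/-- The action of `g` on `s`. -/
theorem kap_s {p n : ℕ} [Fact p.Prime] {C' : Type} [Field C'] [NumberField C']
    [IsCyclotomicExtension {3 * p ^ (n + 1)} ℚ C'] {g : C' ≃ₐ[ℚ] C'} {s' : C'}
    (hs' : s' ^ 2 = -3) :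
    ((kap p n C' g : ZMod (3 * p ^ (n + 1))).val % 3 = 1 → g s' = s') ∧
    ((kap p n C' g : ZMod (3 * p ^ (n + 1))).val % 3 = 2 → g s' = -s') := by
  obtain ⟨r, h1, h3⟩ := Cs_root p n C'
  have hrN : r ^ (3 * p ^ (n + 1)) = 1 := by rw [pow_mul, h3, one_pow]
  have hk : g r = r ^ (kap p n C' g : ZMod (3 * p ^ (n + 1))).val :=
    IsCyclotomicExtension.Rat.galEquivZMod_apply_of_pow_eq (3 * p ^ (n + 1)) C' g hrN
  have h6 : s' ^ 2 = (2 * r + 1) ^ 2 := by rw [hs', Cs_sq h1]
  constructor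
  · intro h4
    have hgr : g r = r := by
      rw [hk]
      generalize (kap p n C' g : ZMod (3 * p ^ (n + 1))).val = k at h4
      have h5 := Nat.div_add_mod k 3
      rw [← h5, h4, pow_add, pow_mul, h3, one_pow, one_mul, pow_one]
    rcases sq_eq_sq_iff_eq_or_eq_neg.1 h6 with h | h
    · rw [h, map_add, map_mul, hgr, map_one, map_ofNat]
    · rw [h, map_neg, map_add, map_mul, hgr, map_one, map_ofNat]
  · intro h4
    have hgr : g r = r ^ 2 := by
      rw [hk]
      generalize (kap p n C' g : ZMod (3 * p ^ (n + 1))).val = k at h4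
      have h5 := Nat.div_add_mod k 3
      rw [← h5, h4, pow_add, pow_mul, h3, one_pow, one_mul]
    rcases sq_eq_sq_iff_eq_or_eq_neg.1 h6 with h | h
    · rw [h, map_add, map_mul, hgr, map_one, map_ofNat]
      linear_combination 2 * h1
    · rw [h, map_neg, map_add, map_mul, hgr, map_one, map_ofNat]
      linear_combination (-2) * h1

theorem base_minus {p m n : ℕ} [Fact p.Prime] {hmn : m ≤ n} {K L C C' : Type}
    [Field K] [NumberField K] [Field L] [NumberField L] [Field C] [NumberField C] [Field C']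
    [NumberField C'] [Algebra K L] [Algebra L C] [Algebra K C] [IsScalarTower K L C]
    [Algebra L C'] [Algebra K C'] [IsScalarTower K L C'] [IsGalois K L]
    [IsCyclotomicExtension {3 * p ^ (n + 1)} ℚ C'] (X : CTw p m n hmn K L C')
    (HM : NoNewC p m n hmn C') {s : C} (hs : s ^ 2 = -3)
    (hgen : IntermediateField.adjoin L {s} = ⊤) (h0 : ∀ z : L, z ^ 2 ≠ -3)
    (h3 : ¬ 3 ∣ Module.finrank K L) : NoNewMinus K L C s := by
  intro e he hv hN hJ
  obtain ⟨s', hs'⟩ := exists_s p n C'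
  obtain ⟨ι, hι⟩ := exists_iota (L := L) (C := C) hs hgen h0 hs'
  have hcard := card_s (K := K) (L := L) hs hgen h0 h3
  have hιe : ι e ≠ 0 := by rw [Ne, map_eq_zero]; exact he
  have hvC' : ∀ W : HeightOneSpectrum (𝓞 C'), (3 : ℤ) ∣ log (W.valuation C' (ι e)) := by
    intro W
    letI : Algebra C C' := ι.toRingHom.toAlgebra
    have hbot : W.asIdeal.under (𝓞 C) ≠ ⊥ := Ideal.IsIntegral.comap_ne_bot _ W.ne_bot
    let w : HeightOneSpectrum (𝓞 C) := ⟨W.asIdeal.under (𝓞 C), inferInstance, hbot⟩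
    haveI : W.asIdeal.LiesOver w.asIdeal := ⟨rfl⟩
    have h1 := HeightOneSpectrum.valuation_liesOver (K := C) C' w W e
    have h2 : algebraMap C C' e = ι e := rfl
    rw [← h2, ← h1, log_pow, nsmul_eq_mul]
    exact (hv w).mul_left _
  have hmod : ∀ g : C' ≃ₐ[ℚ] C', ∀ a : ℕ, ZMod.unitsMap (Dvd.intro _ rfl) (kap p n C' g) =
      (1 : (ZMod 3)ˣ) → (kap p n C' g : ZMod (3 * p ^ (n + 1))).val % 3 = 1 := by
    intro g _ hg
    have h1 := congrArg (fun u : (ZMod 3)ˣ => (u : ZMod 3)) hg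
    simp only [Units.val_one] at h1
    rw [ZMod.unitsMap_val, ZMod.cast_eq_val] at h1
    have h2 : (((kap p n C' g : ZMod (3 * p ^ (n + 1))).val : ℕ) : ZMod 3) = ((1 : ℕ) : ZMod 3) := by
      rw [h1, Nat.cast_one]
    rw [ZMod.natCast_eq_natCast_iff] at h2
    exact h2
  obtain ⟨y, hy⟩ := HM (ι e) hιe hvC' (prod_iota X hs hgen ι hN) (by
    intro g hg1 hg2
    refine ⟨1, ?_⟩
    rw [one_pow, mul_one]
    have h1 : g (ι s) = ι s := by
      rw [hι]
      exact (kap_s hs').1 (hmod g 0 hg2)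
    obtain ⟨h, hh, hx⟩ := restr_iota (K := L) (L := L) hs hgen ι g
      (X.fixL g (Or.inr hg1)) h1
    rw [hx, gen_s hgen h hh]
    rfl) (by
    intro g hg
    have hN' : (kap p n C' g : ZMod (3 * p ^ (n + 1))).val % 3 = 2 := by
      rw [hg, Units.val_neg, Units.val_one]
      have h1 : (((-1 : ZMod (3 * p ^ (n + 1))).val : ℕ) : ZMod 3) = -1 := by
        rw [← ZMod.cast_eq_val, ZMod.cast_neg (Dvd.intro _ rfl), ZMod.cast_one (Dvd.intro _ rfl)]
      have h2 : (((-1 : ZMod (3 * p ^ (n + 1))).val : ℕ) : ZMod 3) = ((2 : ℕ) : ZMod 3) := by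
        rw [h1]
        rfl
      rw [ZMod.natCast_eq_natCast_iff] at h2
      exact h2
    have h1 : g (ι s) = -ι s := by
      rw [hι]
      exact (kap_s hs').2 hN'
    obtain ⟨h, hh, hx⟩ := restr_neg (L := L) hs hgen ι g (X.fixL g (Or.inr (by
      rw [hg]
      apply Units.ext
      rw [ZMod.unitsMap_def, Units.coe_map, Units.val_neg, Units.val_one, Units.val_neg,
        Units.val_one]
      rw [MonoidHom.coe_coe, map_neg, map_one]))) h1
    obtain ⟨z, hz⟩ := hJ h hh
    exact ⟨ι z, by rw [hx, ← map_mul, hz, map_pow]⟩)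
  exact down_iota X hs hgen ι hcard he hN hy

end H68TK
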