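import Pool.Agent.H68.TK.Sga
import Pool.Agent.H68.TK.Sgb
import Pool.Agent.H55.T3.Cs

/-!
ROW Bma (the field `C = L(s)` inside `C' = ℚ(ζ)`, `ζ` of order `3 p^(n+1)`; about 130 lines).  PROOF.
`exists_iota`: the minimal polynomial of `s` over `L` is `X^2 + 3` (`h0`; see `Sgb.lean`), `s'` is a root in `C'`: `IntermediateField.adjoin.powerBasis`/`IsAdjoinRoot` lift (`hgen`: `C = L(s)`), an `L`-algebra map `ι : C → C'` with
`ι s = s'`.
`restr_iota`: `g` fixes the image of `K`, so `g` maps the image of `L` to itself (`L/K` normal; with `C'` over `K`, `g` as a `K`-automorphism, `AlgEquiv.restrictNormal`), and `g s' = s'`: the image of `ι` (generated by the image of `L` and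
`s'`) is mapped to itself (`≤` by `H68IM.adj_le`/`gen_mem`, and equality by dimension over `K`, or use `g⁻¹` too). `h = ι⁻¹ ∘ g ∘ ι` (`AlgEquiv.ofInjectiveField`, `AlgHom.fieldRange`); simplest: `C/K` is Galois (`galois_s` in `Sgb.lean`), so
`AlgEquiv.restrictNormal` for `C'` as a `C`-algebra by `ι` (`letI := ι.toRingHom.toAlgebra`, `IsScalarTower K C C'`) gives `h` with `ι (h x) = g (ι x)`, and `h s = s` by injectivity of `ι`.
`restr_neg`: the same with `g` fixing the image of `L` (`C/L` is Galois), as an automorphism over `L`.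
`lift_iota`: `t : L ≃ₐ[K] L` the restriction of `h` to `L`; `X.cov t` gives `g` in `H` with `g x = t x` on `L`; `g s' = s'` by `inH_s`. `g ∘ ι` and `ι ∘ h` agree on `L` and on `s`, so everywhere (`H68IM.gen_mem`).
-/

set_option autoImplicit false
open scoped Classical

open IsDedekindDomain NumberField Finset H5SW H55T3

namespace H68TK

theorem Bma_restr {K C C' : Type} [Field K] [Field C] [Field C'] [Algebra K C] [Algebra K C']
    [Normal K C] (ι : C →ₐ[K] C') (g : C' ≃+* C')
    (hg : ∀ x : K, g (algebraMap K C' x) = algebraMap K C' x) :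
    ∃ h : C ≃ₐ[K] C, ∀ x, g (ι x) = ι (h x) := by
  letI : Algebra C C' := ι.toRingHom.toAlgebra
  haveI : IsScalarTower K C C' := IsScalarTower.of_algebraMap_eq fun x => (ι.commutes x).symm
  let gK : C' ≃ₐ[K] C' := AlgEquiv.ofRingEquiv (f := g) hg
  refine ⟨gK.restrictNormal C, fun x => ?_⟩
  exact (AlgEquiv.restrictNormal_commutes gK C x).symm

section

variable {K L C C' : Type} [Field K] [NumberField K] [Field L] [NumberField L] [Field C]
  [NumberField C] [Field C'] [NumberField C'] [Algebra K L] [Algebra L C] [Algebra K C]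
  [IsScalarTower K L C] [Algebra L C'] [Algebra K C'] [IsScalarTower K L C']

theorem exists_iota {s : C} (hs : s ^ 2 = -3) (hgen : IntermediateField.adjoin L {s} = ⊤)
    (h0 : ∀ z : L, z ^ 2 ≠ -3) {s' : C'} (hs' : s' ^ 2 = -3) : ∃ ι : C →ₐ[L] C', ι s = s' := by
  have hfd : FiniteDimensional L C := Module.Finite.of_restrictScalars_finite ℚ L C
  have hint : IsIntegral L s := IsIntegral.of_finite L s
  have hy : Polynomial.aeval s' (minpoly L (IntermediateField.adjoin.powerBasis hint).gen) = 0 := by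
    rw [IntermediateField.adjoin.powerBasis_gen, IntermediateField.minpoly_gen, Sgb_min hs h0,
      map_sub, map_pow, Polynomial.aeval_X, Polynomial.aeval_C, hs', map_neg, map_ofNat, sub_self]
  let f : IntermediateField.adjoin L {s} →ₐ[L] C' :=
    (IntermediateField.adjoin.powerBasis hint).lift s' hy
  have hf : f (IntermediateField.AdjoinSimple.gen L s) = s' := by
    have h := (IntermediateField.adjoin.powerBasis hint).lift_gen s' hy
    rwa [IntermediateField.adjoin.powerBasis_gen] at h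
  let e : C ≃ₐ[L] IntermediateField.adjoin L {s} :=
    IntermediateField.topEquiv.symm.trans (IntermediateField.equivOfEq hgen.symm)
  refine ⟨f.comp (e : C →ₐ[L] IntermediateField.adjoin L {s}), ?_⟩
  have he : e s = IntermediateField.AdjoinSimple.gen L s := Subtype.ext rfl
  change f (e s) = s'
  rw [he, hf]

theorem restr_iota [IsGalois K L] {s : C} (hs : s ^ 2 = -3)
    (hgen : IntermediateField.adjoin L {s} = ⊤) (ι : C →ₐ[L] C') (g : C' ≃ₐ[ℚ] C')
    (hgK : ∀ x : K, g (algebraMap K C' x) = algebraMap K C' x) (hgs : g (ι s) = ι s) :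
    ∃ h : C ≃ₐ[K] C, h s = s ∧ ∀ x, g (ι x) = ι (h x) := by
  have hgal : IsGalois K C := galois_s hs hgen
  obtain ⟨h, hh⟩ := Bma_restr (ι.restrictScalars K) (g : C' ≃+* C') hgK
  refine ⟨h, ?_, hh⟩
  apply ι.toRingHom.injective
  exact (hh s).symm.trans hgs

theorem restr_neg {s : C} (hs : s ^ 2 = -3) (hgen : IntermediateField.adjoin L {s} = ⊤)
    (ι : C →ₐ[L] C') (g : C' ≃ₐ[ℚ] C') (hgL : ∀ x : L, g (algebraMap L C' x) = algebraMap L C' x)
    (hgs : g (ι s) = -ι s) : ∃ h : C ≃ₐ[L] C, h s = -s ∧ ∀ x, g (ι x) = ι (h x) := by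
  have hgal : IsGalois L C := galois_s (K := L) (L := L) hs hgen
  obtain ⟨h, hh⟩ := Bma_restr ι (g : C' ≃+* C') hgL
  refine ⟨h, ?_, hh⟩
  apply ι.toRingHom.injective
  change ι (h s) = ι (-s)
  rw [map_neg]
  exact (hh s).symm.trans hgs

theorem lift_iota [IsGalois K L] {p m n : ℕ} [Fact p.Prime] {hmn : m ≤ n}
    [IsCyclotomicExtension {3 * p ^ (n + 1)} ℚ C'] (X : CTw p m n hmn K L C')
    {s : C} (hs : s ^ 2 = -3) (hgen : IntermediateField.adjoin L {s} = ⊤) (ι : C →ₐ[L] C')
    (h : C ≃ₐ[K] C) (hh : h s = s) :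
    ∃ g : C' ≃ₐ[ℚ] C', InH p m n hmn C' g ∧ ∀ x, g (ι x) = ι (h x) := by
  have ht : ∀ b : L, algebraMap L C (h.restrictNormal L b) = h (algebraMap L C b) := fun b =>
    AlgEquiv.restrictNormal_commutes h L b
  obtain ⟨g, hg, hgt⟩ := X.cov (h.restrictNormal L)
  refine ⟨g, hg, ?_⟩
  have hs' : (ι s) ^ 2 = -3 := by
    rw [← map_pow, hs, map_neg, map_ofNat]
  have hgs : g (ι s) = ι s := inH_s hmn hg hs'
  intro x
  let M : Subfield C := RingHom.eqLocusField ((g : C' →+* C').comp (ι : C →+* C'))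
    ((ι : C →+* C').comp (h : C →+* C))
  have hM : ∀ y, y ∈ M ↔ g (ι y) = ι (h y) := fun y => Iff.rfl
  refine (hM x).1 (H68IM.gen_mem hgen M ?_ ?_ x)
  · intro b
    rw [hM, ι.commutes, hgt, ← ht b, ι.commutes]
  · intro y hy
    rw [Set.mem_singleton_iff.1 hy]
    change s ∈ M
    rw [hM, hh, hgs]

end

end H68TK
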