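import Pool.Agent.H68.TK.Bma

/-!
ROW Bmb (cubes in `C` and in `C' = ℚ(ζ)`; about 150 lines; use the statements of `Bma.lean`).  PROOF.
`H = {g ∈ Gal(C'/ℚ) : InH g}` is a subgroup (`InH` is `unitsMap (kap g) = 1`, a homomorphism), `H1 = {h ∈ Gal(C/K) : h s = s}`. Every `g ∈ H` fixes the image of `K` (`X.fixK`) and `ι s` (`inH_s`), so `restr_iota` gives `r g ∈ H1` with
`g (ι x) = ι (r g x)` (unique as `ι` is injective), a homomorphism; it is surjective by `lift_iota`.
`prod_iota`: `∏_{g ∈ H} g (ι e) = ∏_{g ∈ H} ι (r g e) = (∏_{h ∈ H1} ι (h e)) ^ c` with `c` the common number of elements of the fibres of `r` (`Finset.prod_comp`/`prod_fiberwise`; the fibre over `h` is a coset of the kernel: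
multiplication by a lift of `h`), `= (ι y)^(3 c)`.
`down_iota`: `ι e = y^3`, `y ≠ 0`. For `h ∈ H1` let `g ∈ H` be a lift. `(y / g y)^3 = ι (e / h e)`. For every `δ ∈ Gal(C'/C)` (automorphisms of `C'` over `ℚ` fixing the image of `ι`): `(δ y / y)^3 = 1`, so `δ y = y z`, `z^3 = 1`;
`Gal(C'/ℚ)` is commutative (`comm_C` with `K = ℚ`), so `δ (g y) = g (δ y) = g y * g z = g y * z` (`mu3_fix` in `Sga.lean` with `s' = ι s`, `g s' = s'`). So `y / g y` is fixed by all such `δ`, and `C'/C` is Galois (`C'/ℚ` is), so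
`y / g y = ι (c_h)`. So `e = h e * c_h^3` for every `h ∈ H1`. Multiply over `H1`: `e^n = (∏ h e) (∏ c_h)^3 = (y₁ ∏ c_h)^3`, `n = card H1` prime to three; `e^n` and `e^3` are cubes, so `e` is one (`e ≠ 0`).
-/

set_option autoImplicit false
open scoped Classical

open IsDedekindDomain NumberField Finset H5SW H55T3

namespace H68TK

section

variable {K L C C' : Type} [Field K] [NumberField K] [Field L] [NumberField L] [Field C]
  [NumberField C] [Field C'] [NumberField C'] [Algebra K L] [Algebra L C] [Algebra K C]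
  [IsScalarTower K L C] [Algebra L C'] [Algebra K C'] [IsScalarTower K L C'] [IsGalois K L]
  {p m n : ℕ} [Fact p.Prime] {hmn : m ≤ n} [IsCyclotomicExtension {3 * p ^ (n + 1)} ℚ C']

omit [NumberField L] [NumberField C] [NumberField C'] in
private lemma Bmb_s {s : C} (hs : s ^ 2 = -3) (ι : C →ₐ[L] C') : (ι s) ^ 2 = -3 := by
  rw [← map_pow, hs, map_neg, map_ofNat]

private lemma Bmb_restr (X : CTw p m n hmn K L C') {s : C} (hs : s ^ 2 = -3)
    (hgen : IntermediateField.adjoin L {s} = ⊤) (ι : C →ₐ[L] C') (g : C' ≃ₐ[ℚ] C')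
    (hg : InH p m n hmn C' g) : ∃ h : C ≃ₐ[K] C, h s = s ∧ ∀ x, g (ι x) = ι (h x) :=
  restr_iota hs hgen ι g (X.fixK g hg) (inH_s hmn hg (Bmb_s hs ι))

private lemma Bmb_mul {g h : C' ≃ₐ[ℚ] C'} (hg : InH p m n hmn C' g) (hh : InH p m n hmn C' h) :
    InH p m n hmn C' (g * h) := by
  unfold InH at hg hh ⊢
  have hk : kap p n C' (g * h) = kap p n C' g * kap p n C' h := map_mul _ _ _
  rw [hk, map_mul, hg, hh, one_mul]

private lemma Bmb_inv {g : C' ≃ₐ[ℚ] C'} (hg : InH p m n hmn C' g) :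
    InH p m n hmn C' g⁻¹ := by
  unfold InH at hg ⊢
  have hk : kap p n C' g⁻¹ = (kap p n C' g)⁻¹ := map_inv _ _
  rw [hk, map_inv, hg, inv_one]

theorem prod_iota (X : CTw p m n hmn K L C') {s : C} (hs : s ^ 2 = -3)
    (hgen : IntermediateField.adjoin L {s} = ⊤) (ι : C →ₐ[L] C') {e : C}
    (he : ∃ y, ∏ g ∈ univ.filter (fun g : C ≃ₐ[K] C => g s = s), g e = y ^ 3) :
    ∃ y, ∏ g ∈ univ.filter (fun g => InH p m n hmn C' g), g (ι e) = y ^ 3 := by
  obtain ⟨y, hy⟩ := he
  have hR := Bmb_restr X hs hgen ι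
  let r : (C' ≃ₐ[ℚ] C') → (C ≃ₐ[K] C) := fun g =>
    if h : InH p m n hmn C' g then (hR g h).choose else 1
  have hr : ∀ g, InH p m n hmn C' g → (r g) s = s ∧ ∀ x, g (ι x) = ι (r g x) := by
    intro g hg
    have h1 : r g = (hR g hg).choose := dif_pos hg
    rw [h1]
    exact (hR g hg).choose_spec
  have huniq : ∀ (g : C' ≃ₐ[ℚ] C') (h : C ≃ₐ[K] C), InH p m n hmn C' g →
      (∀ x, g (ι x) = ι (h x)) → r g = h := by
    intro g h hg hx
    refine AlgEquiv.ext fun x => ?_
    have hinj : Function.Injective ι := ι.toRingHom.injective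
    apply hinj
    rw [← (hr g hg).2 x, hx x]
  -- the fibres
  have hfib : ∀ h ∈ univ.filter (fun g : C ≃ₐ[K] C => g s = s),
      ((univ.filter (fun g => InH p m n hmn C' g)).filter (fun g => r g = h)).card =
      ((univ.filter (fun g => InH p m n hmn C' g)).filter (fun g => r g = 1)).card := by
    intro h hh
    obtain ⟨g₀, hg₀, hx₀⟩ := lift_iota X hs hgen ι h (Finset.mem_filter.1 hh).2
    symm
    refine Finset.card_bij (fun g _ => g₀ * g) ?_ ?_ ?_
    · intro g hg
      rw [Finset.mem_filter, Finset.mem_filter] at hg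
      rw [Finset.mem_filter, Finset.mem_filter]
      refine ⟨⟨Finset.mem_univ _, Bmb_mul hg₀ hg.1.2⟩, ?_⟩
      apply huniq _ _ (Bmb_mul hg₀ hg.1.2)
      intro x
      rw [AlgEquiv.mul_apply, (hr g hg.1.2).2 x, hg.2, hx₀]
      rfl
    · intro g _ g' _ hgg
      exact mul_left_cancel hgg
    · intro g hg
      rw [Finset.mem_filter, Finset.mem_filter] at hg
      refine ⟨g₀⁻¹ * g, ?_, by rw [mul_inv_cancel_left]⟩
      rw [Finset.mem_filter, Finset.mem_filter]
      have h1 : InH p m n hmn C' (g₀⁻¹ * g) := Bmb_mul (Bmb_inv hg₀) hg.1.2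
      refine ⟨⟨Finset.mem_univ _, h1⟩, ?_⟩
      apply huniq _ _ h1
      intro x
      apply g₀.injective
      have h2 : g₀ ((g₀⁻¹ * g) (ι x)) = (g₀ * (g₀⁻¹ * g)) (ι x) := rfl
      rw [h2, mul_inv_cancel_left, (hr g hg.1.2).2 x, hg.2, hx₀]
      rfl
  refine ⟨ι (y ^ ((univ.filter (fun g => InH p m n hmn C' g)).filter (fun g => r g = 1)).card), ?_⟩
  have h1 : ∏ g ∈ univ.filter (fun g => InH p m n hmn C' g), g (ι e) =
      ι (∏ g ∈ univ.filter (fun g => InH p m n hmn C' g), (r g) e) := by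
    rw [map_prod]
    exact Finset.prod_congr rfl fun g hg => (hr g (Finset.mem_filter.1 hg).2).2 e
  have h2 : ∏ g ∈ univ.filter (fun g => InH p m n hmn C' g), (r g) e =
      ∏ h ∈ univ.filter (fun g : C ≃ₐ[K] C => g s = s),
        ∏ g ∈ (univ.filter (fun g => InH p m n hmn C' g)).filter (fun g => r g = h), (r g) e := by
    symm
    apply Finset.prod_fiberwise_of_maps_to
    intro g hg
    rw [Finset.mem_filter]
    exact ⟨Finset.mem_univ _, (hr g (Finset.mem_filter.1 hg).2).1⟩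
  have h3 : ∏ h ∈ univ.filter (fun g : C ≃ₐ[K] C => g s = s),
        ∏ g ∈ (univ.filter (fun g => InH p m n hmn C' g)).filter (fun g => r g = h), (r g) e =
      ∏ h ∈ univ.filter (fun g : C ≃ₐ[K] C => g s = s), (h e) ^
        ((univ.filter (fun g => InH p m n hmn C' g)).filter (fun g => r g = 1)).card := by
    refine Finset.prod_congr rfl fun h hh => ?_
    rw [← hfib h hh, ← Finset.prod_const]
    refine Finset.prod_congr rfl fun g hg => ?_
    rw [(Finset.mem_filter.1 hg).2]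
  rw [h1, h2, h3, Finset.prod_pow, hy, ← map_pow, ← pow_mul, ← pow_mul, mul_comm]

theorem down_iota (X : CTw p m n hmn K L C') {s : C} (hs : s ^ 2 = -3)
    (hgen : IntermediateField.adjoin L {s} = ⊤) (ι : C →ₐ[L] C')
    (h3 : ¬ 3 ∣ (univ.filter (fun g : C ≃ₐ[K] C => g s = s)).card) {e : C} (he0 : e ≠ 0)
    (he : ∃ y, ∏ g ∈ univ.filter (fun g : C ≃ₐ[K] C => g s = s), g e = y ^ 3) {y : C'}
    (hy : ι e = y ^ 3) : ∃ z, e = z ^ 3 := by
  have hιe : ι e ≠ 0 := by rw [Ne, map_eq_zero]; exact he0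
  have hy0 : y ≠ 0 := by
    rintro rfl
    exact hιe (by rw [hy]; norm_num)
  let _ : Algebra C C' := ι.toRingHom.toAlgebra
  have hgal0 : IsGalois ℚ C' := IsCyclotomicExtension.isGalois {3 * p ^ (n + 1)} ℚ C'
  have hgal : IsGalois C C' := IsGalois.tower_top_of_isGalois ℚ C C'
  have hfd : FiniteDimensional C C' := Module.Finite.of_restrictScalars_finite ℚ C C'
  have key : ∀ h : C ≃ₐ[K] C, h s = s → ∃ c : C, e = h e * c ^ 3 := by
    intro h hh
    obtain ⟨g, hg, hx⟩ := lift_iota X hs hgen ι h hh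
    have hgy0 : g y ≠ 0 := by
      intro h0
      exact hy0 (by simpa using h0)
    have hgs : g (ι s) = ι s := inH_s hmn hg (Bmb_s hs ι)
    have hfix : ∀ δ : C' ≃ₐ[C] C', δ (y / g y) = y / g y := by
      intro δ
      have hδe : δ (ι e) = ι e := δ.commutes e
      have hδy0 : δ y ≠ 0 := by
        intro h0
        exact hy0 (by simpa using h0)
      have h1 : (δ y / y) ^ 3 = 1 := by
        rw [div_pow, ← map_pow, ← hy, hδe]
        exact div_self hιe
      have h2 : g (δ y / y) = δ y / y := mu3_fix (g : C' ≃+* C') (Bmb_s hs ι) hgs h1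
      have hcomm : δ (g y) = g (δ y) := by
        have h4 := comm_C p n (K := ℚ) (δ.restrictScalars ℚ) g
        have h5 := DFunLike.congr_fun h4 y
        exact h5
      rw [map_div₀] at h2
      rw [map_div₀, hcomm, div_eq_div_iff (by intro h0; exact hδy0 (by simpa using h0)) hgy0]
      rw [div_eq_div_iff hgy0 hy0] at h2
      linear_combination -h2
    obtain ⟨c, hc⟩ := (IsGalois.mem_range_algebraMap_iff_fixed (F := C) (E := C') (y / g y)).2 hfix
    refine ⟨c, ?_⟩
    have hinj : Function.Injective ι := ι.toRingHom.injective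
    apply hinj
    have hc' : ι c = y / g y := hc
    rw [map_mul, map_pow, hc', ← hx, hy, map_pow, div_pow]
    field_simp
  choose! c hc using key
  obtain ⟨y₁, hy₁⟩ := he
  have hprod : e ^ (univ.filter (fun g : C ≃ₐ[K] C => g s = s)).card =
      (y₁ * ∏ h ∈ univ.filter (fun g : C ≃ₐ[K] C => g s = s), c h) ^ 3 := by
    rw [← Finset.prod_const, mul_pow, ← hy₁, ← Finset.prod_pow, ← Finset.prod_mul_distrib]
    exact Finset.prod_congr rfl fun h hh => hc h (Finset.mem_filter.1 hh).2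
  generalize (univ.filter (fun g : C ≃ₐ[K] C => g s = s)).card = N at h3 hprod
  generalize y₁ * ∏ h ∈ univ.filter (fun g : C ≃ₐ[K] C => g s = s), c h = w at hprod
  have h5 := Nat.div_add_mod N 3
  have h6 : N % 3 = 1 ∨ N % 3 = 2 := by
    have : N % 3 < 3 := Nat.mod_lt _ (by norm_num)
    have h7 : N % 3 ≠ 0 := fun h0 => h3 (Nat.dvd_of_mod_eq_zero h0)
    omega
  have hek : e ^ (N / 3) ≠ 0 := pow_ne_zero _ he0
  rw [← h5, pow_add, pow_mul'] at hprod
  rcases h6 with h6 | h6
  · rw [h6, pow_one] at hprod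
    refine ⟨w / e ^ (N / 3), ?_⟩
    rw [div_pow, ← hprod]
    field_simp
  · rw [h6] at hprod
    have hw0 : w ≠ 0 := by
      rintro rfl
      rw [zero_pow three_ne_zero] at hprod
      exact mul_ne_zero (pow_ne_zero 3 hek) (pow_ne_zero 2 he0) hprod
    refine ⟨e * e ^ (N / 3) / w, ?_⟩
    rw [div_pow, ← hprod]
    field_simp

end

end H68TK
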