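import Pool.Agent.H68.TK.Df

/-!
ROW Cyc (cyclic cubic extensions; about 90 lines).  PROOF.
`exists_sigma`: `Nat.card (M2 ≃ₐ[M] M2) = 3` (`IsGalois.card_aut_eq_finrank`), a group of prime order: every `σ ≠ 1` generates it (`isCyclic_of_prime_card`, `mem_zpowers_of_prime_card` / `zpowers_eq_top_of_prime_card`,
`orderOf_eq_prime`), so `σ ^ 3 = 1` and every `τ` is `1`, `σ` or `σ * σ`; fixed by `σ` implies fixed by all, so in the image of `M` (`IsGalois.mem_range_algebraMap_iff_fixed` or `IsGalois.tfae` / `mem_bot_iff_fixed`).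
`hilbert`: by linear independence of characters (`linearIndependent_monoidHom`, or `Module.finrank`/`LinearIndependent` for `1, σ, σ * σ`, distinct) there is `x` with `e' = x + c * σ x + c * σ c * σ (σ x) ≠ 0`; with `hc` and `h3`:
`c * σ e' = e'`; take `e = e'⁻¹`.  (The three maps `1, σ, σ^2` are distinct as `σ ≠ 1`, `σ^3 = 1`.)
(Or use Mathlib's Hilbert 90, `groupCohomology.exists_div_of_norm_eq_one`-type statement, for the cyclic group.)
-/

set_option autoImplicit false

open NumberField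

namespace H68TK

variable {M M2 : Type} [Field M] [Field M2] [Algebra M M2] [FiniteDimensional M M2]

theorem exists_sigma [IsGalois M M2] (h : Module.finrank M M2 = 3) :
    ∃ σ : M2 ≃ₐ[M] M2, σ ≠ 1 := by
  have h1 : Nat.card (M2 ≃ₐ[M] M2) = 3 := by rw [IsGalois.card_aut_eq_finrank, h]
  by_contra hcon
  push Not at hcon
  have : Subsingleton (M2 ≃ₐ[M] M2) := ⟨fun a b => by rw [hcon a, hcon b]⟩
  have h2 := Nat.card_of_subsingleton (1 : M2 ≃ₐ[M] M2)
  omega

theorem sigma_cube [IsGalois M M2] (h : Module.finrank M M2 = 3) (σ : M2 ≃ₐ[M] M2) (x : M2) :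
    σ (σ (σ x)) = x := by
  have h1 : Nat.card (M2 ≃ₐ[M] M2) = 3 := by rw [IsGalois.card_aut_eq_finrank, h]
  have h2 : σ ^ 3 = 1 := by
    rw [← h1]
    exact pow_card_eq_one'
  have h3 := DFunLike.congr_fun h2 x
  rw [pow_succ, pow_succ, pow_one] at h3
  exact h3

theorem sigma_fix [IsGalois M M2] (h : Module.finrank M M2 = 3) {σ : M2 ≃ₐ[M] M2} (hσ : σ ≠ 1)
    {x : M2} (hx : σ x = x) : ∃ y : M, algebraMap M M2 y = x := by
  have h1 : Nat.card (M2 ≃ₐ[M] M2) = 3 := by rw [IsGalois.card_aut_eq_finrank, h]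
  have : Fact (Nat.Prime 3) := ⟨Nat.prime_three⟩
  rw [← Set.mem_range, IsGalois.mem_range_algebraMap_iff_fixed]
  intro τ
  have h2 : τ ∈ Subgroup.zpowers σ := mem_zpowers_of_prime_card h1 hσ
  have h3 : Subgroup.zpowers σ ≤ MulAction.stabilizer (M2 ≃ₐ[M] M2) x := by
    rw [Subgroup.zpowers_le]
    exact hx
  exact h3 h2

omit [FiniteDimensional M M2] in
theorem Cyc_ind {σ : M2 ≃ₐ[M] M2} (h3 : ∀ x, σ (σ (σ x)) = x) (h1 : σ ≠ 1) (c d : M2) :
    ∃ x, x + c * σ x + d * σ (σ x) ≠ 0 := by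
  by_contra hcon
  push Not at hcon
  let f : Fin 3 → (M2 →* M2) := ![MonoidHom.id M2, (σ : M2 →* M2), (σ : M2 →* M2).comp (σ : M2 →* M2)]
  have hne : ∃ x, σ x ≠ x := by
    by_contra h
    push Not at h
    exact h1 (AlgEquiv.ext h)
  obtain ⟨x0, hx0⟩ := hne
  have hf : Function.Injective f := by
    intro i j hij
    have e := DFunLike.congr_fun hij x0
    fin_cases i <;> fin_cases j <;> simp [f] at e ⊢
    · exact hx0 e.symm
    · apply hx0
      have := h3 x0
      rw [← e] at this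
      exact this
    · exact hx0 e
    · exact hx0 e.symm
    · apply hx0
      have := h3 x0
      rw [e] at this
      exact this
    · exact hx0 e
  have hl := (linearIndependent_monoidHom M2 M2).comp f hf
  rw [Fintype.linearIndependent_iff] at hl
  have h2 := hl ![1, c, d] (by
    funext x
    rw [Fin.sum_univ_three]
    simpa [f] using hcon x) 0
  simp at h2

omit [FiniteDimensional M M2] in
theorem hilbert {σ : M2 ≃ₐ[M] M2} (h3 : ∀ x, σ (σ (σ x)) = x) (h1 : σ ≠ 1) {c : M2}
    (hc : c * σ c * σ (σ c) = 1) : ∃ e : M2, e ≠ 0 ∧ c * e = σ e := by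
  obtain ⟨x, hx⟩ := Cyc_ind h3 h1 c (c * σ c)
  set e' := x + c * σ x + c * σ c * σ (σ x) with he'
  have h2 : c * σ e' = e' := by
    rw [he', map_add, map_add, map_mul, map_mul, map_mul, h3]
    linear_combination x * hc
  refine ⟨e'⁻¹, inv_ne_zero hx, ?_⟩
  rw [map_inv₀]
  have h4 : σ e' ≠ 0 := by
    rw [Ne, map_eq_zero_iff σ σ.injective]
    exact hx
  field_simp
  linear_combination h2

end H68TK
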