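import Pool.Agent.H68.TK.Df

/-!
ROW Nrm (norms; about 90 lines).  PROOF.
`norm_gen`: as `norm_up` in `Pool/Agent/H68/QS/Alg.lean` (end of the file): `Ω` an algebraic closure of `L2` (or of `K2`); restriction `(L2 →ₐ[K2] Ω) → (L →ₐ[K] Ω)` is injective by `hgen` (the set where two homomorphisms agree is a
subfield which contains `K2` and the image of `L`; see `adj_top`/`gen_mem` in `Pool/Agent/H68/IM/Sub.lean`), and bijective by cardinalities (`AlgHom.card`, `hfr`); then `Algebra.norm_eq_prod_embeddings` on both sides.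
`norm_conj`: `Algebra.norm_eq_of_equiv_equiv` (or `Algebra.norm_eq_of_ringEquiv` and the product formula).
`three_of_norm_cube`: `L/K` Galois; `algebraMap K L (Algebra.norm K t) = ∏ g, g t` (`Algebra.norm_eq_prod_automorphisms`); every factor has the same valuation as `t` (`Pool.Agent.H10.val_conj_of_unique`); so with `n = [L : K]`
`n * log (w t) = 3 * log (w r)` for `Algebra.norm K t = r ^ 3`, and `3 ∤ n`.
-/

set_option autoImplicit false
set_option linter.style.haveILetI false

open IsDedekindDomain NumberField WithZero Pool.Agent.H10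

namespace H68TK

theorem norm_gen {K L K2 L2 : Type} [Field K] [NumberField K] [Field L] [NumberField L]
    [Field K2] [NumberField K2] [Field L2] [NumberField L2]
    [Algebra K L] [Algebra K K2] [Algebra K L2] [Algebra L L2] [Algebra K2 L2]
    [IsScalarTower K L L2] [IsScalarTower K K2 L2]
    (hfr : Module.finrank K2 L2 = Module.finrank K L)
    (hgen : IntermediateField.adjoin K2 (Set.range (algebraMap L L2)) = ⊤) (t : L) :
    Algebra.norm K2 (algebraMap L L2 t) = algebraMap K K2 (Algebra.norm K t) := by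
  classical
  let Ω := AlgebraicClosure L2
  have : IsScalarTower K L2 Ω := inferInstance
  have : IsScalarTower K2 L2 Ω := inferInstance
  have : IsScalarTower K K2 Ω := IsScalarTower.of_algebraMap_eq fun x => by
    rw [IsScalarTower.algebraMap_apply K2 L2 Ω, ← IsScalarTower.algebraMap_apply K K2 L2,
      ← IsScalarTower.algebraMap_apply K L2 Ω]
  apply (algebraMap K2 Ω).injective
  rw [← IsScalarTower.algebraMap_apply K K2 Ω, Algebra.norm_eq_prod_embeddings K2 Ω,
    Algebra.norm_eq_prod_embeddings K Ω]
  let R : (L2 →ₐ[K2] Ω) → (L →ₐ[K] Ω) := fun τ =>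
    (τ.restrictScalars K).comp (IsScalarTower.toAlgHom K L L2)
  have hR : Function.Injective R := by
    intro τ τ' h
    have hL : ∀ a : L, τ (algebraMap L L2 a) = τ' (algebraMap L L2 a) := fun a =>
      congrArg (fun g : L →ₐ[K] Ω => g a) h
    ext w
    exact H68IM.gen_mem hgen ((τ : L2 →+* Ω).eqLocusField (τ' : L2 →+* Ω))
      (fun b => (τ.commutes b).trans (τ'.commutes b).symm)
      (by rintro _ ⟨a, rfl⟩; exact hL a) w
  have hcard : Fintype.card (L2 →ₐ[K2] Ω) = Fintype.card (L →ₐ[K] Ω) := by
    rw [AlgHom.card, AlgHom.card, hfr]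
  have hbij : Function.Bijective R :=
    (Fintype.bijective_iff_injective_and_card R).mpr ⟨hR, hcard⟩
  exact Fintype.prod_bijective R hbij _ _ (fun τ => rfl)

theorem norm_conj {K2 L2 : Type} [Field K2] [NumberField K2] [Field L2] [NumberField L2]
    [Algebra K2 L2] (σ : L2 ≃+* L2) (τ : K2 ≃+* K2)
    (h : ∀ x : K2, σ (algebraMap K2 L2 x) = algebraMap K2 L2 (τ x)) (x : L2) :
    Algebra.norm K2 (σ x) = τ (Algebra.norm K2 x) := by
  have h1 := Algebra.norm_eq_of_equiv_equiv τ σ (by
    ext a
    exact (h a).symm) x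
  rw [h1, RingEquiv.apply_symm_apply]

theorem three_of_norm_cube {K L : Type} [Field K] [NumberField K] [Field L] [NumberField L]
    [Algebra K L] [IsGalois K L] (h3 : ¬ 3 ∣ Module.finrank K L) {w : HeightOneSpectrum (𝓞 L)}
    (hu : UniqueOver K L (w.asIdeal.under (𝓞 K))) {t : L} (ht : t ≠ 0)
    (hN : ∃ r : K, Algebra.norm K t = r ^ 3) : (3 : ℤ) ∣ log (w.valuation L t) := by
  classical
  obtain ⟨r, hr⟩ := hN
  have h1 := Algebra.norm_eq_prod_automorphisms K t
  have h2 : w.valuation L (algebraMap K L (Algebra.norm K t)) =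
      w.valuation L t ^ Module.finrank K L := by
    rw [h1, map_prod, Finset.prod_congr rfl fun σ _ => val_conj_of_unique σ w hu t,
      Finset.prod_const, Finset.card_univ, ← Nat.card_eq_fintype_card,
      IsGalois.card_aut_eq_finrank K L]
  rw [hr, map_pow, map_pow] at h2
  have h3' : (3 : ℤ) * log (w.valuation L (algebraMap K L r)) =
      (Module.finrank K L : ℤ) * log (w.valuation L t) := by
    have h4 := congrArg log h2
    rw [log_pow, log_pow] at h4
    simpa using h4
  have h5 : (3 : ℤ) ∣ (Module.finrank K L : ℤ) * log (w.valuation L t) := ⟨_, h3'.symm⟩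
  rcases Int.prime_three.dvd_or_dvd h5 with h6 | h6
  · exact absurd (by exact_mod_cast h6) h3
  · exact h6

end H68TK
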