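import Pool.Agent.H68.TK.Cyc

/-!
ROW Ram (ramified primes divide `m`; about 120 lines).  PROOF.
`hd` and `W` over `w`, `3 ∣ e(W/w)`. `M2/M` is Galois of degree three with group `G = M2 ≃ₐ[M] M2` acting on `𝓞 M2`: `g e f = 3` (`Ideal.ncard_primesOver_mul_ramificationIdxIn_mul_inertiaDegIn`; see the use in `QS/Uni.lean`), so
`e = 3`, `f = 1`, and the inertia group of `W` has order `e = 3` (`Ideal.card_inertia_eq_ramificationIdxIn`, residue fields are finite), so it is all of `G`: `g x - x ∈ W` for all `g ∈ G`, `x ∈ 𝓞 M2`.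
(Or directly: `W` is the only prime over `w`, `f = 1`, so `σ` acts trivially on `𝓞 M2 / W`, of the same cardinality as `𝓞 M / w`: every `x ∈ 𝓞 M2` is `y + z`, `y ∈ 𝓞 M`, `z ∈ W`, and `σ z ∈ W` since `σ W = W`.)
Take `σ ≠ 1` (`exists_sigma`). `σ` as a `K`-automorphism of `M2` maps `K2` to itself (`K2/K` normal: `AlgEquiv.restrictNormal`), giving `τ : K2 ≃ₐ[K] K2`, `algebraMap K2 M2 (τ x) = σ (algebraMap K2 M2 x)`; `τ ≠ 1`, otherwise `σ` would
fix the image of `K2` and `M`, so everything (`hgen`). By `hd` there is `c` with `(τ δ - δ) c = m`; the image of `τ δ - δ` in `𝓞 M2` is `σ δ' - δ' ∈ W` (`δ'` the image of `δ`), so `m ∈ W`, and `m ∈ w` as `W` lies over `w`.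
-/

set_option autoImplicit false
set_option linter.style.haveILetI false

open IsDedekindDomain NumberField WithZero Pool.Agent.H10

namespace H68TK

private lemma Ram_inertia {M M2 : Type} [Field M] [NumberField M]
    [Field M2] [NumberField M2] [Algebra M M2] [IsGalois M M2]
    (h3 : Module.finrank M M2 = 3) {w : HeightOneSpectrum (𝓞 M)}
    {W : HeightOneSpectrum (𝓞 M2)} [W.asIdeal.LiesOver w.asIdeal]
    (hr : 3 ∣ w.asIdeal.ramificationIdx' W.asIdeal) (σ : M2 ≃ₐ[M] M2) (x : 𝓞 M2) :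
    σ • x - x ∈ W.asIdeal := by
  have hfin : Finite (𝓞 M ⧸ w.asIdeal) := Ring.HasFiniteQuotients.finiteQuotient w.ne_bot
  have h1 : Nat.card (W.asIdeal.inertia (M2 ≃ₐ[M] M2)) = w.asIdeal.ramificationIdxIn (𝓞 M2) :=
    Ideal.card_inertia_eq_ramificationIdxIn (G := M2 ≃ₐ[M] M2) w.asIdeal W.asIdeal
  rw [Ideal.ramificationIdxIn_eq_ramificationIdx w.asIdeal W.asIdeal (M2 ≃ₐ[M] M2),
    ← Ideal.ramificationIdx'_eq_ramificationIdx w.asIdeal W.asIdeal w.ne_bot] at h1
  rw [← h1] at hr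
  have hG : Nat.card (M2 ≃ₐ[M] M2) = 3 := by rw [IsGalois.card_aut_eq_finrank, h3]
  have hle : 3 ≤ Nat.card (W.asIdeal.inertia (M2 ≃ₐ[M] M2)) := Nat.le_of_dvd Nat.card_pos hr
  have htop : W.asIdeal.inertia (M2 ≃ₐ[M] M2) = ⊤ := by
    apply Subgroup.eq_top_of_le_card
    rw [hG]
    exact hle
  have hm : σ ∈ W.asIdeal.inertia (M2 ≃ₐ[M] M2) := by rw [htop]; trivial
  exact hm x

theorem mem_of_ram {K M K2 M2 : Type} [Field K] [NumberField K] [Field M] [NumberField M]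
    [Field K2] [NumberField K2] [Field M2] [NumberField M2]
    [Algebra K M] [Algebra K K2] [Algebra K M2] [Algebra M M2] [Algebra K2 M2]
    [IsScalarTower K M M2] [IsScalarTower K K2 M2] [IsGalois K K2] [IsGalois M M2]
    (h3 : Module.finrank M M2 = 3)
    (hgen : IntermediateField.adjoin M (Set.range (algebraMap K2 M2)) = ⊤)
    {δ : 𝓞 K2} {m : ℤ} (hd : Dlt K K2 δ m) {w : HeightOneSpectrum (𝓞 M)}
    {W : HeightOneSpectrum (𝓞 M2)} [W.asIdeal.LiesOver w.asIdeal]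
    (hr : 3 ∣ w.asIdeal.ramificationIdx' W.asIdeal) : (m : 𝓞 M) ∈ w.asIdeal := by
  obtain ⟨σ, hσ⟩ := exists_sigma (M := M) (M2 := M2) h3
  let τ : K2 ≃ₐ[K] K2 := (σ.restrictScalars K).restrictNormal K2
  have hτ : ∀ x : K2, algebraMap K2 M2 (τ x) = σ (algebraMap K2 M2 x) := fun x =>
    AlgEquiv.restrictNormal_commutes (σ.restrictScalars K) K2 x
  have hτ1 : τ ≠ 1 := by
    intro h1
    apply hσ
    have hfix : ∀ y ∈ IntermediateField.adjoin M (Set.range (algebraMap K2 M2)), σ y = y := by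
      intro y hy
      induction hy using IntermediateField.adjoin_induction with
      | mem x hx =>
        obtain ⟨z, rfl⟩ := hx
        rw [← hτ, h1]
        rfl
      | algebraMap x => exact σ.commutes x
      | add x y _ _ hx hy => rw [map_add, hx, hy]
      | inv x _ hx => rw [map_inv₀, hx]
      | mul x y _ _ hx hy => rw [map_mul, hx, hy]
    refine AlgEquiv.ext fun y => ?_
    have hy : y ∈ IntermediateField.adjoin M (Set.range (algebraMap K2 M2)) := by
      rw [hgen]; trivial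
    exact hfix y hy
  obtain ⟨c, hc⟩ := hd τ hτ1
  have h1 := Ram_inertia h3 hr σ (algebraMap (𝓞 K2) (𝓞 M2) δ)
  have hcoe : ∀ x : 𝓞 K2, algebraMap (𝓞 M2) M2 (algebraMap (𝓞 K2) (𝓞 M2) x)
      = algebraMap K2 M2 (x : K2) := fun x => rfl
  have h2 : (σ • algebraMap (𝓞 K2) (𝓞 M2) δ - algebraMap (𝓞 K2) (𝓞 M2) δ)
      * algebraMap (𝓞 K2) (𝓞 M2) c = (m : 𝓞 M2) := by
    apply RingOfIntegers.coe_injective
    have h4 : algebraMap (𝓞 M2) M2 (σ • algebraMap (𝓞 K2) (𝓞 M2) δ)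
        = σ (algebraMap K2 M2 (δ : K2)) := rfl
    rw [map_mul, map_sub, hcoe, hcoe, h4, ← hτ, ← map_sub, ← map_mul, hc]
    simp
  have h5 : (m : 𝓞 M2) ∈ W.asIdeal := by
    rw [← h2]
    exact W.asIdeal.mul_mem_right _ h1
  have h6 : w.asIdeal = W.asIdeal.under (𝓞 M) := Ideal.LiesOver.over
  rw [h6, Ideal.under_def, Ideal.mem_comap, map_intCast]
  exact h5

end H68TK
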