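import Pool.Agent.H68.TK.Df

/-!
ROW Sga (automorphisms in a diagram `K ⊆ C ⊆ C2`, `K ⊆ K2 ⊆ C2`; about 120 lines).  PROOF.
`comm_gen`: the set of `x` with `g (σ x) = σ (g x)` is a subfield of `C2`; it contains the image of `C` (`σ` is the identity there, and `g` maps the image of `C` to itself, `C/K` normal: `AlgEquiv.restrictNormal` of
`g.restrictScalars K`) and the image of `K2` (`g` is the identity there, `σ` maps the image of `K2` to itself). With `hgen` it is everything (`H68IM.gen_mem`, `Pool/Agent/H68/IM/Sub.lean`).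
`prod_up`: restriction `r : (C2 ≃ₐ[K2] C2) → (C ≃ₐ[K] C)`, `g ↦ (g.restrictScalars K).restrictNormal C`, `algebraMap C C2 (r g x) = g (algebraMap C C2 x)`, is injective by `hgen2`, and bijective by cardinalities
(`IsGalois.card_aut_eq_finrank`, `hfr`). `g` fixes the image of `s` iff `r g` fixes `s`. So `Finset.prod_bij`/`Fintype.prod_bijective`-style reindexing.
`mu3_fix`: `z^3 = 1`: `z = 1` or `z^2 + z + 1 = 0`, and then `(2 z + 1)^2 = -3 = s^2`, so `2 z + 1 = ± s` and `g` fixes `z` (characteristic zero).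
-/

set_option autoImplicit false
open scoped Classical

open IsDedekindDomain NumberField Finset

namespace H68TK

private theorem Sga_res (K0 : Type) {E B F : Type} [Field K0] [Field E] [Field B] [Field F]
    [Algebra K0 E] [Algebra K0 B] [Algebra K0 F] [Algebra E F] [Algebra B F]
    [IsScalarTower K0 E F] [IsScalarTower K0 B F] [IsGalois K0 E] (g : F ≃ₐ[B] F) (b : E) :
    algebraMap E F ((g.restrictScalars K0).restrictNormal E b) = g (algebraMap E F b) :=
  AlgEquiv.restrictNormal_commutes (g.restrictScalars K0) E b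

section

variable {K C K2 C2 : Type} [Field K] [NumberField K] [Field C] [NumberField C]
  [Field K2] [NumberField K2] [Field C2] [NumberField C2]
  [Algebra K C] [Algebra K K2] [Algebra K C2] [Algebra C C2] [Algebra K2 C2]
  [IsScalarTower K C C2] [IsScalarTower K K2 C2]

theorem comm_gen [IsGalois K K2] [IsGalois K C]
    (hgen : IntermediateField.adjoin C (Set.range (algebraMap K2 C2)) = ⊤)
    (σ : C2 ≃ₐ[C] C2) (g : C2 ≃ₐ[K2] C2) (x : C2) : g (σ x) = σ (g x) := by
  let M : Subfield C2 :=
    RingHom.eqLocusField ((g : C2 →+* C2).comp (σ : C2 →+* C2)) ((σ : C2 →+* C2).comp (g : C2 →+* C2))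
  have hM : ∀ y, y ∈ M ↔ g (σ y) = σ (g y) := fun y => Iff.rfl
  have h : x ∈ M := by
    refine H68IM.gen_mem hgen M ?_ ?_ x
    · intro b
      rw [hM, σ.commutes, ← Sga_res K g b, σ.commutes]
    · rintro _ ⟨b, rfl⟩
      change algebraMap K2 C2 b ∈ M
      rw [hM, g.commutes, ← Sga_res K σ b, g.commutes]
  exact (hM x).1 h

theorem prod_up [IsGalois K C] [IsGalois K2 C2]
    (hfr : Module.finrank K2 C2 = Module.finrank K C)
    (hgen2 : IntermediateField.adjoin K2 (Set.range (algebraMap C C2)) = ⊤) (s t : C) :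
    algebraMap C C2 (∏ g ∈ univ.filter (fun g : C ≃ₐ[K] C => g s = s), g t) =
      ∏ g ∈ univ.filter (fun g : C2 ≃ₐ[K2] C2 => g (algebraMap C C2 s) = algebraMap C C2 s),
        g (algebraMap C C2 t) := by
  let r : (C2 ≃ₐ[K2] C2) → (C ≃ₐ[K] C) := fun g => (g.restrictScalars K).restrictNormal C
  have hr : ∀ g b, algebraMap C C2 (r g b) = g (algebraMap C C2 b) := fun g b => Sga_res K g b
  have hinj : Function.Injective r := by
    intro g g' hgg
    have key : ∀ x, g x = g' x := by
      intro x
      let M : Subfield C2 := RingHom.eqLocusField (g : C2 →+* C2) (g' : C2 →+* C2)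
      have hM : ∀ y, y ∈ M ↔ g y = g' y := fun y => Iff.rfl
      refine (hM x).1 (H68IM.gen_mem hgen2 M ?_ ?_ x)
      · intro b
        rw [hM, g.commutes, g'.commutes]
      · rintro _ ⟨b, rfl⟩
        change algebraMap C C2 b ∈ M
        rw [hM, ← hr g b, ← hr g' b, hgg]
    exact AlgEquiv.ext key
  have hcard : Fintype.card (C2 ≃ₐ[K2] C2) = Fintype.card (C ≃ₐ[K] C) := by
    rw [← Nat.card_eq_fintype_card, ← Nat.card_eq_fintype_card, IsGalois.card_aut_eq_finrank,
      IsGalois.card_aut_eq_finrank, hfr]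
  have hbij : Function.Bijective r := (Fintype.bijective_iff_injective_and_card r).2 ⟨hinj, hcard⟩
  rw [map_prod]
  symm
  refine Finset.prod_bij (fun g _ => r g) ?_ ?_ ?_ ?_
  · intro g hg
    rw [Finset.mem_filter] at hg ⊢
    refine ⟨Finset.mem_univ _, ?_⟩
    apply (algebraMap C C2).injective
    rw [hr, hg.2]
  · intro g _ g' _ h
    exact hinj h
  · intro g' hg'
    obtain ⟨g, rfl⟩ := hbij.2 g'
    refine ⟨g, ?_, rfl⟩
    rw [Finset.mem_filter] at hg' ⊢
    refine ⟨Finset.mem_univ _, ?_⟩
    rw [← hr, hg'.2]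
  · intro g _
    exact (hr g t).symm

end

theorem mu3_fix {C : Type} [Field C] [CharZero C] (g : C ≃+* C) {s z : C} (hs : s ^ 2 = -3)
    (hg : g s = s) (hz : z ^ 3 = 1) : g z = z := by
  by_cases h1 : z = 1
  · rw [h1, map_one]
  · have h2 : z ^ 2 + z + 1 = 0 := by
      have : (z - 1) * (z ^ 2 + z + 1) = 0 := by linear_combination hz
      rcases mul_eq_zero.1 this with h | h
      · exact absurd (sub_eq_zero.1 h) h1
      · exact h
    have h3 : (2 * z + 1 - s) * (2 * z + 1 + s) = 0 := by linear_combination 4 * h2 - hs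
    have h4 : g (2 * z + 1) = 2 * z + 1 := by
      rcases mul_eq_zero.1 h3 with h | h
      · rw [sub_eq_zero.1 h, hg]
      · rw [eq_neg_of_add_eq_zero_left h, map_neg, hg]
    rw [map_add, map_mul, map_one, map_ofNat] at h4
    have h5 : (2 : C) * g z = 2 * z := add_right_cancel h4
    exact mul_left_cancel₀ two_ne_zero h5

end H68TK
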