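import Pool.Agent.H68.TK.Sgb

/-!
ROW Sgc (adjoining `√-3`, diagrams; about 120 lines; use the statements of `Sgb.lean`).  PROOF.
`lift_J`: `neg_s` for `L2, C2` gives `J2` with `J2 s2 = -s2` (`s2` the image of `s`); `J2 (algebraMap x) = algebraMap (J x)` holds for `x` in a subfield of `C` which contains `L` (both sides `algebraMap x`: `J`, `J2` are the identity
there) and `s`; `H68IM.gen_mem`.
`mem_L_of_fix`: `J x = x` and `J s = -s`. The set of all `a + b s` with `a, b ∈ L` is a subfield (or: `C` has dimension at most two over `L`), so `x = a + b s` and `J x = a - b s`, so `2 b s = 0`, `b = 0`. (Or: `C/L` is Galois and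
`Gal(C/L)` consists of `1` and `J` (`gen_s`: `g s = ± s`), so an element fixed by `J` is in the image of `L`.)
`cube_down`: `V ∈ L`, `algebraMap L C2 V = y^3`. Take norms from `C2` to `L2` (`[C2 : L2] = 2`): `V^2 = (norm y)^3` in `L2`, so `V = V^3 / V^2 = (V / norm y)^3` in `L2` (`V ≠ 0`; `V = 0` trivial), so
`V = z^3`, `z ∈ L2`. For every `g ∈ Gal(L2/L)`: `(g z / z)^3 = 1`, so `g z = z` (`hμ`), and `z ∈ L` (`IsGalois.mem_range_algebraMap_iff_fixed`).
-/

set_option autoImplicit false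
open scoped Classical

open IsDedekindDomain NumberField Finset

namespace H68TK

theorem Sgc_ab {L C : Type} [Field L] [NumberField L] [Field C] [NumberField C] [Algebra L C]
    {s : C} (hs : s ^ 2 = -3) (hgen : IntermediateField.adjoin L {s} = ⊤) (x : C) :
    ∃ a b : L, x = algebraMap L C a + algebraMap L C b * s := by
  have hint : IsAlgebraic L s := Algebra.IsAlgebraic.isAlgebraic s
  have h1 : x ∈ Algebra.adjoin L ({s} : Set C) := by
    rw [← IntermediateField.adjoin_simple_toSubalgebra_of_isAlgebraic hint, hgen]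
    exact Algebra.mem_top
  induction h1 using Algebra.adjoin_induction with
  | mem y hy =>
    rw [Set.mem_singleton_iff] at hy
    exact ⟨0, 1, by rw [hy]; simp⟩
  | algebraMap r => exact ⟨r, 0, by simp⟩
  | add y z _ _ hy hz =>
    obtain ⟨a, b, rfl⟩ := hy
    obtain ⟨c, d, rfl⟩ := hz
    exact ⟨a + c, b + d, by rw [map_add, map_add]; ring⟩
  | mul y z _ _ hy hz =>
    obtain ⟨a, b, rfl⟩ := hy
    obtain ⟨c, d, rfl⟩ := hz
    refine ⟨a * c - 3 * (b * d), a * d + b * c, ?_⟩
    rw [map_sub, map_add, map_mul, map_mul, map_mul, map_mul, map_mul, map_ofNat]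
    linear_combination (algebraMap L C b * algebraMap L C d) * hs

section one

variable {K L C : Type} [Field K] [NumberField K] [Field L] [NumberField L] [Field C]
  [NumberField C] [Algebra K L] [Algebra L C] [Algebra K C] [IsScalarTower K L C]

theorem mem_L_of_fix {s : C} (hs : s ^ 2 = -3) (hgen : IntermediateField.adjoin L {s} = ⊤)
    {J : C ≃ₐ[L] C} (hJ : J s = -s) {x : C} (hx : J x = x) : ∃ y : L, algebraMap L C y = x := by
  obtain ⟨a, b, rfl⟩ := Sgc_ab hs hgen x
  refine ⟨a, ?_⟩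
  rw [map_add, map_mul, AlgEquiv.commutes, AlgEquiv.commutes, hJ] at hx
  have h2 : (2 : C) ≠ 0 := two_ne_zero
  have h3 : algebraMap L C b * s = 0 := by
    apply mul_left_cancel₀ h2
    linear_combination -hx
  rw [h3, add_zero]

end one

section two

variable {L C L2 C2 : Type} [Field L] [NumberField L] [Field C] [NumberField C]
  [Field L2] [NumberField L2] [Field C2] [NumberField C2]
  [Algebra L C] [Algebra L L2] [Algebra L C2] [Algebra C C2] [Algebra L2 C2]
  [IsScalarTower L C C2] [IsScalarTower L L2 C2]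

theorem lift_J {s : C} (hs : s ^ 2 = -3) (hgen : IntermediateField.adjoin L {s} = ⊤)
    (hgen2 : IntermediateField.adjoin L2 {algebraMap C C2 s} = ⊤)
    (h0 : ∀ z : L2, z ^ 2 ≠ -3) {J : C ≃ₐ[L] C} (hJ : J s = -s) :
    ∃ J2 : C2 ≃ₐ[L2] C2, J2 (algebraMap C C2 s) = -algebraMap C C2 s ∧
      ∀ x : C, J2 (algebraMap C C2 x) = algebraMap C C2 (J x) := by
  have hs2 : (algebraMap C C2 s) ^ 2 = -3 := by
    rw [← map_pow, hs, map_neg, map_ofNat]
  obtain ⟨J2, hJ2⟩ := neg_s hs2 hgen2 h0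
  refine ⟨J2, hJ2, fun x => ?_⟩
  have hL : ∀ a : L, J2 (algebraMap C C2 (algebraMap L C a)) =
      algebraMap C C2 (algebraMap L C a) := by
    intro a
    rw [← IsScalarTower.algebraMap_apply L C C2, IsScalarTower.algebraMap_apply L L2 C2,
      AlgEquiv.commutes]
  obtain ⟨a, b, rfl⟩ := Sgc_ab hs hgen x
  rw [map_add, map_mul, map_add, map_mul, hL, hL, hJ2, map_add, map_mul, AlgEquiv.commutes,
    AlgEquiv.commutes, hJ, map_add, map_mul, map_neg]

theorem cube_down [IsGalois L L2] {s2 : C2} (hs : s2 ^ 2 = -3)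
    (hgen2 : IntermediateField.adjoin L2 {s2} = ⊤) (h0 : ∀ z : L2, z ^ 2 ≠ -3)
    (hμ : ∀ z : L2, z ^ 3 = 1 → z = 1) {V : L} {y : C2} (hV : algebraMap L C2 V = y ^ 3) :
    ∃ z : L, V = z ^ 3 := by
  by_cases hV0 : V = 0
  · exact ⟨0, by rw [hV0]; ring⟩
  have h2 := finrank_s hs hgen2 h0
  set V' : L2 := algebraMap L L2 V with hV'
  have hV'0 : V' ≠ 0 := by
    rw [hV', Ne, map_eq_zero]
    exact hV0
  have h3 : V' ^ 2 = (Algebra.norm L2 y) ^ 3 := by
    have h4 : (Algebra.norm L2 y) ^ 3 = Algebra.norm L2 (y ^ 3) := (map_pow _ y 3).symm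
    rw [h4, ← hV, IsScalarTower.algebraMap_apply L L2 C2, Algebra.norm_algebraMap, h2]
  set N := Algebra.norm L2 y with hN
  have hN0 : N ≠ 0 := by
    intro h
    rw [h] at h3
    apply hV'0
    have : V' ^ 2 = 0 := by rw [h3]; ring
    exact pow_eq_zero_iff (two_ne_zero) |>.1 this
  have hz : V' = (V' / N) ^ 3 := by
    rw [div_pow, ← h3]
    field_simp
  have hz0 : V' / N ≠ 0 := div_ne_zero hV'0 hN0
  have hfix : ∀ g : L2 ≃ₐ[L] L2, g (V' / N) = V' / N := by
    intro g
    have h4 : (g (V' / N)) ^ 3 = (V' / N) ^ 3 := by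
      rw [← map_pow, ← hz, hV', AlgEquiv.commutes]
    have h5 := hμ (g (V' / N) / (V' / N)) (by
      rw [div_pow, h4, div_self (pow_ne_zero 3 hz0)])
    rwa [div_eq_one_iff_eq hz0] at h5
  obtain ⟨z, hzz⟩ := (IsGalois.mem_range_algebraMap_iff_fixed (F := L) (V' / N)).2 hfix
  refine ⟨z, (algebraMap L L2).injective ?_⟩
  rw [map_pow, hzz, ← hz]

end two

end H68TK
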