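import Pool.Agent.H68.TK.Cyc

/-!
# MP_78d38b: the skeleton of the cubic step
-/

set_option autoImplicit false

namespace H68TK

/-- A set `A` of nonzero elements which is closed under `x ↦ σ x / x` and whose elements invariant
modulo cubes are cubes consists of cubes. -/
theorem skeleton {F : Type*} [Field F] (σ : F → F) (hdiv : ∀ x y, σ (x / y) = σ x / σ y)
    (h3 : ∀ x, σ (σ (σ x)) = x) (A : F → Prop) (h0 : ∀ x, A x → x ≠ 0)
    (hσ : ∀ x, A x → A (σ x / x))
    (hfix : ∀ x c, A x → σ x = x * c ^ 3 → ∃ y, x = y ^ 3) (x : F) (hx : A x) :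
    ∃ y, x = y ^ 3 := by
  have h1 := hσ x hx
  have h2 := hσ _ h1
  have e0 := h0 x hx
  have e1 := h0 _ h1
  have e2 := h0 _ h2
  have hσ0 : σ x ≠ 0 := fun h => e1 (by rw [h, zero_div])
  have hσσ0 : σ (σ x) ≠ 0 := by
    intro h
    apply e2
    rw [hdiv, h]
    simp
  obtain ⟨y, hy⟩ := hfix _ (σ x / σ (σ x)) h2 (by
    rw [hdiv, hdiv, hdiv, h3]
    field_simp)
  obtain ⟨z, hz⟩ := hfix _ y h1 (by rw [← hy]; field_simp)
  exact hfix x z hx (by rw [← hz]; field_simp)

end H68TK
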