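import Pool.Agent.H68.TK.Skel
import Pool.Agent.H68.TK.Ram
import Pool.Agent.H68.TK.Nrm
import Pool.Agent.H68.TK.Loc

/-!
# MP_78d38b: the cubic step, real side
-/

set_option autoImplicit false
set_option linter.style.haveILetI false

open IsDedekindDomain NumberField WithZero Pool.Agent.H10 H55T3

namespace H68TK

section

variable {F : Type} [Field F] [NumberField F]

lemma three_dvd_log_mul {w : HeightOneSpectrum (𝓞 F)} {x y : F} (hx : x ≠ 0) (hy : y ≠ 0)
    (h1 : (3 : ℤ) ∣ log (w.valuation F x)) (h2 : (3 : ℤ) ∣ log (w.valuation F y)) :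
    (3 : ℤ) ∣ log (w.valuation F (x * y)) := by
  rw [map_mul, log_mul ((Valuation.ne_zero_iff _).mpr hx) ((Valuation.ne_zero_iff _).mpr hy)]
  exact dvd_add h1 h2

lemma three_dvd_log_div {w : HeightOneSpectrum (𝓞 F)} {x y : F} (hx : x ≠ 0) (hy : y ≠ 0)
    (h1 : (3 : ℤ) ∣ log (w.valuation F x)) (h2 : (3 : ℤ) ∣ log (w.valuation F y)) :
    (3 : ℤ) ∣ log (w.valuation F (x / y)) := by
  rw [map_div₀, log_div ((Valuation.ne_zero_iff _).mpr hx) ((Valuation.ne_zero_iff _).mpr hy)]
  exact dvd_sub h1 h2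

lemma three_dvd_log_pow {w : HeightOneSpectrum (𝓞 F)} (x : F) :
    (3 : ℤ) ∣ log (w.valuation F (x ^ 3)) := by
  rw [map_pow, log_pow, nsmul_eq_mul]
  exact dvd_mul_right _ _

end

section

variable {K L K2 L2 : Type} [Field K] [NumberField K] [Field L] [NumberField L]
  [Field K2] [NumberField K2] [Field L2] [NumberField L2]
  [Algebra K L] [Algebra K K2] [Algebra K L2] [Algebra L L2] [Algebra K2 L2]
  [IsScalarTower K L L2] [IsScalarTower K K2 L2]

/-- Valuations divisible by three descend away from `m`. -/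
lemma three_dvd_or [IsGalois K K2] [IsGalois L L2] (h3 : Module.finrank L L2 = 3)
    (hgen : IntermediateField.adjoin L (Set.range (algebraMap K2 L2)) = ⊤)
    {δ : 𝓞 K2} {m : ℤ} (hd : Dlt K K2 δ m) {t : L} (w : HeightOneSpectrum (𝓞 L))
    (hW : ∀ W : HeightOneSpectrum (𝓞 L2), (3 : ℤ) ∣ log (W.valuation L2 (algebraMap L L2 t))) :
    (m : 𝓞 L) ∈ w.asIdeal ∨ (3 : ℤ) ∣ log (w.valuation L t) := by
  obtain ⟨W, hWw⟩ := H68QS.exists_over (L2 := L2) w
  by_cases hr : 3 ∣ w.asIdeal.ramificationIdx' W.asIdeal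
  · exact Or.inl (mem_of_ram (K := K) (K2 := K2) h3 hgen hd hr)
  · right
    have h1 := hW W
    rw [← HeightOneSpectrum.valuation_liesOver (K := L) L2 w W, log_pow, nsmul_eq_mul] at h1
    rcases Int.prime_three.dvd_or_dvd h1 with h2 | h2
    · exfalso
      apply hr
      exact_mod_cast h2
    · exact h2

/-- The cubic step on the real side. -/
theorem noNewCube_cubic [IsGalois K L] [IsGalois K K2] [IsGalois L L2] [IsGalois K2 L2]
    (hfr : Module.finrank K2 L2 = Module.finrank K L) (h3L : Module.finrank L L2 = 3)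
    (hn3 : ¬ 3 ∣ Module.finrank K L)
    (hgen : IntermediateField.adjoin L (Set.range (algebraMap K2 L2)) = ⊤)
    (hgen2 : IntermediateField.adjoin K2 (Set.range (algebraMap L L2)) = ⊤)
    (hμ : ∀ z : L2, z ^ 3 = 1 → z = 1)
    {δ : 𝓞 K2} {m : ℤ} (hd : Dlt K K2 δ m)
    (hbad : ∀ v : HeightOneSpectrum (𝓞 K), (m : 𝓞 K) ∈ v.asIdeal → UniqueOver K L v.asIdeal)
    (hunr : Unr3 L2) (R : NoNewCube K L) : NoNewCube K2 L2 := by
  obtain ⟨σ, hσ1⟩ := exists_sigma h3L
  have hσ3 := sigma_cube h3L σ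
  -- the restriction to `K2`
  let τ : K2 ≃ₐ[K] K2 := (σ.restrictScalars K).restrictNormal K2
  have hτ : ∀ x : K2, σ (algebraMap K2 L2 x) = algebraMap K2 L2 (τ x) := fun x =>
    (AlgEquiv.restrictNormal_commutes (σ.restrictScalars K) K2 x).symm
  -- the set
  let A : L2 → Prop := fun x => x ≠ 0 ∧
    (∀ w : HeightOneSpectrum (𝓞 L2), (3 : ℤ) ∣ log (w.valuation L2 x)) ∧
    (∀ w : HeightOneSpectrum (𝓞 L2), (3 : 𝓞 L2) ∈ w.asIdeal →
      ∃ t : L2, w.valuation L2 (x * t ^ 3 - 1) ≤ w.valuation L2 9) ∧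
    (∃ y : K2, Algebra.norm K2 x = y ^ 3)
  have hA : ∀ x, A x → A (σ x / x) := by
    rintro x ⟨hx, hv, hl, y, hy⟩
    have hσx : σ x ≠ 0 := by rw [Ne, map_eq_zero]; exact hx
    refine ⟨div_ne_zero hσx hx, fun w => ?_, fun w hw => ?_, ?_⟩
    · refine three_dvd_log_div hσx hx ?_ (hv w)
      obtain ⟨w', h1, -⟩ := exists_conj σ w
      rw [h1]
      exact hv w'
    · obtain ⟨w', h1, h2⟩ := exists_conj σ w
      have hw' : (3 : 𝓞 L2) ∈ w'.asIdeal := by
        have := (h2 3).mpr (by rw [map_ofNat]; exact hw)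
        rwa [map_ofNat] at this
      obtain ⟨t, ht⟩ := hl w hw
      obtain ⟨t', ht'⟩ := hl w' hw'
      have h9 : w.valuation L2 9 < 1 := by
        have h3 := val_three_of_unram hw (hunr w hw)
        have e : (9 : L2) = 3 * 3 := by norm_num
        rw [e, map_mul, h3, ← exp_add, ← exp_zero, exp_lt_exp]
        norm_num
      have hxt : w.valuation L2 (x * t ^ 3) = 1 := by
        have e : x * t ^ 3 = (x * t ^ 3 - 1) + 1 := by ring
        rw [e, Valuation.map_add_eq_of_lt_right, map_one]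
        rw [map_one]
        exact ht.trans_lt h9
      have ht0 : t ≠ 0 := by
        rintro rfl
        rw [zero_pow three_ne_zero, mul_zero, map_zero] at hxt
        exact zero_ne_one hxt
      have ht2 : w.valuation L2 (σ x * (σ t') ^ 3 - 1) ≤ w.valuation L2 9 := by
        have e : σ x * (σ t') ^ 3 - 1 = σ (x * t' ^ 3 - 1) := by
          rw [map_sub, map_mul, map_pow, map_one]
        have e9 : w'.valuation L2 9 = w.valuation L2 9 := by rw [← h1, map_ofNat]
        rw [e, h1, ← e9]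
        exact ht'
      refine ⟨σ t' / t, ?_⟩
      have e : σ x / x * (σ t' / t) ^ 3 - 1 =
          ((σ x * (σ t') ^ 3 - 1) - (x * t ^ 3 - 1)) / (x * t ^ 3) := by
        field_simp
        ring
      rw [e, map_div₀, hxt, div_one]
      exact (Valuation.map_sub _ _ _).trans (max_le ht2 ht)
    · refine ⟨τ y / y, ?_⟩
      have h1 : Algebra.norm K2 (σ x) = τ (Algebra.norm K2 x) :=
        norm_conj (σ : L2 ≃+* L2) (τ : K2 ≃+* K2) hτ x
      have h2 : Algebra.norm K2 (σ x / x) * Algebra.norm K2 x = Algebra.norm K2 (σ x) := by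
        rw [← map_mul, div_mul_cancel₀ _ hx]
      have hNx : Algebra.norm K2 x ≠ 0 := by rw [Ne, Algebra.norm_eq_zero_iff]; exact hx
      rw [div_pow, ← map_pow, ← hy, ← h1, ← h2, mul_div_cancel_right₀ _ hNx]
  have hfix : ∀ x c, A x → σ x = x * c ^ 3 → ∃ y, x = y ^ 3 := by
    rintro x c ⟨hx, hv, hl, y, hy⟩ hc
    have hc3 : (c * σ c * σ (σ c)) ^ 3 = 1 := by
      have h1 : σ (σ x) = x * c ^ 3 * (σ c) ^ 3 := by rw [hc, map_mul, map_pow, hc]
      have h2 : σ (σ (σ x)) = x * c ^ 3 * (σ c) ^ 3 * (σ (σ c)) ^ 3 := by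
        rw [h1, map_mul, map_mul, map_pow, map_pow, hc]
      rw [hσ3] at h2
      have h4 : x * ((c * σ c * σ (σ c)) ^ 3 - 1) = 0 := by
        rw [mul_sub, mul_one, sub_eq_zero]
        rw [mul_pow, mul_pow]
        rw [show x * (c ^ 3 * (σ c) ^ 3 * (σ (σ c)) ^ 3) =
          x * c ^ 3 * (σ c) ^ 3 * (σ (σ c)) ^ 3 by ring]
        exact h2.symm
      rcases mul_eq_zero.mp h4 with h5 | h5
      · exact absurd h5 hx
      · exact sub_eq_zero.mp h5
    obtain ⟨e, he, hce⟩ := hilbert hσ3 hσ1 (hμ _ hc3)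
    have hc0 : c ≠ 0 := by
      rintro rfl
      rw [zero_mul] at hce
      exact he ((map_eq_zero σ).mp hce.symm)
    obtain ⟨t, ht⟩ := sigma_fix h3L hσ1 (x := x / e ^ 3) (by
      rw [map_div₀, map_pow, hc, ← hce]
      field_simp)
    have hxt : x = algebraMap L L2 t * e ^ 3 := by
      rw [ht]
      field_simp
    have ht0 : t ≠ 0 := by
      rintro rfl
      rw [map_zero, zero_mul] at hxt
      exact hx hxt
    have hat0 : algebraMap L L2 t ≠ 0 := by rw [Ne, map_eq_zero]; exact ht0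
    -- the norm of `t`
    have hNe : Algebra.norm K2 e ≠ 0 := by rw [Ne, Algebra.norm_eq_zero_iff]; exact he
    have hNt : ∃ r : K, Algebra.norm K t = r ^ 3 := by
      have h1 : algebraMap K K2 (Algebra.norm K t) = (y / Algebra.norm K2 e) ^ 3 := by
        rw [← norm_gen hfr hgen2, div_pow, ← hy, hxt, map_mul, map_pow]
        field_simp
      set r := y / Algebra.norm K2 e with hr
      have hr0 : r ≠ 0 := by
        rintro h0
        rw [h0, zero_pow three_ne_zero, map_eq_zero, Algebra.norm_eq_zero_iff] at h1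
        exact ht0 h1
      have hr1 : r ∈ Set.range (algebraMap K K2) := by
        rw [IsGalois.mem_range_algebraMap_iff_fixed]
        intro g
        have h2 : g (r ^ 3) = r ^ 3 := by rw [← h1, g.commutes]
        have h3 : (g r / r) ^ 3 = 1 := by
          rw [map_pow] at h2
          rw [div_pow, h2, div_self (pow_ne_zero 3 hr0)]
        have h4 : algebraMap K2 L2 (g r / r) = 1 := hμ _ (by rw [← map_pow, h3, map_one])
        rw [← map_one (algebraMap K2 L2)] at h4
        have h5 := (algebraMap K2 L2).injective h4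
        rwa [div_eq_one_iff_eq hr0] at h5
      obtain ⟨s, hs⟩ := hr1
      refine ⟨s, (algebraMap K K2).injective ?_⟩
      rw [h1, map_pow, hs]
    -- the valuations of `t`
    have hvt : ∀ w : HeightOneSpectrum (𝓞 L), (3 : ℤ) ∣ log (w.valuation L t) := by
      intro w
      have hbot : w.asIdeal.under (𝓞 K) ≠ ⊥ := Ideal.IsIntegral.comap_ne_bot _ w.ne_bot
      rcases three_dvd_or (K := K) (K2 := K2) h3L hgen hd (t := t) w (fun W => by
        have e1 : algebraMap L L2 t = x / e ^ 3 := by rw [hxt]; field_simp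
        rw [e1]
        exact three_dvd_log_div hx (pow_ne_zero 3 he) (hv W) (three_dvd_log_pow e)) with h | h
      · refine three_of_norm_cube hn3 (hbad ⟨w.asIdeal.under (𝓞 K), inferInstance, hbot⟩ ?_) ht0 hNt
        change algebraMap (𝓞 K) (𝓞 L) (m : 𝓞 K) ∈ w.asIdeal
        rw [map_intCast]
        exact h
      · exact h
    -- the local condition
    have hlt : ∀ w : HeightOneSpectrum (𝓞 L), (3 : 𝓞 L) ∈ w.asIdeal →
        ∃ t' : L, w.valuation L (t * t' ^ 3 - 1) ≤ w.valuation L 9 := by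
      intro w hw
      obtain ⟨W, hW⟩ := H68QS.exists_over (L2 := L2) w
      have h3W : (3 : 𝓞 L2) ∈ W.asIdeal := by
        rw [hW.over] at hw
        have : algebraMap (𝓞 L) (𝓞 L2) 3 ∈ W.asIdeal := hw
        rwa [map_ofNat] at this
      have hv3 := val_three_of_unram h3W (hunr W h3W)
      obtain ⟨t₁, ht₁⟩ := hl W h3W
      refine descend_three (w := w) (W := W) hv3 ht0 (hvt w) ⟨e * t₁, ?_⟩
      have e1 : algebraMap L L2 t * (e * t₁) ^ 3 - 1 = x * t₁ ^ 3 - 1 := by rw [hxt]; ring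
      rw [e1]
      exact ht₁
    obtain ⟨u, hu⟩ := R t ht0 hvt hlt hNt
    refine ⟨algebraMap L L2 u * e, ?_⟩
    rw [hxt, hu, map_pow, mul_pow]
  intro x hx hv hl hN
  exact skeleton (fun z => σ z) (fun a b => map_div₀ σ a b) hσ3 A (fun z hz => hz.1) hA hfix x
    ⟨hx, hv, hl, hN⟩

end

end H68TK
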