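import Pool.Agent.H68.TK.StepC
import Pool.Agent.H68.TK.Sga
import Pool.Agent.H68.TK.Sgc
import Pool.Agent.H55.T3.P1

/-!
# MP_78d38b: the cubic step, minus side
-/

set_option autoImplicit false
set_option linter.style.haveILetI false
open scoped Classical

open IsDedekindDomain NumberField WithZero Finset Pool.Agent.H10 H55T3

namespace H68TK

section

variable {K L C K2 L2 C2 : Type} [Field K] [NumberField K] [Field L] [NumberField L]
  [Field C] [NumberField C] [Field K2] [NumberField K2] [Field L2] [NumberField L2]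
  [Field C2] [NumberField C2]
  [Algebra K L] [Algebra L C] [Algebra K C] [IsScalarTower K L C]
  [Algebra K2 L2] [Algebra L2 C2] [Algebra K2 C2] [IsScalarTower K2 L2 C2]
  [Algebra K K2] [Algebra L L2] [Algebra C C2] [Algebra K C2] [Algebra L C2]
  [IsScalarTower K K2 C2] [IsScalarTower K C C2] [IsScalarTower L C C2] [IsScalarTower L L2 C2]

/-- The valuations of an element of `C`. -/
lemma minus_val [IsGalois K L] [IsGalois K K2] [IsGalois C C2] [IsGalois K C] [IsGalois L C]
    (h3C : Module.finrank C C2 = 3) (hodd : Odd (Module.finrank K L))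
    {s : C} (hs : s ^ 2 = -3) (hgen : IntermediateField.adjoin L {s} = ⊤)
    (hcard : ¬ 3 ∣ (univ.filter (fun g : C ≃ₐ[K] C => g s = s)).card)
    (hgenC : IntermediateField.adjoin C (Set.range (algebraMap K2 C2)) = ⊤)
    {δ : 𝓞 K2} {m : ℤ} (hd : Dlt K K2 δ m)
    (hbad : ∀ v : HeightOneSpectrum (𝓞 K), (m : 𝓞 K) ∈ v.asIdeal → UniqueOver K L v.asIdeal)
    {t : C} (ht : t ≠ 0)
    (hW : ∀ W : HeightOneSpectrum (𝓞 C2), (3 : ℤ) ∣ log (W.valuation C2 (algebraMap C C2 t)))
    (hN : ∃ y, ∏ g ∈ univ.filter (fun g : C ≃ₐ[K] C => g s = s), g t = y ^ 3)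
    (w : HeightOneSpectrum (𝓞 C)) : (3 : ℤ) ∣ log (w.valuation C t) := by
  rcases three_dvd_or (K := K) (K2 := K2) h3C hgenC hd (t := t) w hW with h | h
  · have hbot : w.asIdeal.under (𝓞 K) ≠ ⊥ := Ideal.IsIntegral.comap_ne_bot _ w.ne_bot
    have hu : UniqueOver K L (w.asIdeal.under (𝓞 K)) := by
      refine hbad ⟨w.asIdeal.under (𝓞 K), inferInstance, hbot⟩ ?_
      change algebraMap (𝓞 K) (𝓞 C) (m : 𝓞 K) ∈ w.asIdeal
      rw [map_intCast]
      exact h
    have hord : ∀ g : C ≃ₐ[K] C, g s = s → Odd (orderOf g) := by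
      intro g hg
      have h1 : g ^ Module.finrank K L = 1 := by
        have h2 : AlgEquiv.restrictNormalHom (F := K) (K₁ := C) L g ^ Module.finrank K L = 1 := by
          rw [← IsGalois.card_aut_eq_finrank K L]
          exact pow_card_eq_one'
        rw [← map_pow] at h2
        have h3 : ∀ x : L, (g ^ Module.finrank K L) (algebraMap L C x) = algebraMap L C x := by
          intro x
          have h4 := AlgEquiv.restrictNormal_commutes (g ^ Module.finrank K L) L x
          have h5 : (g ^ Module.finrank K L).restrictNormal L = 1 := h2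
          rw [h5] at h4
          exact h4.symm
        let g' : C ≃ₐ[L] C := { g ^ Module.finrank K L with commutes' := h3 }
        have h4 : g' = 1 := by
          apply gen_s hgen
          change (g ^ Module.finrank K L) s = s
          have : ∀ n : ℕ, (g ^ n) s = s := by
            intro n
            induction n with
            | zero => simp
            | succ n ih => rw [pow_succ', AlgEquiv.mul_apply, ih, hg]
          exact this _
        ext x
        have h6 : g' x = x := by rw [h4]; rfl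
        exact h6
      exact hodd.of_dvd_nat (orderOf_dvd_of_pow_eq_one h1)
    obtain ⟨y, hy⟩ := hN
    have hval : ∀ g : C ≃ₐ[K] C, g s = s → w.valuation C (g t) = w.valuation C t := fun g hg =>
      val_fix_pair (L := L) hs (fun g hg => gen_s hgen g hg) w hu (hord g hg) t
    have h1 := congrArg (fun z => log (w.valuation C z)) hy
    have h2 : w.valuation C (∏ g ∈ univ.filter (fun g : C ≃ₐ[K] C => g s = s), g t) =
        w.valuation C t ^ (univ.filter (fun g : C ≃ₐ[K] C => g s = s)).card := by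
      rw [map_prod, ← Finset.prod_const]
      exact Finset.prod_congr rfl fun g hg => hval g (Finset.mem_filter.mp hg).2
    simp only [h2, map_pow, log_pow, nsmul_eq_mul] at h1
    have h4 : (3 : ℤ) ∣ ((univ.filter (fun g : C ≃ₐ[K] C => g s = s)).card : ℤ) *
        log (w.valuation C t) := by
      rw [h1]
      exact dvd_mul_right _ _
    rcases Int.prime_three.dvd_or_dvd h4 with h5 | h5
    · exact absurd (by exact_mod_cast h5) hcard
    · exact h5
  · exact h

/-- The cubic step on the minus side. -/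
theorem noNewMinus_cubic [IsGalois K L] [IsGalois K K2] [IsGalois C C2] [IsGalois K C]
    [IsGalois L C] [IsGalois K2 C2] [IsGalois L L2] [IsGalois K2 L2]
    (h3C : Module.finrank C C2 = 3) (hodd : Odd (Module.finrank K L))
    (hfr : Module.finrank K2 C2 = Module.finrank K C)
    {s : C} (hs : s ^ 2 = -3) (hgen : IntermediateField.adjoin L {s} = ⊤)
    (hgen2 : IntermediateField.adjoin L2 {algebraMap C C2 s} = ⊤)
    (hcard : ¬ 3 ∣ (univ.filter (fun g : C ≃ₐ[K] C => g s = s)).card)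
    (hcard2 : ¬ 3 ∣ (univ.filter (fun g : C2 ≃ₐ[K2] C2 =>
      g (algebraMap C C2 s) = algebraMap C C2 s)).card)
    (hgenC : IntermediateField.adjoin C (Set.range (algebraMap K2 C2)) = ⊤)
    (hgenC2 : IntermediateField.adjoin K2 (Set.range (algebraMap C C2)) = ⊤)
    (h0 : ∀ z : L2, z ^ 2 ≠ -3) (hμ : ∀ z : L2, z ^ 3 = 1 → z = 1)
    {δ : 𝓞 K2} {m : ℤ} (hd : Dlt K K2 δ m)
    (hbad : ∀ v : HeightOneSpectrum (𝓞 K), (m : 𝓞 K) ∈ v.asIdeal → UniqueOver K L v.asIdeal)
    (R : NoNewMinus K L C s) : NoNewMinus K2 L2 C2 (algebraMap C C2 s) := by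
  set s2 := algebraMap C C2 s with hs2
  have hs2' : s2 ^ 2 = -3 := by rw [hs2, ← map_pow, hs, map_neg, map_ofNat]
  obtain ⟨σ, hσ1⟩ := exists_sigma h3C
  have hσ3 := sigma_cube h3C σ
  have hσs : σ s2 = s2 := σ.commutes s
  have hcomm : ∀ (g : C2 ≃ₐ[K2] C2) (x : C2), g (σ x) = σ (g x) := fun g x =>
    comm_gen (K := K) hgenC σ g x
  -- the norm
  obtain ⟨N, hN⟩ : ∃ N : C2 → C2, ∀ x, N x = ∏ g ∈ univ.filter (fun g : C2 ≃ₐ[K2] C2 =>
      g s2 = s2), g x := ⟨_, fun x => rfl⟩
  have hNσ : ∀ x, N (σ x) = σ (N x) := by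
    intro x
    rw [hN, hN, map_prod]
    exact Finset.prod_congr rfl fun g _ => hcomm g x
  have hNmul : ∀ x y, N (x * y) = N x * N y := by
    intro x y
    rw [hN, hN, hN, ← Finset.prod_mul_distrib]
    exact Finset.prod_congr rfl fun g _ => map_mul g x y
  have hNpow : ∀ x (j : ℕ), N (x ^ j) = N x ^ j := by
    intro x j
    rw [hN, hN, ← Finset.prod_pow]
    exact Finset.prod_congr rfl fun g _ => map_pow g x j
  have hNdiv : ∀ x y, N (x / y) = N x / N y := by
    intro x y
    rw [hN, hN, hN, ← Finset.prod_div_distrib]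
    exact Finset.prod_congr rfl fun g _ => map_div₀ g x y
  have hN0 : ∀ x, x ≠ 0 → N x ≠ 0 := by
    intro x hx
    rw [hN, Finset.prod_ne_zero_iff]
    intro g _
    rw [Ne, map_eq_zero]
    exact hx
  let A : C2 → Prop := fun e => e ≠ 0 ∧
    (∀ w : HeightOneSpectrum (𝓞 C2), (3 : ℤ) ∣ log (w.valuation C2 e)) ∧
    (∃ y, N e = y ^ 3) ∧ (∀ g : C2 ≃ₐ[L2] C2, g s2 = -s2 → ∃ y, e * g e = y ^ 3)
  have hA : ∀ x, A x → A (σ x / x) := by
    rintro x ⟨hx, hv, ⟨y, hy⟩, hJ⟩
    have hσx : σ x ≠ 0 := by rw [Ne, map_eq_zero]; exact hx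
    refine ⟨div_ne_zero hσx hx, fun w => ?_, ⟨σ y / y, ?_⟩, ?_⟩
    · refine three_dvd_log_div hσx hx ?_ (hv w)
      obtain ⟨w', h1, -⟩ := exists_conj σ w
      rw [h1]
      exact hv w'
    · rw [hNdiv, hNσ, hy, map_pow, div_pow]
    · intro g hg
      obtain ⟨z, hz⟩ := hJ g hg
      refine ⟨σ z / z, ?_⟩
      have h1 : g (σ x) = σ (g x) := hcomm (g.restrictScalars K2) x
      have hgx : g x ≠ 0 := by rw [Ne, map_eq_zero]; exact hx
      rw [map_div₀, h1, div_pow, ← map_pow, ← hz, map_mul]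
      field_simp
  have hfix : ∀ x c, A x → σ x = x * c ^ 3 → ∃ y, x = y ^ 3 := by
    rintro e c ⟨he, hv, ⟨y, hy⟩, hJ⟩ hc
    have hc0 : c ≠ 0 := by
      rintro rfl
      rw [zero_pow three_ne_zero, mul_zero] at hc
      exact he ((map_eq_zero σ).mp hc)
    have hν3 : (c * σ c * σ (σ c)) ^ 3 = 1 := by
      have h1 : σ (σ e) = e * c ^ 3 * (σ c) ^ 3 := by rw [hc, map_mul, map_pow, hc]
      have h2 : σ (σ (σ e)) = e * c ^ 3 * (σ c) ^ 3 * (σ (σ c)) ^ 3 := by
        rw [h1, map_mul, map_mul, map_pow, map_pow, hc]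
      rw [hσ3] at h2
      have h4 : e * ((c * σ c * σ (σ c)) ^ 3 - 1) = 0 := by
        rw [mul_sub, mul_one, sub_eq_zero, mul_pow, mul_pow]
        rw [show e * (c ^ 3 * (σ c) ^ 3 * (σ (σ c)) ^ 3) =
          e * c ^ 3 * (σ c) ^ 3 * (σ (σ c)) ^ 3 by ring]
        exact h2.symm
      rcases mul_eq_zero.mp h4 with h5 | h5
      · exact absurd h5 he
      · exact sub_eq_zero.mp h5
    have hy0 : y ≠ 0 := by
      rintro rfl
      rw [zero_pow three_ne_zero] at hy
      exact hN0 e he hy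
    have hNc : N c ≠ 0 := hN0 c hc0
    -- `N (ν) = 1`
    have hNν : N (c * σ c * σ (σ c)) = 1 := by
      obtain ⟨ω, hω⟩ : ∃ ω, ω = σ y / (y * N c) := ⟨_, rfl⟩
      have hσy : σ y = y * N c * ω := by rw [hω]; field_simp
      have hω3 : ω ^ 3 = 1 := by
        have h1 : (σ y) ^ 3 = (y * N c) ^ 3 := by
          rw [← map_pow, ← hy, ← hNσ, hc, hNmul, hNpow, hy, mul_pow]
        rw [hω, div_pow, h1, div_self (pow_ne_zero 3 (mul_ne_zero hy0 hNc))]
      have hσω : σ ω = ω := mu3_fix (σ : C2 ≃+* C2) hs2' hσs hω3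
      have h2 : σ (σ y) = y * N c * ω * σ (N c) * ω := by
        rw [hσy, map_mul, map_mul, hσy, hσω]
      have h3 : σ (σ (σ y)) = y * N c * ω * σ (N c) * ω * σ (σ (N c)) * ω := by
        rw [h2, map_mul, map_mul, map_mul, map_mul, hσy, hσω]
      rw [hσ3] at h3
      rw [hNmul, hNmul, hNσ, hNσ, hNσ]
      have h4 : y * (N c * σ (N c) * σ (σ (N c)) * ω ^ 3) = y * 1 := by
        linear_combination (-1 : C2) * h3
      have h5 := mul_left_cancel₀ hy0 h4
      rwa [hω3, mul_one] at h5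
    have hν : c * σ c * σ (σ c) = 1 := by
      set ν := c * σ c * σ (σ c) with hνdef
      have h1 : N ν = ν ^ (univ.filter (fun g : C2 ≃ₐ[K2] C2 => g s2 = s2)).card := by
        rw [hN, ← Finset.prod_const]
        exact Finset.prod_congr rfl fun g hg =>
          mu3_fix (g : C2 ≃+* C2) hs2' (Finset.mem_filter.mp hg).2 hν3
      rw [hNν] at h1
      have h2 : orderOf ν ∣ 3 := orderOf_dvd_of_pow_eq_one hν3
      have h3 := orderOf_dvd_of_pow_eq_one h1.symm
      rcases (Nat.dvd_prime Nat.prime_three).mp h2 with h4 | h4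
      · exact orderOf_eq_one_iff.mp h4
      · rw [h4] at h3
        exact absurd h3 hcard2
    obtain ⟨f, hf, hcf⟩ := hilbert hσ3 hσ1 hν
    obtain ⟨t, ht⟩ := sigma_fix h3C hσ1 (x := e / f ^ 3) (by
      rw [map_div₀, map_pow, hc, ← hcf]
      field_simp)
    have ht0 : t ≠ 0 := by
      rintro rfl
      rw [map_zero] at ht
      exact div_ne_zero he (pow_ne_zero 3 hf) ht.symm
    -- the norm of `t`
    obtain ⟨T, hT⟩ : ∃ T, T = ∏ g ∈ univ.filter (fun g : C ≃ₐ[K] C => g s = s), g t := ⟨_, rfl⟩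
    have hT0 : T ≠ 0 := by
      rw [hT, Finset.prod_ne_zero_iff]
      intro g _
      rw [Ne, map_eq_zero]
      exact ht0
    have hTC : algebraMap C C2 T = (y / N f) ^ 3 := by
      rw [hT, prod_up (K2 := K2) hfr hgenC2 s t, ← hs2, ← hN, ht, hNdiv, hNpow, hy, div_pow]
    have hTfix : ∀ g : C ≃ₐ[K] C, g s = s → g T = T := by
      intro g hg
      rw [hT, map_prod]
      refine Finset.prod_bij (fun h _ => g * h) ?_ ?_ ?_ ?_
      · intro h hh
        rw [Finset.mem_filter] at hh ⊢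
        refine ⟨Finset.mem_univ _, ?_⟩
        rw [AlgEquiv.mul_apply, hh.2, hg]
      · intro h _ h' _ hhh
        exact mul_left_cancel hhh
      · intro h hh
        rw [Finset.mem_filter] at hh
        refine ⟨g⁻¹ * h, ?_, ?_⟩
        · rw [Finset.mem_filter]
          refine ⟨Finset.mem_univ _, ?_⟩
          rw [AlgEquiv.mul_apply, hh.2, AlgEquiv.aut_inv, AlgEquiv.symm_apply_eq, hg]
        · rw [mul_inv_cancel_left]
      · intro h _
        rfl
    obtain ⟨n, hn⟩ : ∃ n, n = (univ.filter (fun g : C ≃ₐ[K] C => g s = s)).card := ⟨_, rfl⟩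
    rw [← hn] at hcard
    obtain ⟨j, q, hjq⟩ : ∃ j q : ℕ, 1 + n * j = 3 * q := by
      have h1 : n % 3 = 1 ∨ n % 3 = 2 := by omega
      rcases h1 with h1 | h1
      · exact ⟨2, (1 + n * 2) / 3, by omega⟩
      · exact ⟨1, (1 + n * 1) / 3, by omega⟩
    obtain ⟨t', ht'⟩ : ∃ t', t' = t * T ^ j := ⟨_, rfl⟩
    have ht'0 : t' ≠ 0 := by rw [ht']; exact mul_ne_zero ht0 (pow_ne_zero j hT0)
    have hNt' : ∃ z, ∏ g ∈ univ.filter (fun g : C ≃ₐ[K] C => g s = s), g t' = z ^ 3 := by
      refine ⟨T ^ q, ?_⟩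
      have h1 : ∏ g ∈ univ.filter (fun g : C ≃ₐ[K] C => g s = s), g t' =
          ∏ g ∈ univ.filter (fun g : C ≃ₐ[K] C => g s = s), (g t * T ^ j) := by
        refine Finset.prod_congr rfl fun g hg => ?_
        rw [ht', map_mul, map_pow, hTfix g (Finset.mem_filter.mp hg).2]
      rw [h1, Finset.prod_mul_distrib, ← hT, Finset.prod_const, ← hn, ← pow_mul, ← pow_mul,
        mul_comm q 3, ← hjq, pow_add, pow_one, mul_comm j n]
    -- `e` and `t'`
    obtain ⟨f', hf'⟩ : ∃ f', f' = f / (y / N f) ^ j := ⟨_, rfl⟩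
    have hyN : y / N f ≠ 0 := div_ne_zero hy0 (hN0 f hf)
    have hf'0 : f' ≠ 0 := by rw [hf']; exact div_ne_zero hf (pow_ne_zero j hyN)
    have het : e = algebraMap C C2 t' * f' ^ 3 := by
      rw [ht', map_mul, map_pow, hTC, ht, hf']
      clear hf' hTC
      generalize y / N f = z at hyN
      rw [div_pow, ← pow_mul, ← pow_mul, mul_comm 3 j]
      field_simp
    have hvt : ∀ w : HeightOneSpectrum (𝓞 C), (3 : ℤ) ∣ log (w.valuation C t') := by
      intro w
      refine minus_val (K2 := K2) (C2 := C2) h3C hodd hs hgen (by rw [← hn]; exact hcard) hgenC hd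
        hbad ht'0 (fun W => ?_) hNt' w
      have e1 : algebraMap C C2 t' = e / f' ^ 3 := by rw [het]; field_simp
      rw [e1]
      exact three_dvd_log_div he (pow_ne_zero 3 hf'0) (hv W) (three_dvd_log_pow f')
    have hJt : ∀ J : C ≃ₐ[L] C, J s = -s → ∃ z, t' * J t' = z ^ 3 := by
      intro J hJs
      obtain ⟨J2, hJ2s, hJ2⟩ := lift_J (L2 := L2) (C2 := C2) hs hgen hgen2 h0 hJs
      obtain ⟨z, hz⟩ := hJ J2 hJ2s
      have hJJ : J (J t') = t' := by
        have h1 : J * J = 1 := by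
          apply gen_s hgen
          rw [AlgEquiv.mul_apply, hJs, map_neg, hJs, neg_neg]
        have h2 : (J * J) t' = t' := by rw [h1]; rfl
        exact h2
      obtain ⟨V, hV⟩ := mem_L_of_fix hs hgen hJs (x := t' * J t') (by
        rw [map_mul, hJJ, mul_comm])
      have hJf : J2 f' ≠ 0 := by rw [Ne, map_eq_zero]; exact hf'0
      obtain ⟨z', hz'⟩ := cube_down (L2 := L2) (C2 := C2) hs2' hgen2 h0 hμ (V := V)
        (y := z / (f' * J2 f')) (by
        rw [IsScalarTower.algebraMap_apply L C C2, hV, map_mul, ← hJ2, div_pow, ← hz, het,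
          map_mul, map_pow]
        field_simp)
      refine ⟨algebraMap L C z', ?_⟩
      rw [← hV, hz', map_pow]
    obtain ⟨u, hu⟩ := R t' ht'0 hvt hNt' hJt
    refine ⟨algebraMap C C2 u * f', ?_⟩
    rw [het, hu, map_pow, mul_pow]
  intro x hx hv hNx hJ
  refine skeleton (fun z => σ z) (fun a b => map_div₀ σ a b) hσ3 A (fun z hz => hz.1) hA hfix x
    ⟨hx, hv, ?_, hJ⟩
  obtain ⟨y, hy⟩ := hNx
  exact ⟨y, by rw [hN]; exact hy⟩

end

end H68TK
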